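import Pool.Agent.H726T.AxS

set_option autoImplicit false

open FirstOrder FirstOrder.Language FirstOrder.Language.Structure

namespace Pool.Agent.H726T

/-- transfer of universal statements -/
theorem axN_transfer {N : Type} [LL.Structure N] (j : S ↪ₑ[LL] N) (φ : LL.Formula (Fin 3))
    (h : ∀ v : Fin 3 → S, φ.Realize v) (v : Fin 3 → N) : φ.Realize v := by
  have h1 : (Formula.iAlls (α := Empty) (Fin 3) (φ.relabel (Sum.inr))).Realize
      (default : Empty → S) := by
    rw [Formula.realize_iAlls]
    intro i
    rw [Formula.realize_relabel]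
    exact h _
  have h2 := (j.map_formula (Formula.iAlls (α := Empty) (Fin 3) (φ.relabel (Sum.inr)))
    default).2 h1
  rw [Formula.realize_iAlls] at h2
  have h3 := h2 v
  rw [Formula.realize_relabel] at h3
  exact h3

/-- the three variables -/
def axN_x (i : Fin 3) : LL.Term (Fin 3) := Term.var i

theorem axN_transfer3 {N : Type} [LL.Structure N] (j : S ↪ₑ[LL] N) (φ : LL.Formula (Fin 3))
    (h : ∀ a b c : S, φ.Realize ![a, b, c]) (x y z : N) : φ.Realize ![x, y, z] := by
  apply axN_transfer j φ
  intro v
  have : v = ![v 0, v 1, v 2] := by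
    funext i
    fin_cases i <;> rfl
  rw [this]
  exact h _ _ _

section
variable {M : Type} [LL.Structure M] (a b c : M)

theorem axN_r0 : (axN_x 0).realize ![a, b, c] = a := rfl
theorem axN_r1 : (axN_x 1).realize ![a, b, c] = b := rfl
theorem axN_r2 : (axN_x 2).realize ![a, b, c] = c := rfl

end

/-- equality of terms -/
def axN_eq (t₁ t₂ : LL.Term (Fin 3)) : LL.Formula (Fin 3) := Term.equal t₁ t₂

/-- implication -/
def axN_imp (φ ψ : LL.Formula (Fin 3)) : LL.Formula (Fin 3) := φ.imp ψ

/-- sort `E` -/
def axN_e (t : LL.Term (Fin 3)) : LL.Formula (Fin 3) := (gF t).not ⊓ (kF t).not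

/-- same sort -/
def axN_same (t₁ t₂ : LL.Term (Fin 3)) : LL.Formula (Fin 3) :=
  (gF t₁ ⊓ gF t₂) ⊔ (kF t₁ ⊓ kF t₂)

section
variable {M : Type} [LL.Structure M] (v : Fin 3 → M) (t₁ t₂ : LL.Term (Fin 3))
  (φ ψ : LL.Formula (Fin 3))

theorem axN_realize_eq : (axN_eq t₁ t₂).Realize v ↔ t₁.realize v = t₂.realize v := by
  rw [axN_eq, Formula.realize_equal]

theorem axN_realize_imp : (axN_imp φ ψ).Realize v ↔ (φ.Realize v → ψ.Realize v) := by
  rw [axN_imp, Formula.realize_imp]

theorem axN_realize_e : (axN_e t₁).Realize v ↔ isE (t₁.realize v) := by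
  rw [axN_e, Formula.realize_inf, Formula.realize_not, Formula.realize_not, realize_gF,
    realize_kF, isE]

theorem axN_realize_same : (axN_same t₁ t₂).Realize v ↔ same (t₁.realize v) (t₂.realize v) := by
  rw [axN_same, Formula.realize_sup, Formula.realize_inf, Formula.realize_inf, realize_gF,
    realize_kF, realize_gF, realize_kF, same]

end

/--  -/
theorem axN {N : Type} [LL.Structure N] (j : S ↪ₑ[LL] N) : Ax N := by
  have A := axS
  refine ⟨?_, ?_, ?_, ?_, ?_, ?_, ?_, ?_, ?_, ?_, ?_, ?_, ?_⟩
  · intro x
    have h := axN_transfer3 j (ltF (axN_x 0) (axN_x 0)).not (fun a b c => by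
      simp only [Formula.realize_not, realize_ltF, axN_r0]
      exact A.irrefl a) x x x
    simpa only [Formula.realize_not, realize_ltF, axN_r0] using h
  · intro x y z
    have h := axN_transfer3 j (axN_imp (ltF (axN_x 0) (axN_x 1))
      (axN_imp (ltF (axN_x 1) (axN_x 2)) (ltF (axN_x 0) (axN_x 2)))) (fun a b c => by
      simp only [axN_realize_imp, realize_ltF, axN_r0, axN_r1, axN_r2]
      exact A.trans a b c) x y z
    simpa only [axN_realize_imp, realize_ltF, axN_r0, axN_r1, axN_r2] using h
  · intro x y
    have h := axN_transfer3 j (axN_imp (axN_eq (axN_x 0) (axN_x 1)).not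
      (ltF (axN_x 0) (axN_x 1) ⊔ ltF (axN_x 1) (axN_x 0))) (fun a b c => by
      simp only [axN_realize_imp, axN_realize_eq, Formula.realize_not, Formula.realize_sup,
        realize_ltF, axN_r0, axN_r1, axN_r2]
      exact A.total a b) x y y
    simpa only [axN_realize_imp, axN_realize_eq, Formula.realize_not, Formula.realize_sup,
        realize_ltF, axN_r0, axN_r1, axN_r2] using h
  · intro x
    have h := axN_transfer3 j (gF (axN_x 0) ⊓ kF (axN_x 0)).not (fun a b c => by
      simp only [Formula.realize_not, Formula.realize_inf, realize_gF, realize_kF, axN_r0]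
      exact A.gk a) x x x
    simpa only [Formula.realize_not, Formula.realize_inf, realize_gF, realize_kF, axN_r0] using h
  · intro x y
    have h := axN_transfer3 j (axN_imp (axN_e (axN_x 0)) (axN_imp (gF (axN_x 1))
      (ltF (axN_x 0) (axN_x 1)))) (fun a b c => by
      simp only [axN_realize_imp, axN_realize_e, realize_gF, realize_ltF, axN_r0, axN_r1]
      exact A.eg a b) x y y
    simpa only [axN_realize_imp, axN_realize_e, realize_gF, realize_ltF, axN_r0, axN_r1] using h
  · intro x y
    have h := axN_transfer3 j (axN_imp (axN_e (axN_x 0)) (axN_imp (kF (axN_x 1))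
      (ltF (axN_x 0) (axN_x 1)))) (fun a b c => by
      simp only [axN_realize_imp, axN_realize_e, realize_kF, realize_ltF, axN_r0, axN_r1]
      exact A.ek a b) x y y
    simpa only [axN_realize_imp, axN_realize_e, realize_kF, realize_ltF, axN_r0, axN_r1] using h
  · intro x y
    have h := axN_transfer3 j (axN_imp (gF (axN_x 0)) (axN_imp (kF (axN_x 1))
      (ltF (axN_x 0) (axN_x 1)))) (fun a b c => by
      simp only [axN_realize_imp, realize_gF, realize_kF, realize_ltF, axN_r0, axN_r1]
      exact A.ltgk a b) x y y
    simpa only [axN_realize_imp, realize_gF, realize_kF, realize_ltF, axN_r0, axN_r1] using h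
  · intro x
    have h := axN_transfer3 j (axN_eq (dT (axN_x 0) (axN_x 0)) (axN_x 0)) (fun a b c => by
      simp only [axN_realize_eq, realize_dT, axN_r0]
      exact A.d_self a) x x x
    simpa only [axN_realize_eq, realize_dT, axN_r0] using h
  · intro x y
    have h := axN_transfer3 j (axN_imp (axN_same (axN_x 0) (axN_x 1)).not
      (axN_eq (dT (axN_x 0) (axN_x 1)) (axN_x 0))) (fun a b c => by
      simp only [axN_realize_imp, axN_realize_same, Formula.realize_not, axN_realize_eq,
        realize_dT, axN_r0, axN_r1]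
      exact A.d_junk a b) x y y
    simpa only [axN_realize_imp, axN_realize_same, Formula.realize_not, axN_realize_eq,
        realize_dT, axN_r0, axN_r1] using h
  · intro x y
    have h := axN_transfer3 j (axN_imp (gF (axN_x 0)) (axN_imp (gF (axN_x 1))
      (axN_imp (axN_eq (axN_x 0) (axN_x 1)).not (axN_e (dT (axN_x 0) (axN_x 1))))))
      (fun a b c => by
      simp only [axN_realize_imp, axN_realize_e, Formula.realize_not, axN_realize_eq, realize_gF,
        realize_dT, axN_r0, axN_r1]
      exact A.d_G a b) x y y
    simpa only [axN_realize_imp, axN_realize_e, Formula.realize_not, axN_realize_eq, realize_gF,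
        realize_dT, axN_r0, axN_r1] using h
  · intro x y
    have h := axN_transfer3 j (axN_imp (kF (axN_x 0)) (axN_imp (kF (axN_x 1))
      (axN_imp (axN_eq (axN_x 0) (axN_x 1)).not (gF (dT (axN_x 0) (axN_x 1))))))
      (fun a b c => by
      simp only [axN_realize_imp, Formula.realize_not, axN_realize_eq, realize_gF, realize_kF,
        realize_dT, axN_r0, axN_r1]
      exact A.d_K a b) x y y
    simpa only [axN_realize_imp, Formula.realize_not, axN_realize_eq, realize_gF, realize_kF,
        realize_dT, axN_r0, axN_r1] using h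
  · intro x y
    have h := axN_transfer3 j (axN_imp (axN_same (axN_x 0) (axN_x 1))
      (axN_eq (dT (axN_x 0) (axN_x 1)) (dT (axN_x 1) (axN_x 0)))) (fun a b c => by
      simp only [axN_realize_imp, axN_realize_same, axN_realize_eq,
        realize_dT, axN_r0, axN_r1]
      exact A.d_symm a b) x y y
    simpa only [axN_realize_imp, axN_realize_same, axN_realize_eq,
        realize_dT, axN_r0, axN_r1] using h
  · intro x y z
    have h := axN_transfer3 j (axN_imp (axN_same (axN_x 0) (axN_x 1))
      (axN_imp (axN_same (axN_x 1) (axN_x 2)) (axN_imp (ltF (axN_x 0) (axN_x 1))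
      (axN_imp (ltF (axN_x 1) (axN_x 2))
      ((axN_eq (dT (axN_x 0) (axN_x 2)) (dT (axN_x 0) (axN_x 1)) ⊓
          (ltF (dT (axN_x 1) (axN_x 2)) (dT (axN_x 0) (axN_x 1))).not) ⊔
        (axN_eq (dT (axN_x 0) (axN_x 2)) (dT (axN_x 1) (axN_x 2)) ⊓
          (ltF (dT (axN_x 0) (axN_x 1)) (dT (axN_x 1) (axN_x 2))).not)))))) (fun a b c => by
      simp only [axN_realize_imp, axN_realize_same, axN_realize_eq, Formula.realize_not,
        Formula.realize_sup, Formula.realize_inf, realize_ltF,
        realize_dT, axN_r0, axN_r1, axN_r2]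
      exact A.um a b c) x y z
    simpa only [axN_realize_imp, axN_realize_same, axN_realize_eq, Formula.realize_not,
        Formula.realize_sup, Formula.realize_inf, realize_ltF,
        realize_dT, axN_r0, axN_r1, axN_r2] using h

end Pool.Agent.H726T
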