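import Pool.Agent.H726T.Defs

set_option autoImplicit false

open FirstOrder FirstOrder.Language FirstOrder.Language.Structure

namespace Pool.Agent.H726T

section axSgen

variable {A : Type} [LinearOrder A] [Inhabited A]

theorem axS_dl_comm (x y : A →₀ ℚ) : dl x y = dl y x := by
  unfold dl
  simp only [Finsupp.neLocus_comm x y]

omit [Inhabited A] in
theorem axS_ne (x y : A →₀ ℚ) (h : x ≠ y) : (x.neLocus y).Nonempty :=
  Finsupp.nonempty_neLocus_iff.2 h

theorem axS_dl_ne (x y : A →₀ ℚ) (h : x ≠ y) : x (dl x y) ≠ y (dl x y) := by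
  have h1 := axS_ne x y h
  unfold dl
  rw [dif_pos h1]
  exact Finsupp.mem_neLocus.1 (Finset.min'_mem _ h1)

theorem axS_dl_eq (x y : A →₀ ℚ) (h : x ≠ y) (b : A) (hb : b < dl x y) : x b = y b := by
  have h1 := axS_ne x y h
  unfold dl at hb
  rw [dif_pos h1] at hb
  by_contra hc
  exact absurd hb (not_lt.2 (Finset.min'_le _ _ (Finsupp.mem_neLocus.2 hc)))

theorem axS_dl_unique (x y : A →₀ ℚ) (j : A) (h1 : ∀ b < j, x b = y b) (h2 : x j ≠ y j) : dl x y = j := by
  have hne : x ≠ y := fun h => h2 (by rw [h])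
  rcases lt_trichotomy (dl x y) j with h | h | h
  · exact absurd (h1 _ h) (axS_dl_ne x y hne)
  · exact h
  · exact absurd (axS_dl_eq x y hne _ h) h2

theorem axS_lt (x y : A →₀ ℚ) (h : toLex x < toLex y) :
    (∀ b < dl x y, x b = y b) ∧ x (dl x y) < y (dl x y) := by
  obtain ⟨j, h1, h2⟩ := h
  have h3 : dl x y = j := axS_dl_unique x y j h1 (ne_of_lt h2)
  rw [h3]
  exact ⟨h1, h2⟩

theorem axS_um (x y z : A →₀ ℚ) (h1 : toLex x < toLex y) (h2 : toLex y < toLex z) :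
    (dl x z = dl x y ∧ ¬ dl y z < dl x y) ∨ (dl x z = dl y z ∧ ¬ dl x y < dl y z) := by
  obtain ⟨a1, a2⟩ := axS_lt x y h1
  obtain ⟨b1, b2⟩ := axS_lt y z h2
  rcases lt_trichotomy (dl x y) (dl y z) with h | h | h
  · left
    refine ⟨axS_dl_unique x z _ (fun b hb => (a1 b hb).trans (b1 b (hb.trans h))) ?_, not_lt.2 h.le⟩
    rw [← b1 _ h]
    exact ne_of_lt a2
  · left
    refine ⟨axS_dl_unique x z _ (fun b hb => (a1 b hb).trans (b1 b (h ▸ hb))) ?_, by rw [h]; exact lt_irrefl _⟩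
    rw [← h] at b2
    exact ne_of_lt (a2.trans b2)
  · right
    refine ⟨axS_dl_unique x z _ (fun b hb => (a1 b (hb.trans h)).trans (b1 b hb)) ?_, not_lt.2 h.le⟩
    rw [a1 _ h]
    exact ne_of_lt b2

end axSgen

theorem axS_d_g (x y : GG) (h : x ≠ y) : dS (.g x) (.g y) = .e (dl (ofLex x) (ofLex y)) := by
  simp [dS, h]

theorem axS_d_k (x y : KK) (h : x ≠ y) : dS (.k x) (.k y) = .g (dl (ofLex x) (ofLex y)) := by
  unfold dS
  simp only [h, if_false]

theorem axS : Ax S := by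
  constructor
  · rintro (x | x | x) h <;> exact lt_irrefl x h
  · rintro (x | x | x) (y | y | y) (z | z | z) h1 h2 <;> simp only [lt_S, ltS] at h1 h2 ⊢ <;> first
      | exact h1.trans h2
      | exact h1.elim
      | exact h2.elim
  · rintro (x | x | x) (y | y | y) h <;> simp only [lt_S, ltS, or_true, true_or] <;>
      exact lt_or_gt_of_ne (fun h' => h (by rw [h']))
  · rintro x ⟨⟨y, hy⟩, ⟨z, hz⟩⟩
    rw [hy] at hz
    cases hz
  · rintro (x | x | x) (y | y | y) hx hy <;> simp [isE] at hx hy ⊢ <;> simp [ltS]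
  · rintro (x | x | x) (y | y | y) hx hy <;> simp [isE] at hx hy ⊢ <;> simp [ltS]
  · rintro (x | x | x) (y | y | y) hx hy <;> simp at hx hy ⊢ <;> simp [ltS]
  · rintro (x | x | x) <;> simp [dS]
  · rintro (x | x | x) (y | y | y) h <;> simp [same] at h ⊢ <;> simp [dS]
  · rintro (x | x | x) (y | y | y) hx hy hne <;> simp [isE, dS] at hx hy hne ⊢ <;> simp [hne]
  · rintro (x | x | x) (y | y | y) hx hy hne <;> simp only [isK_S, isG_S, reduceCtorEq, exists_false, exists_const] at hx hy ⊢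
    rw [d_S, axS_d_k x y (fun h => hne (by rw [h]))]
    exact ⟨_, rfl⟩
  · rintro (x | x | x) (y | y | y) h <;> simp [same] at h ⊢
    · by_cases hxy : x = y
      · rw [hxy]
      · rw [axS_d_g x y hxy, axS_d_g y x (Ne.symm hxy), axS_dl_comm]
    · by_cases hxy : x = y
      · rw [hxy]
      · rw [axS_d_k x y hxy, axS_d_k y x (Ne.symm hxy), axS_dl_comm]
  · rintro (x | x | x) (y | y | y) (z | z | z) h1 h2 h3 h4 <;> simp [same, ltS] at h1 h2 h3 h4
    · rw [d_S, d_S, d_S, axS_d_g x y h3.ne, axS_d_g y z h4.ne, axS_d_g x z (h3.trans h4).ne, lt_S, lt_S]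
      rcases axS_um (ofLex x) (ofLex y) (ofLex z) h3 h4 with ⟨u, v⟩ | ⟨u, v⟩
      · exact Or.inl ⟨by rw [u], v⟩
      · exact Or.inr ⟨by rw [u], v⟩
    · rw [d_S, d_S, d_S, axS_d_k x y h3.ne, axS_d_k y z h4.ne, axS_d_k x z (h3.trans h4).ne, lt_S, lt_S]
      rcases axS_um (ofLex x) (ofLex y) (ofLex z) h3 h4 with ⟨u, v⟩ | ⟨u, v⟩
      · exact Or.inl ⟨by rw [u], v⟩
      · exact Or.inr ⟨by rw [u], v⟩

end Pool.Agent.H726T
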