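import Pool.Agent.H726T.ExtOne

set_option autoImplicit false

open FirstOrder FirstOrder.Language FirstOrder.Language.Structure

namespace Pool.Agent.H726T

theorem closT_dK {N : Type} [LL.Structure N] (hN : Ax N) {x y : N} (h : isK (d x y)) : d x y = x := by
  by_cases hs : same x y
  · by_cases hxy : x = y
    · subst hxy
      exact hN.d_self x
    · rcases hs with ⟨hx, hy⟩ | ⟨hx, hy⟩
      · exact absurd h (hN.d_G x y hx hy hxy).2
      · exact absurd ⟨hN.d_K x y hx hy hxy, h⟩ (hN.gk _)
  · exact hN.d_junk x y hs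

theorem closT_vd {N : Type} [LL.Structure N] (hN : Ax N) {n : ℕ} (v : Fin n → N) (i j : Fin n) :
    val v ((i, j), (i, j)) = d (v i) (v j) := hN.d_self _

theorem closT_vi {N : Type} [LL.Structure N] (hN : Ax N) {n : ℕ} (v : Fin n → N) (i : Fin n) :
    val v ((i, i), (i, i)) = v i := by
  rw [closT_vd hN, hN.d_self]

theorem closT_eq {N N' : Type} [LL.Structure N] [LL.Structure N'] (hN : Ax N) (hN' : Ax N')
    {n : ℕ} (v : Fin n → N) (w : Fin n → N') (h : SameDiag v w) (p q : T n) :
    val v p = val v q ↔ val w p = val w q := by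
  constructor
  · intro e
    by_contra hne
    rcases hN'.total _ _ hne with h1 | h1
    · have h2 := (h.1 p q).2 h1
      rw [e] at h2
      exact hN.irrefl _ h2
    · have h2 := (h.1 q p).2 h1
      rw [e] at h2
      exact hN.irrefl _ h2
  · intro e
    by_contra hne
    rcases hN.total _ _ hne with h1 | h1
    · have h2 := (h.1 p q).1 h1
      rw [e] at h2
      exact hN'.irrefl _ h2
    · have h2 := (h.1 q p).1 h1
      rw [e] at h2
      exact hN'.irrefl _ h2

theorem closT_same {N N' : Type} [LL.Structure N] [LL.Structure N']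
    {n : ℕ} (v : Fin n → N) (w : Fin n → N') (h : SameDiag v w) (p q : T n) :
    same (val v p) (val v q) ↔ same (val w p) (val w q) := by
  unfold same
  rw [h.2.1 p, h.2.1 q, h.2.2 p, h.2.2 q]

theorem closT_K1 {N : Type} [LL.Structure N] (hN : Ax N) {n : ℕ} (v : Fin n → N) (i j k l : Fin n)
    (h : isK (val v ((i, j), (k, l)))) : val v ((i, j), (k, l)) = v i := by
  have h1 : val v ((i, j), (k, l)) = d (v i) (v j) := closT_dK hN h
  rw [h1] at h ⊢
  exact closT_dK hN h

theorem closT_G {N N' : Type} [LL.Structure N] [LL.Structure N'] (hN : Ax N) (hN' : Ax N')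
    {n : ℕ} (v : Fin n → N) (w : Fin n → N') (h : SameDiag v w) (i j k l : Fin n)
    (hg : isG (val v ((i, j), (k, l)))) :
    ∃ a b : Fin n, val v ((i, j), (k, l)) = d (v a) (v b) ∧ val w ((i, j), (k, l)) = d (w a) (w b) := by
  have e1 := closT_vd hN v i j
  have e2 := closT_vd hN v k l
  have e1' := closT_vd hN' w i j
  have e2' := closT_vd hN' w k l
  have hs := closT_same v w h ((i, j), (i, j)) ((k, l), (k, l))
  have he := closT_eq hN hN' v w h ((i, j), (i, j)) ((k, l), (k, l))
  have hki := h.2.2 ((i, j), (i, j))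
  have hkk := h.2.2 ((k, l), (k, l))
  rw [e1, e2, e1', e2'] at hs he
  rw [e1, e1'] at hki
  rw [e2, e2'] at hkk
  by_cases hss : same (d (v i) (v j)) (d (v k) (v l))
  · by_cases hee : d (v i) (v j) = d (v k) (v l)
    · refine ⟨i, j, ?_, ?_⟩
      · show d (d (v i) (v j)) (d (v k) (v l)) = _
        rw [← hee, hN.d_self]
      · show d (d (w i) (w j)) (d (w k) (w l)) = _
        rw [← he.1 hee, hN'.d_self]
    · rcases hss with ⟨hx, hy⟩ | ⟨hx, hy⟩
      · exact absurd hg (hN.d_G _ _ hx hy hee).1
      · refine ⟨i, k, ?_, ?_⟩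
        · show d (d (v i) (v j)) (d (v k) (v l)) = _
          rw [closT_dK hN hx, closT_dK hN hy]
        · show d (d (w i) (w j)) (d (w k) (w l)) = _
          rw [closT_dK hN' (hki.1 hx), closT_dK hN' (hkk.1 hy)]
  · refine ⟨i, j, hN.d_junk _ _ hss, hN'.d_junk _ _ (fun c => hss (hs.2 c))⟩

/-- the closure of a tuple under `d`.  `val v p = d (d (v p.1.1) (v p.1.2)) (d (v p.2.1) (v p.2.2))`.  `SameDiag` says that the order and the sorts of the `val`s match; by totality and irreflexivity
equalities between `val`s match too.  `v i = val v ((i,i),(i,i))` by `d_self`; `d (v i) (v j) = val v ((i,j),(i,j))`.  So it remains to see that `R := fun x y => ∃ p, x = val v p ∧ y = val w p`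
is closed under `d`: let `x = val v p`, `x' = val w p`, `y = val v q`, `y' = val w q`.  If `x = y` then `x' = y'` and `d_self`.  If not `same x y` then not `same x' y'` and `d_junk` gives `x`, `x'`.
If `x ≠ y` are both in `K`: a `val` in `K` must be one of the entries of the tuple: `val v p ∈ K` forces `v p.1.1 = v p.1.2 = v p.2.1 = v p.2.2` or the inner terms to be junk
(if `u, w ∈ K`, `u ≠ w`, then `d u w ∈ G`; if `u ∈ K`, `w ∉ K` then `d u w = u`), in all cases `val v p = v p.1.1` and likewise `val w p = w p.1.1` (as the sorts/equalities of the `val`s match on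
both sides), so `d x y = val v ((p.1.1, q.1.1), (p.1.1, q.1.1))` and the same for `w`.  If `x ≠ y` are both in `G`: each of them is `d (v p.1.1) (v p.1.2)` (the outer `d` is trivial: a `d` of two different
elements of `G` is in `E`, and a `d` of two elements of `K` that is in `G` would require the inner terms to be different elements of `K`: then `val v p = d (v p.1.1) (v p.2.1)`), so `x` is `d (v i) (v j)` and
`x' = d (w i) (w j)` for the same `i, j`, and `y = d (v k) (v l)`, `y' = d (w k) (w l)`; then `d x y = val v ((i,j),(k,l))`.  A convenient way: first show that the relation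
`R₁ := fun x y => ∃ i j, x = d (v i) (v j) ∧ y = d (w i) (w j)` has the same order/sorts/equalities (as `d (v i) (v j) = val v ((i,j),(i,j))`), that for each `p` with `isG (val v p)` or `isK (val v p)`
`R₁ (val v p) (val w p)` holds, and that for each `p` with `isK (val v p)` the pair is `(v i, w i)` for some `i`. -/
theorem closT {N N' : Type} [LL.Structure N] [LL.Structure N'] (hN : Ax N) (hN' : Ax N')
    {n : ℕ} (v : Fin n → N) (w : Fin n → N') (h : SameDiag v w) :
    PI (fun x y => ∃ p : T n, x = val v p ∧ y = val w p) ∧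
      ∀ i, ∃ p : T n, v i = val v p ∧ w i = val w p := by
  constructor
  · constructor
    · rintro x x' y y' ⟨p, rfl, rfl⟩ ⟨q, rfl, rfl⟩
      exact h.1 p q
    · rintro x x' ⟨p, rfl, rfl⟩
      exact h.2.1 p
    · rintro x x' ⟨p, rfl, rfl⟩
      exact h.2.2 p
    · rintro x x' y y' ⟨p, rfl, rfl⟩ ⟨q, rfl, rfl⟩
      by_cases hss : same (val v p) (val v q)
      · by_cases hee : val v p = val v q
        · refine ⟨p, ?_, ?_⟩
          · rw [← hee, hN.d_self]
          · rw [← (closT_eq hN hN' v w h p q).1 hee, hN'.d_self]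
        · obtain ⟨⟨i, j⟩, ⟨k, l⟩⟩ := p
          obtain ⟨⟨i', j'⟩, ⟨k', l'⟩⟩ := q
          rcases hss with ⟨hx, hy⟩ | ⟨hx, hy⟩
          · obtain ⟨a, b, h1, h2⟩ := closT_G hN hN' v w h i j k l hx
            obtain ⟨a', b', h1', h2'⟩ := closT_G hN hN' v w h i' j' k' l' hy
            refine ⟨((a, b), (a', b')), ?_, ?_⟩
            · rw [h1, h1']
              rfl
            · rw [h2, h2']
              rfl
          · refine ⟨((i, i'), (i, i')), ?_, ?_⟩
            · rw [closT_vd hN, closT_K1 hN v i j k l hx, closT_K1 hN v i' j' k' l' hy]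
            · rw [closT_vd hN', closT_K1 hN' w i j k l ((h.2.2 _).1 hx),
                closT_K1 hN' w i' j' k' l' ((h.2.2 _).1 hy)]
      · refine ⟨p, hN.d_junk _ _ hss, hN'.d_junk _ _ (fun c => hss ((closT_same v w h p q).2 c))⟩
  · intro i
    exact ⟨((i, i), (i, i)), (closT_vi hN v i).symm, (closT_vi hN' w i).symm⟩

end Pool.Agent.H726T
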