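import Pool.Agent.H726T.Defs

set_option autoImplicit false

open FirstOrder FirstOrder.Language FirstOrder.Language.Structure

namespace Pool.Agent.H726T

/--  1 -/
theorem PI.symm {N N' : Type} [LL.Structure N] [LL.Structure N'] {R : N → N' → Prop} (h : PI R) :
    PI (fun x y => R y x) :=
  ⟨fun _ _ _ _ h1 h2 => (h.lt _ _ _ _ h1 h2).symm, fun _ _ h1 => (h.isG _ _ h1).symm,
    fun _ _ h1 => (h.isK _ _ h1).symm, fun _ _ _ _ h1 h2 => h.d _ _ _ _ h1 h2⟩

theorem extOne_eq {N N' : Type} [LL.Structure N] [LL.Structure N'] (hN : Ax N) (hN' : Ax N')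
    {x y : N} {x' y' : N'} (h1 : lt x y ↔ lt x' y') (h2 : lt y x ↔ lt y' x') :
    x = y ↔ x' = y' := by
  constructor
  · rintro rfl
    by_contra hne
    rcases hN'.total _ _ hne with h | h
    · exact hN.irrefl _ (h1.2 h)
    · exact hN.irrefl _ (h2.2 h)
  · rintro rfl
    by_contra hne
    rcases hN.total _ _ hne with h | h
    · exact hN'.irrefl _ (h1.1 h)
    · exact hN'.irrefl _ (h2.1 h)

theorem extOne_same {N N' : Type} [LL.Structure N] [LL.Structure N']
    {x y : N} {x' y' : N'} (hG : isG x ↔ isG x') (hK : isK x ↔ isK x') (hG' : isG y ↔ isG y')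
    (hK' : isK y ↔ isK y') : same x y ↔ same x' y' := by
  unfold same
  rw [hG, hK, hG', hK']

/--  2 -/
theorem PI.inj {N N' : Type} [LL.Structure N] [LL.Structure N'] {R : N → N' → Prop} (h : PI R)
    (hN : Ax N) (hN' : Ax N') {x y : N} {x' y' : N'} (hx : R x x') (hy : R y y') :
    x = y ↔ x' = y' :=
  extOne_eq hN hN' (h.lt _ _ _ _ hx hy) (h.lt _ _ _ _ hy hx)

/--  3: extension of a partial isomorphism by one pair. -/
theorem extOne {N N' : Type} [LL.Structure N] [LL.Structure N'] (hN : Ax N) (hN' : Ax N')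
    {R : N → N' → Prop} (h : PI R) (x : N) (x' : N') (hG : isG x ↔ isG x') (hK : isK x ↔ isK x')
    (h1 : ∀ a a', R a a' → (lt a x ↔ lt a' x')) (h2 : ∀ a a', R a a' → (lt x a ↔ lt x' a'))
    (h3 : ∀ a a', R a a' → same x a → x ≠ a ∧ x' ≠ a' → R (d x a) (d x' a')) :
    PI (fun u u' => R u u' ∨ (u = x ∧ u' = x')) := by
  have hs : ∀ a a', R a a' → (same x a ↔ same x' a') := fun a a' ha =>
    extOne_same hG hK (h.isG _ _ ha) (h.isK _ _ ha)
  have he : ∀ a a', R a a' → (x = a ↔ x' = a') := fun a a' ha =>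
    extOne_eq hN hN' (h2 _ _ ha) (h1 _ _ ha)
  have key : ∀ a a', R a a' → R (d x a) (d x' a') ∨ (d x a = x ∧ d x' a' = x') := by
    intro a a' ha
    by_cases hsa : same x a
    · by_cases hxa : x = a
      · have hxa' := (he a a' ha).1 hxa
        right
        rw [← hxa, ← hxa']
        exact ⟨hN.d_self x, hN'.d_self x'⟩
      · exact Or.inl (h3 a a' ha hsa ⟨hxa, fun hc => hxa ((he a a' ha).2 hc)⟩)
    · exact Or.inr ⟨hN.d_junk _ _ hsa, hN'.d_junk _ _ fun hc => hsa ((hs a a' ha).2 hc)⟩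
  have key2 : ∀ a a', R a a' → R (d a x) (d a' x') ∨ (d a x = x ∧ d a' x' = x') := by
    intro a a' ha
    by_cases hsa : same x a
    · have hsa2 : same a x := by
        rcases hsa with ⟨p, q⟩ | ⟨p, q⟩
        · exact Or.inl ⟨q, p⟩
        · exact Or.inr ⟨q, p⟩
      have hsb : same x' a' := (hs a a' ha).1 hsa
      have hsb2 : same a' x' := by
        rcases hsb with ⟨p, q⟩ | ⟨p, q⟩
        · exact Or.inl ⟨q, p⟩
        · exact Or.inr ⟨q, p⟩
      rw [hN.d_symm a x hsa2, hN'.d_symm a' x' hsb2]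
      exact key a a' ha
    · have hn1 : ¬ same a x := by
        intro hc
        apply hsa
        rcases hc with ⟨p, q⟩ | ⟨p, q⟩
        · exact Or.inl ⟨q, p⟩
        · exact Or.inr ⟨q, p⟩
      have hn2 : ¬ same a' x' := by
        intro hc
        apply hsa
        rw [hs a a' ha]
        rcases hc with ⟨p, q⟩ | ⟨p, q⟩
        · exact Or.inl ⟨q, p⟩
        · exact Or.inr ⟨q, p⟩
      left
      rw [hN.d_junk _ _ hn1, hN'.d_junk _ _ hn2]
      exact ha
  refine ⟨?_, ?_, ?_, ?_⟩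
  · rintro u u' w w' (hu | ⟨rfl, rfl⟩) (hw | ⟨rfl, rfl⟩)
    · exact h.lt _ _ _ _ hu hw
    · exact h1 _ _ hu
    · exact h2 _ _ hw
    · exact ⟨fun hc => absurd hc (hN.irrefl _), fun hc => absurd hc (hN'.irrefl _)⟩
  · rintro u u' (hu | ⟨rfl, rfl⟩)
    · exact h.isG _ _ hu
    · exact hG
  · rintro u u' (hu | ⟨rfl, rfl⟩)
    · exact h.isK _ _ hu
    · exact hK
  · rintro u u' w w' (hu | ⟨rfl, rfl⟩) (hw | ⟨rfl, rfl⟩)
    · exact Or.inl (h.d _ _ _ _ hu hw)
    · exact key2 _ _ hu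
    · exact key _ _ hw
    · exact Or.inr ⟨hN.d_self _, hN'.d_self _⟩

end Pool.Agent.H726T
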