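import Pool.Agent.H726T.Defs

-- iso1, iso2 proved (helper iso_cases); statements unchanged; no sorry

set_option autoImplicit false

open FirstOrder FirstOrder.Language FirstOrder.Language.Structure

namespace Pool.Agent.H726T

theorem iso_symm {N : Type} [LL.Structure N] {x y : N} (h : same x y) : same y x := by
  rcases h with ⟨h1, h2⟩ | ⟨h1, h2⟩
  · exact Or.inl ⟨h2, h1⟩
  · exact Or.inr ⟨h2, h1⟩

theorem iso_trans {N : Type} [LL.Structure N] (h : Ax N) {x y z : N} (hxy : same x y)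
    (hyz : same y z) : same x z := by
  rcases hxy with ⟨h1, h2⟩ | ⟨h1, h2⟩ <;> rcases hyz with ⟨h3, h4⟩ | ⟨h3, h4⟩
  · exact Or.inl ⟨h1, h4⟩
  · exact absurd ⟨h2, h3⟩ (h.gk y)
  · exact absurd ⟨h3, h2⟩ (h.gk y)
  · exact Or.inr ⟨h1, h4⟩

/-- the possible values of `d x z` -/
theorem iso_cases {N : Type} [LL.Structure N] (h : Ax N) {x y z : N} (hxy : same x y)
    (hyz : same y z) (h1 : x ≠ y) (h2 : y ≠ z) (h3 : x ≠ z) :
    (d x z = d x y ∧ ¬ lt (d y z) (d x y)) ∨ (d x z = d y z ∧ ¬ lt (d x y) (d y z)) ∨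
      (d x y = d y z ∧ ¬ lt (d x z) (d x y)) := by
  have hxz := iso_trans h hxy hyz
  have e1 := h.d_symm x y hxy
  have e2 := h.d_symm y z hyz
  have e3 := h.d_symm x z hxz
  rcases h.total x y h1 with a | a <;> rcases h.total y z h2 with b | b <;>
    rcases h.total x z h3 with c | c
  · -- x < y < z
    rcases h.um x y z hxy hyz a b with ⟨k1, k2⟩ | ⟨k1, k2⟩
    · exact Or.inl ⟨k1, k2⟩
    · exact Or.inr (Or.inl ⟨k1, k2⟩)
  · exact absurd (h.trans _ _ _ (h.trans _ _ _ a b) c) (h.irrefl x)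
  · -- x < z < y
    rcases h.um x z y hxz (iso_symm hyz) c b with ⟨k1, k2⟩ | ⟨k1, k2⟩
    · rw [← e2] at k2
      exact Or.inl ⟨k1.symm, by rw [k1]; exact k2⟩
    · rw [← e2] at k1 k2
      exact Or.inr (Or.inr ⟨k1, by rw [k1]; exact k2⟩)
  · -- z < x < y
    rcases h.um z x y (iso_symm hxz) hxy c a with ⟨k1, k2⟩ | ⟨k1, k2⟩
    · rw [← e2, ← e3] at k1
      rw [← e3] at k2
      exact Or.inr (Or.inl ⟨k1.symm, by rw [k1]; exact k2⟩)
    · rw [← e2] at k1
      rw [← e3] at k2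
      exact Or.inr (Or.inr ⟨k1.symm, k2⟩)
  · -- y < x < z
    rcases h.um y x z (iso_symm hxy) hxz a c with ⟨k1, k2⟩ | ⟨k1, k2⟩
    · rw [← e1] at k1 k2
      exact Or.inr (Or.inr ⟨k1.symm, k2⟩)
    · rw [← e1] at k2
      exact Or.inr (Or.inl ⟨k1.symm, by rw [k1]; exact k2⟩)
  · -- y < z < x
    rcases h.um y z x hyz (iso_symm hxz) b c with ⟨k1, k2⟩ | ⟨k1, k2⟩
    · rw [← e1] at k1
      rw [← e3] at k2
      exact Or.inr (Or.inr ⟨k1, by rw [k1]; exact k2⟩)
    · rw [← e1, ← e3] at k1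
      rw [← e3] at k2
      exact Or.inl ⟨k1.symm, by rw [k1]; exact k2⟩
  · exact absurd (h.trans _ _ _ (h.trans _ _ _ a c) b) (h.irrefl y)
  · -- z < y < x
    rcases h.um z y x (iso_symm hyz) (iso_symm hxy) b a with ⟨k1, k2⟩ | ⟨k1, k2⟩
    · rw [← e2, ← e3] at k1
      rw [← e1, ← e2] at k2
      exact Or.inr (Or.inl ⟨k1, k2⟩)
    · rw [← e1, ← e3] at k1
      rw [← e1, ← e2] at k2
      exact Or.inl ⟨k1, k2⟩

/--  1 (isosceles).  By cases on the order of `x, y, z` (use `total`, `um`, `d_symm`): in an ordered ultrametric tower `um` gives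
`d x z = min (d x y) (d y z)` for `x < y < z`; in each of the six orders of `x,y,z` the two smallest of the three distances agree. -/
theorem iso1 {N : Type} [LL.Structure N] (h : Ax N) {x y z : N} (hxy : same x y) (hyz : same y z)
    (h1 : x ≠ y) (h2 : y ≠ z) (hlt : lt (d x y) (d y z)) : x ≠ z ∧ d x z = d x y := by
  have h3 : x ≠ z := by
    rintro rfl
    rw [h.d_symm x y hxy] at hlt
    exact h.irrefl _ hlt
  refine ⟨h3, ?_⟩
  rcases iso_cases h hxy hyz h1 h2 h3 with ⟨k1, _⟩ | ⟨_, k2⟩ | ⟨k1, _⟩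
  · exact k1
  · exact absurd hlt k2
  · rw [k1] at hlt
    exact absurd hlt (h.irrefl _)

/--  2 -/
theorem iso2 {N : Type} [LL.Structure N] (h : Ax N) {x y z : N} (hxy : same x y) (hyz : same y z)
    (h1 : x ≠ y) (h2 : y ≠ z) (h3 : x ≠ z) (g : N) (hg : ¬ lt (d x y) g) (hg' : ¬ lt (d y z) g) :
    ¬ lt (d x z) g := by
  intro hlt
  rcases iso_cases h hxy hyz h1 h2 h3 with ⟨k1, _⟩ | ⟨k1, _⟩ | ⟨_, k2⟩
  · rw [k1] at hlt
    exact hg hlt
  · rw [k1] at hlt
    exact hg' hlt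
  · by_cases he : d x z = d x y
    · rw [he] at hlt
      exact hg hlt
    · rcases h.total _ _ he with k3 | k3
      · exact k2 k3
      · exact hg (h.trans _ _ _ k3 hlt)

end Pool.Agent.H726T
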