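import Pool.Agent.H726T.AxS
import Pool.Agent.H726T.Iso
import Pool.Agent.H726T.ExtOne

set_option autoImplicit false

open FirstOrder FirstOrder.Language FirstOrder.Language.Structure

namespace Pool.Agent.H726T

section codeOne

set_option linter.unusedSectionVars false

variable {N : Type} [LL.Structure N]

/-- the same cut over `B` -/
def codeOne_ceq (B : Finset N) (y y' : N) : Prop :=
  ∀ b ∈ B, (lt b y ↔ lt b y') ∧ (lt y b ↔ lt y' b)

open Classical in
/-- code of the cut of an element over `B` -/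
noncomputable def codeOne_cut (B : Finset N) (y : N) : Fin (B.card + 1) × Bool :=
  (⟨(B.filter (fun b => lt b y)).card, Nat.lt_succ_of_le (Finset.card_filter_le _ _)⟩,
    decide (y ∈ B))

theorem codeOne_asymm (h : Ax N) {x y : N} (h1 : lt x y) (h2 : lt y x) : False :=
  h.irrefl x (h.trans x y x h1 h2)

theorem codeOne_cut_ceq (h : Ax N) {B : Finset N} {y y' : N}
    (hc : codeOne_cut B y = codeOne_cut B y') : codeOne_ceq B y y' := by
  classical
  have h1 : (B.filter (fun b => lt b y)).card = (B.filter (fun b => lt b y')).card := by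
    have h0 := congrArg (fun p : Fin (B.card + 1) × Bool => (p.1 : ℕ)) hc
    simp only [codeOne_cut] at h0
    convert h0
  have h2 : (y ∈ B ↔ y' ∈ B) := by
    have h0 := congrArg Prod.snd hc
    simp only [codeOne_cut] at h0
    constructor
    · intro hy
      by_contra hy'
      rw [decide_eq_true hy, decide_eq_false hy'] at h0
      cases h0
    · intro hy
      by_contra hy'
      rw [decide_eq_true hy, decide_eq_false hy'] at h0
      cases h0
  have key : ∀ b ∈ B, (lt b y ↔ lt b y') := by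
    have sub : ∀ u v : N, lt u v → B.filter (fun b => lt b u) ⊆ B.filter (fun b => lt b v) := by
      intro u v huv b hb
      rw [Finset.mem_filter] at hb ⊢
      exact ⟨hb.1, h.trans _ _ _ hb.2 huv⟩
    have heq : B.filter (fun b => lt b y) = B.filter (fun b => lt b y') := by
      by_cases hyy : y = y'
      · rw [hyy]
      · rcases h.total y y' hyy with h3 | h3
        · exact Finset.eq_of_subset_of_card_le (sub _ _ h3) h1.ge
        · exact (Finset.eq_of_subset_of_card_le (sub _ _ h3) h1.le).symm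
    intro b hb
    have h4 : b ∈ B.filter (fun b => lt b y) ↔ b ∈ B.filter (fun b => lt b y') := by rw [heq]
    rw [Finset.mem_filter, Finset.mem_filter] at h4
    tauto
  have half : ∀ u u' : N, (∀ b ∈ B, (lt b u ↔ lt b u')) → (u ∈ B ↔ u' ∈ B) →
      ∀ b ∈ B, lt u b → lt u' b := by
    intro u u' hk hu b hb hub
    by_cases e : u' = b
    · subst e
      have h5 : u ∈ B := hu.2 hb
      exact absurd ((hk u h5).2 hub) (h.irrefl u)
    · rcases h.total u' b e with h3 | h3
      · exact h3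
      · exact (codeOne_asymm h ((hk b hb).2 h3) hub).elim
  intro b hb
  exact ⟨key b hb, half y y' key h2 b hb, half y' y (fun b hb => (key b hb).symm) h2.symm b hb⟩

theorem codeOne_cut_mem (h : Ax N) {B : Finset N} {y y' : N}
    (hc : codeOne_cut B y = codeOne_cut B y') (hy : y ∈ B) : y = y' := by
  by_contra hne
  obtain ⟨h1, h2⟩ := codeOne_cut_ceq h hc y hy
  rcases h.total y y' hne with h3 | h3
  · exact h.irrefl y (h1.2 h3)
  · exact h.irrefl y (h2.2 h3)

/-- `a` is a nearest element of `B` -/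
def codeOne_isNear (B : Finset N) (y a : N) : Prop :=
  a ∈ B ∧ same y a ∧ ∀ b ∈ B, same y b → ¬ lt (d y a) (d y b)

open Classical in
/-- a nearest element of `B` -/
noncomputable def codeOne_near (B : Finset N) (y : N) : Option B :=
  if h : ∃ a : B, codeOne_isNear B y a then some h.choose else none

theorem codeOne_near_some {B : Finset N} {y : N} {a : B} (hn : codeOne_near B y = some a) :
    codeOne_isNear B y a := by
  unfold codeOne_near at hn
  split_ifs at hn with h
  have h1 : h.choose = a := Option.some.inj hn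
  rw [← h1]
  exact h.choose_spec

theorem codeOne_exmax (h : Ax N) (T : Finset N) (f : N → N) (hT : T.Nonempty) :
    ∃ a ∈ T, ∀ b ∈ T, ¬ lt (f a) (f b) := by
  classical
  induction hT using Finset.Nonempty.cons_induction with
  | singleton a =>
    refine ⟨a, Finset.mem_singleton_self a, ?_⟩
    intro b hb
    rw [Finset.mem_singleton] at hb
    subst hb
    exact h.irrefl _
  | cons a s ha hs ih =>
    obtain ⟨m, hm, hmax⟩ := ih
    by_cases hlt : lt (f m) (f a)
    · refine ⟨a, Finset.mem_cons_self a s, ?_⟩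
      intro b hb
      rw [Finset.mem_cons] at hb
      rcases hb with rfl | hb
      · exact h.irrefl _
      · intro h2
        exact hmax b hb (h.trans _ _ _ hlt h2)
    · refine ⟨m, Finset.mem_cons_of_mem hm, ?_⟩
      intro b hb
      rw [Finset.mem_cons] at hb
      rcases hb with rfl | hb
      · exact hlt
      · exact hmax b hb

theorem codeOne_near_none (h : Ax N) {B : Finset N} {y : N} (hn : codeOne_near B y = none) :
    ∀ b ∈ B, ¬ same y b := by
  classical
  intro b hb hs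
  obtain ⟨a, ha, hmax⟩ := codeOne_exmax h (B.filter (fun b => same y b)) (fun b => d y b)
    ⟨b, Finset.mem_filter.2 ⟨hb, hs⟩⟩
  rw [Finset.mem_filter] at ha
  have hex : ∃ a : B, codeOne_isNear B y a :=
    ⟨⟨a, ha.1⟩, ha.1, ha.2, fun b hb hs => hmax b (Finset.mem_filter.2 ⟨hb, hs⟩)⟩
  unfold codeOne_near at hn
  rw [dif_pos hex] at hn
  cases hn

/-- the distance to the nearest element -/
noncomputable def codeOne_low (B : Finset N) (y : N) : N :=
  match codeOne_near B y with
  | some a => d y a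
  | none => y

theorem codeOne_low_some {B : Finset N} {y : N} {a : B} (hn : codeOne_near B y = some a) :
    codeOne_low B y = d y a := by
  unfold codeOne_low
  rw [hn]

theorem codeOne_same_symm {x y : N} (hxy : same x y) : same y x := by
  rcases hxy with ⟨p, q⟩ | ⟨p, q⟩
  · exact Or.inl ⟨q, p⟩
  · exact Or.inr ⟨q, p⟩

theorem codeOne_same_trans (h : Ax N) {x y z : N} (hxy : same x y) (hyz : same y z) :
    same x z := by
  rcases hxy with ⟨p, q⟩ | ⟨p, q⟩ <;> rcases hyz with ⟨r, s⟩ | ⟨r, s⟩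
  · exact Or.inl ⟨p, s⟩
  · exact (h.gk y ⟨q, r⟩).elim
  · exact (h.gk y ⟨r, q⟩).elim
  · exact Or.inr ⟨p, s⟩

theorem codeOne_dist1 (h : Ax N) {B : Finset N} {y a b : N} (hn : codeOne_isNear B y a)
    (hy : y ∉ B) (hyb : same y b) (hba : b ≠ a) (hl : lt (d a b) (d y a)) : d y b = d a b := by
  obtain ⟨ha, hs, hmax⟩ := hn
  have hya : y ≠ a := fun e => hy (e ▸ ha)
  have hsab : same a b := codeOne_same_trans h (codeOne_same_symm hs) hyb
  have e1 : d a b = d b a := h.d_symm _ _ hsab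
  have e2 : d y a = d a y := h.d_symm _ _ hs
  have e3 : d y b = d b y := h.d_symm _ _ hyb
  rw [e1, e2] at hl
  have h5 := iso1 h (codeOne_same_symm hsab) (codeOne_same_symm hs) hba hya.symm hl
  rw [e3, e1]
  exact h5.2

theorem codeOne_dist2 (h : Ax N) {B : Finset N} {y a b : N} (hn : codeOne_isNear B y a)
    (hy : y ∉ B) (hb : b ∈ B) (hyb : same y b) (hba : b ≠ a) (hl : ¬ lt (d a b) (d y a)) :
    d y b = d y a := by
  obtain ⟨ha, hs, hmax⟩ := hn
  have hya : y ≠ a := fun e => hy (e ▸ ha)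
  have hyb' : y ≠ b := fun e => hy (e ▸ hb)
  have hsab : same a b := codeOne_same_trans h (codeOne_same_symm hs) hyb
  have h5 := iso2 h hs hsab hya (Ne.symm hba) hyb' (d y a) (h.irrefl _) hl
  have h6 := hmax b hb hyb
  by_contra hne
  rcases h.total _ _ hne with h7 | h7
  · exact h5 h7
  · exact h6 h7

theorem codeOne_step (h : Ax N) {B : Finset N} (hB : ∀ x ∈ B, ∀ y ∈ B, d x y ∈ B) {y y' a : N}
    (hG : isG y ↔ isG y') (hK : isK y ↔ isK y') (hy : y ∉ B) (hy' : y' ∉ B)
    (hc : codeOne_ceq B y y') (hn : codeOne_isNear B y a) (hn' : codeOne_isNear B y' a)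
    (hc1 : codeOne_ceq B (d y a) (d y' a))
    {R : N → N → Prop} (hR : PI R) (hRB : ∀ b ∈ B, R b b) (hRg : R (d y a) (d y' a))
    (hlow : ∀ u u', R u u' → (u = u' ∧ u ∈ B) ∨ (lt u y ∧ lt u' y' ∧ ¬ same y u)) :
    PI (fun u u' => R u u' ∨ (u = y ∧ u' = y')) := by
  refine extOne h h hR y y' hG hK ?_ ?_ ?_
  · intro u u' hu
    rcases hlow u u' hu with ⟨rfl, hb⟩ | ⟨h1, h2, _⟩
    · exact (hc u hb).1
    · exact ⟨fun _ => h2, fun _ => h1⟩
  · intro u u' hu
    rcases hlow u u' hu with ⟨rfl, hb⟩ | ⟨h1, h2, _⟩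
    · exact (hc u hb).2
    · exact ⟨fun h3 => (codeOne_asymm h h1 h3).elim, fun h3 => (codeOne_asymm h h2 h3).elim⟩
  · intro u u' hu hs hne
    rcases hlow u u' hu with ⟨rfl, hb⟩ | ⟨h1, h2, h3⟩
    · have hs' : same y' u := by
        rcases hs with ⟨p, q⟩ | ⟨p, q⟩
        · exact Or.inl ⟨hG.1 p, q⟩
        · exact Or.inr ⟨hK.1 p, q⟩
      have hab : d a u ∈ B := hB a hn.1 u hb
      by_cases hua : u = a
      · subst hua
        exact hRg
      · by_cases hl : lt (d a u) (d y a)
        · have hl' : lt (d a u) (d y' a) := (hc1 _ hab).1.1 hl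
          rw [codeOne_dist1 h hn hy hs hua hl, codeOne_dist1 h hn' hy' hs' hua hl']
          exact hRB _ hab
        · have hl' : ¬ lt (d a u) (d y' a) := fun h5 => hl ((hc1 _ hab).1.2 h5)
          rw [codeOne_dist2 h hn hy hb hs hua hl, codeOne_dist2 h hn' hy' hb hs' hua hl']
          exact hRg
    · exact absurd hs h3

theorem codeOne_id {B : Finset N} (hB : ∀ x ∈ B, ∀ y ∈ B, d x y ∈ B) :
    PI (fun u u' : N => u = u' ∧ u ∈ B) where
  lt := by
    rintro x _ y _ ⟨rfl, _⟩ ⟨rfl, _⟩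
    exact Iff.rfl
  isG := by
    rintro x _ ⟨rfl, _⟩
    exact Iff.rfl
  isK := by
    rintro x _ ⟨rfl, _⟩
    exact Iff.rfl
  d := by
    rintro x _ y _ ⟨rfl, hx⟩ ⟨rfl, hy⟩
    exact ⟨rfl, hB x hx y hy⟩

theorem codeOne_fin_id (B : Finset N) : {p : N × N | p.1 = p.2 ∧ p.1 ∈ B}.Finite := by
  classical
  refine Set.Finite.subset (Finset.finite_toSet (B ×ˢ B)) ?_
  rintro ⟨u, u'⟩ ⟨h1, h2⟩
  simp only at h1 h2
  subst h1
  simpa using h2

theorem codeOne_fin_ins {R : N → N → Prop} (hR : {p : N × N | R p.1 p.2}.Finite) (y y' : N) :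
    {p : N × N | R p.1 p.2 ∨ (p.1 = y ∧ p.2 = y')}.Finite := by
  refine Set.Finite.subset (hR.union (Set.finite_singleton (y, y'))) ?_
  rintro ⟨u, u'⟩ (h1 | ⟨h1, h2⟩)
  · exact Or.inl h1
  · simp only at h1 h2
    subst h1
    subst h2
    exact Or.inr rfl

theorem codeOne_nonear (h : Ax N) {B : Finset N} (hB : ∀ x ∈ B, ∀ y ∈ B, d x y ∈ B) {y y' : N}
    (hG : isG y ↔ isG y') (hK : isK y ↔ isK y') (hc : codeOne_ceq B y y')
    (hno : ∀ b ∈ B, ¬ same y b) :
    PI (fun u u' => (u = u' ∧ u ∈ B) ∨ (u = y ∧ u' = y')) := by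
  refine extOne h h (codeOne_id hB) y y' hG hK ?_ ?_ ?_
  · rintro u _ ⟨rfl, hb⟩
    exact (hc u hb).1
  · rintro u _ ⟨rfl, hb⟩
    exact (hc u hb).2
  · rintro u _ ⟨rfl, hb⟩ hs
    exact absurd hs (hno u hb)

theorem codeOne_E (h : Ax N) {B : Finset N} (hB : ∀ x ∈ B, ∀ y ∈ B, d x y ∈ B) {y y' : N}
    (hE : isE y) (hE' : isE y') (hc : codeOne_ceq B y y') :
    PI (fun u u' => (u = u' ∧ u ∈ B) ∨ (u = y ∧ u' = y')) := by
  refine codeOne_nonear h hB ?_ ?_ hc ?_
  · exact ⟨fun h1 => absurd h1 hE.1, fun h1 => absurd h1 hE'.1⟩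
  · exact ⟨fun h1 => absurd h1 hE.2, fun h1 => absurd h1 hE'.2⟩
  · rintro b _ (⟨p, _⟩ | ⟨p, _⟩)
    · exact hE.1 p
    · exact hE.2 p

theorem codeOne_G (h : Ax N) {B : Finset N} (hB : ∀ x ∈ B, ∀ y ∈ B, d x y ∈ B) {y y' : N}
    (hy : isG y) (hy' : isG y') (hc : codeOne_cut B y = codeOne_cut B y')
    (hn : codeOne_near B y = codeOne_near B y')
    (hl : codeOne_cut B (codeOne_low B y) = codeOne_cut B (codeOne_low B y')) :
    ∃ R : N → N → Prop, PI R ∧ {p : N × N | R p.1 p.2}.Finite ∧ (∀ b ∈ B, R b b) ∧ R y y' ∧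
      ∀ u u', R u u' → (u = u' ∧ u ∈ B) ∨ (¬ isK u ∧ ¬ isK u') := by
  by_cases hyB : y ∈ B
  · have e : y = y' := codeOne_cut_mem h hc hyB
    subst e
    exact ⟨_, codeOne_id hB, codeOne_fin_id B, fun b hb => ⟨rfl, hb⟩, ⟨rfl, hyB⟩,
      fun u u' hu => Or.inl hu⟩
  · have hyB' : y' ∉ B := fun h' => hyB (codeOne_cut_mem h hc.symm h' ▸ h')
    have hG : isG y ↔ isG y' := ⟨fun _ => hy', fun _ => hy⟩
    have hKy : ¬ isK y := fun hk => h.gk y ⟨hy, hk⟩
    have hKy' : ¬ isK y' := fun hk => h.gk y' ⟨hy', hk⟩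
    have hK : isK y ↔ isK y' := ⟨fun h1 => absurd h1 hKy, fun h1 => absurd h1 hKy'⟩
    have hce := codeOne_cut_ceq h hc
    cases hnn : codeOne_near B y with
    | none =>
      refine ⟨_, codeOne_nonear h hB hG hK hce (codeOne_near_none h hnn),
        codeOne_fin_ins (R := fun u u' => u = u' ∧ u ∈ B) (codeOne_fin_id B) y y', fun b hb => Or.inl ⟨rfl, hb⟩,
        Or.inr ⟨rfl, rfl⟩, ?_⟩
      rintro u u' (hu | ⟨rfl, rfl⟩)
      · exact Or.inl hu
      · exact Or.inr ⟨hKy, hKy'⟩
    | some a =>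
      have hnn' : codeOne_near B y' = some a := hn.symm.trans hnn
      have hna := codeOne_near_some hnn
      have hna' := codeOne_near_some hnn'
      rw [codeOne_low_some hnn, codeOne_low_some hnn'] at hl
      have hga : isG (a : N) := by
        rcases hna.2.1 with ⟨_, q⟩ | ⟨p, _⟩
        · exact q
        · exact absurd p hKy
      have hE : isE (d y a) := h.d_G y a hy hga (fun e => hyB (e ▸ hna.1))
      have hE' : isE (d y' a) := h.d_G y' a hy' hga (fun e => hyB' (e ▸ hna.1))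
      have hc1 := codeOne_cut_ceq h hl
      have hR₁ := codeOne_E h hB hE hE' hc1
      refine ⟨_, codeOne_step h hB hG hK hyB hyB' hce hna hna' hc1 hR₁
        (fun b hb => Or.inl ⟨rfl, hb⟩) (Or.inr ⟨rfl, rfl⟩) ?_,
        codeOne_fin_ins (R := fun u u' => (u = u' ∧ u ∈ B) ∨ (u = d y a ∧ u' = d y' a))
          (codeOne_fin_ins (R := fun u u' => u = u' ∧ u ∈ B) (codeOne_fin_id B) _ _) _ _,
        fun b hb => Or.inl (Or.inl ⟨rfl, hb⟩), Or.inr ⟨rfl, rfl⟩, ?_⟩
      · rintro u u' (hu | ⟨rfl, rfl⟩)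
        · exact Or.inl hu
        · refine Or.inr ⟨h.eg _ _ hE hy, h.eg _ _ hE' hy', ?_⟩
          rintro (⟨_, q⟩ | ⟨_, q⟩)
          · exact hE.1 q
          · exact hE.2 q
      · rintro u u' ((hu | ⟨rfl, rfl⟩) | ⟨rfl, rfl⟩)
        · exact Or.inl hu
        · exact Or.inr ⟨hE.2, hE'.2⟩
        · exact Or.inr ⟨hKy, hKy'⟩

theorem codeOne_K (h : Ax N) {B : Finset N} (hB : ∀ x ∈ B, ∀ y ∈ B, d x y ∈ B) {y y' : N}
    (hy : isK y) (hy' : isK y') (hc : codeOne_cut B y = codeOne_cut B y')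
    (hn : codeOne_near B y = codeOne_near B y')
    (hl : codeOne_cut B (codeOne_low B y) = codeOne_cut B (codeOne_low B y'))
    (hn2 : codeOne_near B (codeOne_low B y) = codeOne_near B (codeOne_low B y'))
    (hl2 : codeOne_cut B (codeOne_low B (codeOne_low B y)) =
      codeOne_cut B (codeOne_low B (codeOne_low B y'))) :
    ∃ R : N → N → Prop, PI R ∧ {p : N × N | R p.1 p.2}.Finite ∧ (∀ b ∈ B, R b b) ∧ R y y' := by
  by_cases hyB : y ∈ B
  · have e : y = y' := codeOne_cut_mem h hc hyB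
    subst e
    exact ⟨_, codeOne_id hB, codeOne_fin_id B, fun b hb => ⟨rfl, hb⟩, ⟨rfl, hyB⟩⟩
  · have hyB' : y' ∉ B := fun h' => hyB (codeOne_cut_mem h hc.symm h' ▸ h')
    have hK : isK y ↔ isK y' := ⟨fun _ => hy', fun _ => hy⟩
    have hGy : ¬ isG y := fun hk => h.gk y ⟨hk, hy⟩
    have hGy' : ¬ isG y' := fun hk => h.gk y' ⟨hk, hy'⟩
    have hG : isG y ↔ isG y' := ⟨fun h1 => absurd h1 hGy, fun h1 => absurd h1 hGy'⟩
    have hce := codeOne_cut_ceq h hc
    cases hnn : codeOne_near B y with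
    | none =>
      exact ⟨_, codeOne_nonear h hB hG hK hce (codeOne_near_none h hnn),
        codeOne_fin_ins (R := fun u u' => u = u' ∧ u ∈ B) (codeOne_fin_id B) y y', fun b hb => Or.inl ⟨rfl, hb⟩,
        Or.inr ⟨rfl, rfl⟩⟩
    | some a =>
      have hnn' : codeOne_near B y' = some a := hn.symm.trans hnn
      have hna := codeOne_near_some hnn
      have hna' := codeOne_near_some hnn'
      rw [codeOne_low_some hnn, codeOne_low_some hnn'] at hl hn2 hl2
      have hka : isK (a : N) := by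
        rcases hna.2.1 with ⟨p, _⟩ | ⟨_, q⟩
        · exact absurd p hGy
        · exact q
      have hg : isG (d y a) := h.d_K y a hy hka (fun e => hyB (e ▸ hna.1))
      have hg' : isG (d y' a) := h.d_K y' a hy' hka (fun e => hyB' (e ▸ hna.1))
      have hc1 := codeOne_cut_ceq h hl
      obtain ⟨R, hR, hfin, hRB, hRg, hlow⟩ := codeOne_G h hB hg hg' hl hn2 hl2
      refine ⟨_, codeOne_step h hB hG hK hyB hyB' hce hna hna' hc1 hR hRB hRg ?_,
        codeOne_fin_ins hfin _ _, fun b hb => Or.inl (hRB b hb), Or.inr ⟨rfl, rfl⟩⟩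
      have low : ∀ u v : N, ¬ isK u → isK v → lt u v := by
        intro u v hu hv
        by_cases hgu : isG u
        · exact h.ltgk u v hgu hv
        · exact h.ek u v ⟨hgu, hu⟩ hv
      intro u u' hu
      rcases hlow u u' hu with h1 | ⟨h1, h2⟩
      · exact Or.inl h1
      · refine Or.inr ⟨low _ _ h1 hy, low _ _ h2 hy', ?_⟩
        rintro (⟨p, _⟩ | ⟨_, q⟩)
        · exact hGy p
        · exact h1 q

open Classical in
/-- the sort -/
noncomputable def codeOne_sort (x : N) : Fin 3 := if isG x then 1 else if isK x then 2 else 0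

theorem codeOne_sort_eq (h : Ax N) {x x' : N} (hs : codeOne_sort x = codeOne_sort x') :
    (isG x ↔ isG x') ∧ (isK x ↔ isK x') := by
  have g1 := h.gk x
  have g2 := h.gk x'
  unfold codeOne_sort at hs
  by_cases a1 : isG x <;> by_cases a2 : isK x <;> by_cases a3 : isG x' <;>
    by_cases a4 : isK x' <;> simp_all

/-- the code -/
noncomputable def codeOne_code (B : Finset N) (x : N) :
    Fin 3 × (Fin (B.card + 1) × Bool) × Option B × (Fin (B.card + 1) × Bool) × Option B ×
      (Fin (B.card + 1) × Bool) :=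
  (codeOne_sort x, codeOne_cut B x, codeOne_near B x, codeOne_cut B (codeOne_low B x),
    codeOne_near B (codeOne_low B x), codeOne_cut B (codeOne_low B (codeOne_low B x)))

theorem codeOne_gen (h : Ax N) (B : Finset N) (hB : ∀ x ∈ B, ∀ y ∈ B, d x y ∈ B) {x x' : N}
    (hc : codeOne_code B x = codeOne_code B x') :
    ∃ R : N → N → Prop, PI R ∧ {p : N × N | R p.1 p.2}.Finite ∧ (∀ b ∈ B, R b b) ∧ R x x' := by
  simp only [codeOne_code, Prod.mk.injEq] at hc
  obtain ⟨h1, h2, h3, h4, h5, h6⟩ := hc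
  obtain ⟨hG, hK⟩ := codeOne_sort_eq h h1
  by_cases hg : isG x
  · obtain ⟨R, r1, r2, r3, r4, -⟩ := codeOne_G h hB hg (hG.1 hg) h2 h3 h4
    exact ⟨R, r1, r2, r3, r4⟩
  · by_cases hk : isK x
    · exact codeOne_K h hB hk (hK.1 hk) h2 h3 h4 h5 h6
    · exact ⟨_, codeOne_E h hB ⟨hg, hk⟩ ⟨fun a => hg (hG.2 a), fun a => hk (hK.2 a)⟩
        (codeOne_cut_ceq h h2), codeOne_fin_ins (R := fun u u' => u = u' ∧ u ∈ B) (codeOne_fin_id B) x x',
        fun b hb => Or.inl ⟨rfl, hb⟩, Or.inr ⟨rfl, rfl⟩⟩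

theorem codeOne_embed (n : ℕ) (B : Finset N) (hn : B.card = n) :
    Nonempty ((Fin 3 × (Fin (B.card + 1) × Bool) × Option B × (Fin (B.card + 1) × Bool) ×
      Option B × (Fin (B.card + 1) × Bool)) ↪ Fin ((B.card + 24) ^ 6)) := by
  classical
  apply Function.Embedding.nonempty_of_card_le
  simp only [Fintype.card_prod, Fintype.card_fin, Fintype.card_option, Fintype.card_coe,
    Fintype.card_bool]
  rw [hn]
  calc 3 * ((n + 1) * 2 * ((n + 1) * ((n + 1) * 2 * ((n + 1) * ((n + 1) * 2)))))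
      = 24 * (n + 1) ^ 5 := by ring
    _ ≤ (n + 24) * (n + 24) ^ 5 :=
        Nat.mul_le_mul (by omega) (Nat.pow_le_pow_left (by omega) 5)
    _ = (n + 24) ^ 6 := by ring

end codeOne

/-- counting one-types over a closed set.  Work in `S` (`axS : Ax S`), classical.  For `y : S` let `cut y : Option B × Bool` be the greatest `b ∈ B` with `¬ lt y b` (i.e. `b ≤ y`; `none` if there is none), and whether `y ∈ B`.  If `cut y = cut y'` then for all `b ∈ B`:
`lt b y ↔ lt b y'` and `lt y b ↔ lt y' b`, `y ∈ B ↔ y' ∈ B`, and `y = y'` if `y ∈ B`.  For `y` in `G` or `K` let `near y : Option B` be some `a ∈ B` with `same y a` and `d y a` maximal (`none` if no `a ∈ B` is of the same sort).  Code of `x`: the sort of `x` (`Fin 3`), `cut x`, `near x`, `cut (d x a)` for `a = near x`, `near (d x a)`,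
`cut (d (d x a) g)` for `g = near (d x a)` (with `d x a := x` etc. if there is no `near`).  Number of codes `≤ 3 * (2 (N+1))^3 * (N+1)^2 = 24 (N+1)^5 ≤ (N+24)^6`, `N = B.card`; so compose with an injection of this finite type into `Fin ((N+24)^6)` (`Fintype.card_le`.. / `Function.Embedding.nonempty_of_card_le`).
Same code implies the existence of `R`: let `id_B := fun u u' => u = u' ∧ u ∈ B`.  If `x ∈ B` then `x' = x` and `R = id_B`.  Otherwise, by `extOne`: (E) `x ∈ E`: `id_B ∪ {(x,x')}`.  (step) `x ∈ G` (resp. `K`): if no `near`, `id_B ∪ {(x,x')}`; else `a = near x = near x'`, `g := d x a`, `g' := d x' a` have the same code of the lower sort, so there is a finite `PI`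
`R₁ ⊇ id_B` with `R₁ g g'`, whose other pairs outside `id_B` are of lower sort than `x` (prove the statement by sorts with this addition; for `g ∈ E` only `cut g` is needed, for `g ∈ G` `cut g`, `near g`, `cut (d g (near g))`).  For `b ∈ B` with `same x b`, `b ≠ a`: `¬ lt g (d x b)` (maximality) and, with `d a b ∈ B`:
`d x b = g` iff `¬ lt (d a b) g` (if `d a b < g` then `d x b = d a b`; otherwise `d x b ≥ g`, `iso1`, `iso2`), the same for `x'`, `g'`, and `lt (d a b) g ↔ lt (d a b) g'`; so `R₁ (d x b) (d x' b)` and `extOne` gives `R₁ ∪ {(x,x')}`. -/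
theorem codeOne (B : Finset S) (hB : ∀ x ∈ B, ∀ y ∈ B, d x y ∈ B) :
    ∃ c : S → Fin ((B.card + 24) ^ 6), ∀ x x', c x = c x' →
      ∃ R : S → S → Prop, PI R ∧ {p : S × S | R p.1 p.2}.Finite ∧ (∀ b ∈ B, R b b) ∧ R x x' := by
  obtain ⟨f⟩ := codeOne_embed B.card B rfl
  refine ⟨fun x => f (codeOne_code B x), ?_⟩
  intro x x' hc
  exact codeOne_gen axS B hB (f.injective hc)

end Pool.Agent.H726T
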