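import Pool.Agent.H726T.AxS

set_option autoImplicit false

open FirstOrder FirstOrder.Language FirstOrder.Language.Structure

namespace Pool.Agent.H726T

theorem seqS_dl {A : Type} [LinearOrder A] [Inhabited A] (x y : A →₀ ℚ) (a : A)
    (h1 : ∀ b, b < a → x b = y b) (h2 : x a ≠ y a) : dl x y = a := by
  have hm : a ∈ x.neLocus y := by rw [Finsupp.mem_neLocus]; exact h2
  have hne : (x.neLocus y).Nonempty := ⟨a, hm⟩
  rw [dl, dif_pos hne]
  apply le_antisymm
  · exact Finset.min'_le _ _ hm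
  · apply Finset.le_min'
    intro b hb
    rw [Finsupp.mem_neLocus] at hb
    by_contra hlt
    exact hb (h1 b (not_le.1 hlt))

theorem seqS_dl_le {A : Type} [LinearOrder A] [Inhabited A] (x y : A →₀ ℚ) (a : A)
    (h2 : x a ≠ y a) : dl x y ≤ a := by
  have hm : a ∈ x.neLocus y := by rw [Finsupp.mem_neLocus]; exact h2
  have hne : (x.neLocus y).Nonempty := ⟨a, hm⟩
  rw [dl, dif_pos hne]
  exact Finset.min'_le _ _ hm

theorem seqS_gm {n m : ℕ} (h : n < m) : gm n < gm m := by
  have h0 : (n : ℚ) < m := by exact_mod_cast h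
  rw [gm, gm, Finsupp.Lex.lt_iff]
  refine ⟨-(m : ℚ), ?_, ?_⟩
  · intro j hj
    simp only [ofLex_toLex]
    rw [Finsupp.single_apply, Finsupp.single_apply, if_neg, if_neg]
    · intro h1; linarith
    · intro h1; linarith
  · simp only [ofLex_toLex]
    rw [Finsupp.single_apply, Finsupp.single_apply, if_neg, if_pos rfl]
    · norm_num
    · intro h1; linarith

theorem seqS_gm_inj {n m : ℕ} (h : gm n = gm m) : n = m := by
  rcases lt_trichotomy n m with h1 | h1 | h1
  · exact absurd h (seqS_gm h1).ne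
  · exact h1
  · exact absurd h (seqS_gm h1).ne'

theorem seqS_ffval (n : ℕ) (c : GG) :
    (∑ i ∈ Finset.range n, Finsupp.single (gm i) (1 : ℚ)) c =
      ∑ i ∈ Finset.range n, (Finsupp.single (gm i) (1 : ℚ)) c := by
  rw [Finsupp.finsetSum_apply]

theorem seqS_ff_at (n i : ℕ) :
    (∑ j ∈ Finset.range n, Finsupp.single (gm j) (1 : ℚ)) (gm i) = if i < n then 1 else 0 := by
  rw [seqS_ffval]
  by_cases h : i < n
  · rw [if_pos h, Finset.sum_eq_single i]
    · simp
    · intro b _ hb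
      rw [Finsupp.single_apply, if_neg]
      intro hc
      exact hb (seqS_gm_inj hc)
    · intro hn
      exact absurd (Finset.mem_range.2 h) hn
  · rw [if_neg h]
    apply Finset.sum_eq_zero
    intro b hb
    rw [Finsupp.single_apply, if_neg]
    intro hc
    have := seqS_gm_inj hc
    rw [Finset.mem_range] at hb
    omega

theorem seqS_ff_below (n m : ℕ) (h : n < m) (c : GG) (hc : c < gm n) :
    (∑ j ∈ Finset.range n, Finsupp.single (gm j) (1 : ℚ)) c =
      (∑ j ∈ Finset.range m, Finsupp.single (gm j) (1 : ℚ)) c := by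
  rw [seqS_ffval, seqS_ffval]
  apply Finset.sum_subset
  · intro x hx
    rw [Finset.mem_range] at hx ⊢
    omega
  · intro x _ hx2
    rw [Finset.mem_range] at hx2
    rw [Finsupp.single_apply, if_neg]
    intro hcx
    rcases Nat.lt_or_ge n x with h3 | h3
    · exact absurd (hcx ▸ hc) (not_lt.2 (seqS_gm h3).le)
    · have : x = n := by omega
      subst this
      exact absurd (hcx ▸ hc) (lt_irrefl _)

theorem seqS_dff (n m : ℕ) (h : n < m) : d (ff n) (ff m) = gam n := by
  have hdl : dl (∑ j ∈ Finset.range n, Finsupp.single (gm j) (1 : ℚ))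
      (∑ j ∈ Finset.range m, Finsupp.single (gm j) (1 : ℚ)) = gm n := by
    apply seqS_dl
    · intro b hb
      exact seqS_ff_below n m h b hb
    · rw [seqS_ff_at, seqS_ff_at, if_neg (lt_irrefl _), if_pos h]
      norm_num
  have hne : toLex (∑ j ∈ Finset.range n, Finsupp.single (gm j) (1 : ℚ)) ≠
      toLex (∑ j ∈ Finset.range m, Finsupp.single (gm j) (1 : ℚ)) := by
    intro he
    have h2 := congrArg (fun f : KK => (ofLex f) (gm n)) he
    simp only [ofLex_toLex] at h2
    rw [seqS_ff_at, seqS_ff_at, if_neg (lt_irrefl _), if_pos h] at h2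
    norm_num at h2
  rw [d_S, ff, ff, dS, if_neg hne, gam]
  simp only [ofLex_toLex]
  rw [hdl]

theorem seqS_dgam (n m : ℕ) (h : n < m) : d (gam n) (gam m) = eps m := by
  have hc : (n : ℚ) < m := by exact_mod_cast h
  have hdl : dl (Finsupp.single (-(n : ℚ)) (1 : ℚ)) (Finsupp.single (-(m : ℚ)) (1 : ℚ)) =
      -(m : ℚ) := by
    apply seqS_dl
    · intro b hb
      rw [Finsupp.single_apply, Finsupp.single_apply, if_neg, if_neg]
      · intro h1; linarith
      · intro h1; linarith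
    · rw [Finsupp.single_apply, Finsupp.single_apply, if_neg, if_pos rfl]
      · norm_num
      · intro h1; linarith
  rw [d_S, gam, gam, dS, if_neg (seqS_gm h).ne, eps, gm, gm]
  simp only [ofLex_toLex]
  rw [hdl]

theorem seqS_K (m : S) (hm : isK m) : ∃ n, lt (d m (ff n)) (gam n) := by
  obtain ⟨k, rfl⟩ := (isK_S m).1 hm
  -- some `gm i` outside the support
  have hinj : Function.Injective gm := fun a b h => seqS_gm_inj h
  obtain ⟨i, hi⟩ : ∃ i, gm i ∉ (ofLex k).support := by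
    by_contra hcon
    push Not at hcon
    have hfin : (Set.range gm).Finite := by
      apply Set.Finite.subset (ofLex k).support.finite_toSet
      rintro _ ⟨i, rfl⟩
      exact hcon i
    exact Set.infinite_range_of_injective hinj hfin
  have hi0 : (ofLex k) (gm i) = 0 := by
    rwa [Finsupp.notMem_support_iff] at hi
  refine ⟨i + 1, ?_⟩
  have hv : (∑ j ∈ Finset.range (i+1), Finsupp.single (gm j) (1 : ℚ)) (gm i) = 1 := by
    rw [seqS_ff_at, if_pos (Nat.lt_succ_self i)]
  have hne : k ≠ toLex (∑ j ∈ Finset.range (i+1), Finsupp.single (gm j) (1 : ℚ)) := by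
    intro he
    have h2 := congrArg (fun f : KK => (ofLex f) (gm i)) he
    simp only [ofLex_toLex] at h2
    rw [hi0, hv] at h2
    norm_num at h2
  rw [d_S, ff, dS, if_neg hne, gam, lt_S]
  show dl _ _ < gm (i+1)
  refine lt_of_le_of_lt (seqS_dl_le _ _ (gm i) ?_) (seqS_gm (Nat.lt_succ_self i))
  rw [ofLex_toLex, hi0, hv]
  norm_num

theorem seqS_G (m : S) (hm : isG m) : ∃ n, lt m (gam n) := by
  obtain ⟨g, rfl⟩ := (isG_S m).1 hm
  obtain ⟨B, hB⟩ : ∃ B : ℚ, ∀ q ∈ (ofLex g).support, B ≤ q := by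
    obtain ⟨B, hB⟩ := ((ofLex g).support : Set ℚ).toFinite.bddBelow
    exact ⟨B, fun q hq => hB hq⟩
  obtain ⟨n, hn⟩ := exists_nat_gt (-B)
  refine ⟨n, ?_⟩
  rw [lt_S, gam]
  show g < gm n
  rw [Finsupp.Lex.lt_iff]
  have hz : ∀ q, q ≤ -(n : ℚ) → (ofLex g) q = 0 := by
    intro q hq
    by_contra hne
    have := hB q (Finsupp.mem_support_iff.2 hne)
    linarith
  refine ⟨-(n : ℚ), ?_, ?_⟩
  · intro j hj
    rw [hz j hj.le, gm, ofLex_toLex, Finsupp.single_apply, if_neg]
    intro h1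
    exact hj.ne h1.symm
  · rw [hz _ le_rfl, gm, ofLex_toLex, Finsupp.single_apply, if_pos rfl]
    norm_num

theorem seqS_E (m : S) (hm : isE m) : ∃ n, lt (eps n) m := by
  rcases m with a | g | k
  · obtain ⟨n, hn⟩ := exists_nat_gt (-a)
    refine ⟨n, ?_⟩
    rw [lt_S, eps]
    show -(n : ℚ) < a
    linarith
  · exact absurd ((isG_S _).2 ⟨g, rfl⟩) hm.1
  · exact absurd ((isK_S _).2 ⟨k, rfl⟩) hm.2

theorem seqS_gg (n : ℕ) (e : ℚ) : lt (gam n) (gg n e) ∧ d (gam n) (gg n e) = S.e e := by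
  have hlow : ∀ b, b ≠ e → (Finsupp.single (-(n : ℚ)) (1 : ℚ)) b =
      (Finsupp.single (-(n : ℚ)) (1 : ℚ) + Finsupp.single e (1 : ℚ)) b := by
    intro b hb
    rw [Finsupp.add_apply, Finsupp.single_apply (a := e), if_neg (Ne.symm hb), add_zero]
  have he : (Finsupp.single (-(n : ℚ)) (1 : ℚ)) e <
      (Finsupp.single (-(n : ℚ)) (1 : ℚ) + Finsupp.single e (1 : ℚ)) e := by
    rw [Finsupp.add_apply, Finsupp.single_apply (a := e), if_pos rfl]
    linarith
  have hlt : gm n < toLex (Finsupp.single (-(n : ℚ)) (1 : ℚ) + Finsupp.single e (1 : ℚ)) := by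
    rw [Finsupp.Lex.lt_iff]
    exact ⟨e, fun j hj => hlow j hj.ne, he⟩
  constructor
  · rw [lt_S, gam, gg]
    exact hlt
  · rw [d_S, gam, gg, dS, if_neg hlt.ne, gm]
    simp only [ofLex_toLex]
    rw [seqS_dl _ _ e (fun b hb => hlow b hb.ne) he.ne]

theorem seqS : (∀ n m, n < m → lt (gam n) (gam m) ∧ lt (eps m) (eps n) ∧ d (ff n) (ff m) = gam n ∧
      d (gam n) (gam m) = eps m) ∧
    (∀ m : S, isK m → ∃ n, lt (d m (ff n)) (gam n)) ∧ (∀ m : S, isG m → ∃ n, lt m (gam n)) ∧
    (∀ m : S, isE m → ∃ n, lt (eps n) m) ∧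
    (∀ n e, lt (gam n) (gg n e) ∧ d (gam n) (gg n e) = S.e e) := by
  refine ⟨fun n m h => ⟨?_, ?_, seqS_dff n m h, seqS_dgam n m h⟩, seqS_K, seqS_G, seqS_E, seqS_gg⟩
  · rw [lt_S, gam, gam]
    exact seqS_gm h
  · rw [lt_S, eps, eps]
    show -(m : ℚ) < -(n : ℚ)
    have : (n : ℚ) < m := by exact_mod_cast h
    linarith

end Pool.Agent.H726T
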