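import Pool.Agent.H726T.CoheirFacts
import Pool.Agent.H726T.AxN
import Pool.Agent.H726T.Iso
import Pool.Agent.H726T.SeqS

set_option autoImplicit false

open FirstOrder FirstOrder.Language FirstOrder.Language.Structure Cardinal
open Pool.Agent.Y562.NWO

namespace Pool.Agent.H726T

theorem coheirFS_sat {U : Type} [LL.Structure U] (j : S ↪ₑ[LL] U)
    {r : Set (LL.Formula (Fin 2 ⊕ U))} (hr : IsCoheir j qT r) {N : Type} [LL.Structure N]
    (k : U ↪ₑ[LL] N) (b : Fin 2 → N) (hb : tp k b = r) (φ : LL.Formula (Fin 2 ⊕ U))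
    (h : φ.Realize (Sum.elim b k)) :
    ∃ m : Fin 2 → S, φ.Realize (Sum.elim (fun i => j (m i)) id) := by
  refine hr.2.2 φ ?_
  rw [← hb]
  exact h

theorem coheirFS_isG_gam (n : ℕ) : isG (gam n) := ⟨_, rfl⟩

theorem coheirFS_isK_ff (n : ℕ) : isK (ff n) := ⟨_, rfl⟩

theorem coheirFS_dist {U : Type} [LL.Structure U] (j : S ↪ₑ[LL] U) (u : U) (hu : Br j u) (f : S)
    (hf : isK f) : ∃ n, isG (d f (ff n)) ∧ lt (d f (ff n)) (gam n) ∧ j f ≠ u ∧
      d (j f) u = j (d f (ff n)) := by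
  have hU := axN j
  have hS := axS
  obtain ⟨n, hn⟩ := seqS.2.1 f hf
  have hne : f ≠ ff n := by
    intro he
    rw [he, hS.d_self] at hn
    exact hS.irrefl _ (hS.trans _ _ _ hn (hS.ltgk _ _ (coheirFS_isG_gam n) (coheirFS_isK_ff n)))
  have hG : isG (d f (ff n)) := hS.d_K _ _ hf (coheirFS_isK_ff n) hne
  have hK1 : isK (j f) := (map_isK j f).2 hf
  have hK2 : isK (j (ff n)) := (map_isK j (ff n)).2 (coheirFS_isK_ff n)
  have hy : j (ff n) ≠ u := by
    intro he
    have h1 := hu.2 n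
    rw [he, hU.d_self] at h1
    exact hU.gk (j (gam n)) ⟨(map_isG j _).2 (coheirFS_isG_gam n), h1 ▸ hu.1⟩
  have hlt : lt (d (j f) (j (ff n))) (d (j (ff n)) u) := by
    rw [hU.d_symm (j (ff n)) u (Or.inr ⟨hK2, hu.1⟩), hu.2 n, ← map_d, map_lt]
    exact hn
  obtain ⟨h1, h2⟩ := iso1 hU (Or.inr ⟨hK1, hK2⟩) (Or.inr ⟨hK2, hu.1⟩)
    (fun h => hne (j.injective h)) hy hlt
  exact ⟨n, hG, hn, h1, by rw [h2, map_d]⟩

theorem coheirFS_eps {U : Type} [LL.Structure U] (j : S ↪ₑ[LL] U) (e : U)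
    (he : ∀ n, lt e (j (eps n))) (g : S) (hg : isG g) (hlt : lt (gam 0) g) :
    lt e (d (j g) (j (gam 0))) := by
  have hU := axN j
  have hS := axS
  have hne : g ≠ gam 0 := by
    rintro rfl
    exact hS.irrefl _ hlt
  have hE : isE (d g (gam 0)) := hS.d_G _ _ hg (coheirFS_isG_gam 0) hne
  obtain ⟨n, hn⟩ := seqS.2.2.2.1 _ hE
  rw [← map_d]
  exact hU.trans _ _ _ (he n) ((map_lt j _ _).2 hn)

/-- finite satisfiability.  In each case suppose not; then a formula with parameters in `U` is in `r = tp k b` and so by `hr.2.2` it is satisfied by a pair `(j f, j g)` with `f, g ∈ S`.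
(1a) `b 0 = k u`, `Br j u`: the formula `y₁ = u` gives `f ∈ S` with `j f = u`, so `isK f` and `d f (ff n) = gam n` for all `n` (elementarity: `map_d` and injectivity of `j`), contradicting `seqS` (there is `n` with `d f (ff n) < gam n`, irreflexivity).
(1b) formula `kF y₁ ∧ ¬ (d y₁ u < g)`: gives `f ∈ S` with `isK f`, `¬ d (j f) u < g`.  By `seqS` there is `n` with `d f (ff n) < gam n`; as `d u (j (ff n)) = j (gam n)`, `iso1` gives `d (j f) u = d (j f) (j (ff n)) = j (d f (ff n)) < j (gam n) < g` (note `f ≠ ff n` since `d f (ff n) < gam n` is of sort `G`).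
(2) formula `gF y₂ ∧ ¬ (y₂ < g)`: `g' ∈ S` of sort `G` is below some `gam n`.
(3) formula `gF y₂ ∧ gam 0 < y₂ ∧ ¬ (e < d y₂ (gam 0))`: `g' ∈ S` with `d g' (gam 0) ∈ E(S)`, which is above some `eps n`, and `e < j (eps n)`.
(4) formula `gF (d y₁ c₀) ∧ gam 0 < d y₁ c₀ ∧ ¬ (e < d (d y₁ c₀) (gam 0))` (that `gam n < d (b 0) (k c₀)`: `iso2` with `d (b 0) (k (j (ff (n+1)))) = k (j (gam (n+1))) = d (k c₀) (k (j (ff (n+1))))`, and `b 0 ≠ k c₀` by (1a)): gives `f ∈ S`, with `d (j f) c₀` of sort `G` [so `isK f`] and by `seqS` and `iso1` as in (1b) `d (j f) c₀ = j (d f (ff n))` for some `n`;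
then as in (3).  Axioms: `axN j : Ax U`, and for `N` use `axN (k.comp j)`, `axS : Ax S`. -/
theorem coheirFS {U : Type} [LL.Structure U] (j : S ↪ₑ[LL] U) (c₀ : U) (hc₀ : Br j c₀)
    {r : Set (LL.Formula (Fin 2 ⊕ U))} (hr : IsCoheir j qT r) {N : Type} [LL.Structure N]
    (k : U ↪ₑ[LL] N) (b : Fin 2 → N) (hb : tp k b = r) :
    (∀ u : U, Br j u → b 0 ≠ k u ∧
      ∀ g : U, isG g → (∀ n, lt (j (gam n)) g) → lt (d (b 0) (k u)) (k g)) ∧
    (∀ g : U, isG g → (∀ n, lt (j (gam n)) g) → lt (b 1) (k g)) ∧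
    (∀ e : U, isE e → (∀ n, lt e (j (eps n))) → lt (k e) (d (b 1) (k (j (gam 0))))) ∧
    (∀ e : U, isE e → (∀ n, lt e (j (eps n))) →
      lt (k e) (d (d (b 0) (k c₀)) (k (j (gam 0))))) := by
  have hU := axN j
  have hS := axS
  have hN := axN (k.comp j)
  obtain ⟨hb0, hb0', hb1, hb1'⟩ := coheirFacts j hr k b hb
  have sat := coheirFS_sat j hr k b hb
  have h1a : ∀ u : U, Br j u → b 0 ≠ k u := by
    intro u hu hbu
    obtain ⟨m, hm⟩ := sat (Term.equal (Term.var (Sum.inl 0)) (Term.var (Sum.inr u))) (by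
      rw [Formula.realize_equal]
      exact hbu)
    rw [Formula.realize_equal] at hm
    have hm' : j (m 0) = u := hm
    have hK : isK (m 0) := by
      rw [← map_isK j, hm']
      exact hu.1
    obtain ⟨n, _, _, h, _⟩ := coheirFS_dist j u hu (m 0) hK
    exact h hm'
  refine ⟨fun u hu => ⟨h1a u hu, fun g hg hgn => ?_⟩, fun g hg hgn => ?_, fun e he hen => ?_,
    fun e he hen => ?_⟩
  · by_contra hcon
    obtain ⟨m, hm⟩ := sat (kF (Term.var (Sum.inl 0)) ⊓
      (ltF (dT (Term.var (Sum.inl 0)) (Term.var (Sum.inr u))) (Term.var (Sum.inr g))).not) (by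
      rw [Formula.realize_inf, Formula.realize_not, realize_kF, realize_ltF, realize_dT]
      exact ⟨hb0, hcon⟩)
    rw [Formula.realize_inf, Formula.realize_not, realize_kF, realize_ltF, realize_dT] at hm
    obtain ⟨hm1, hm2⟩ := hm
    have hm1' : isK (j (m 0)) := hm1
    have hm2' : ¬ lt (d (j (m 0)) u) g := hm2
    obtain ⟨n, _, h2, _, h4⟩ := coheirFS_dist j u hu (m 0) ((map_isK j _).1 hm1')
    rw [h4] at hm2'
    exact hm2' (hU.trans _ _ _ ((map_lt j _ _).2 h2) (hgn n))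
  · by_contra hcon
    obtain ⟨m, hm⟩ := sat (gF (Term.var (Sum.inl 1)) ⊓
      (ltF (Term.var (Sum.inl 1)) (Term.var (Sum.inr g))).not) (by
      rw [Formula.realize_inf, Formula.realize_not, realize_gF, realize_ltF]
      exact ⟨hb1, hcon⟩)
    rw [Formula.realize_inf, Formula.realize_not, realize_gF, realize_ltF] at hm
    obtain ⟨hm1, hm2⟩ := hm
    have hm1' : isG (j (m 1)) := hm1
    have hm2' : ¬ lt (j (m 1)) g := hm2
    obtain ⟨n, hn⟩ := seqS.2.2.1 (m 1) ((map_isG j _).1 hm1')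
    exact hm2' (hU.trans _ _ _ ((map_lt j _ _).2 hn) (hgn n))
  · by_contra hcon
    obtain ⟨m, hm⟩ := sat (gF (Term.var (Sum.inl 1)) ⊓
      (ltF (Term.var (Sum.inr (j (gam 0)))) (Term.var (Sum.inl 1)) ⊓
      (ltF (Term.var (Sum.inr e)) (dT (Term.var (Sum.inl 1))
        (Term.var (Sum.inr (j (gam 0)))))).not)) (by
      rw [Formula.realize_inf, Formula.realize_inf, Formula.realize_not, realize_gF, realize_ltF,
        realize_ltF, realize_dT]
      exact ⟨hb1, hb1' 0, hcon⟩)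
    rw [Formula.realize_inf, Formula.realize_inf, Formula.realize_not, realize_gF, realize_ltF,
      realize_ltF, realize_dT] at hm
    obtain ⟨hm1, hm2, hm3⟩ := hm
    have hm1' : isG (j (m 1)) := hm1
    have hm2' : lt (j (gam 0)) (j (m 1)) := hm2
    have hm3' : ¬ lt e (d (j (m 1)) (j (gam 0))) := hm3
    exact hm3' (coheirFS_eps j e hen (m 1) ((map_isG j _).1 hm1') ((map_lt j _ _).1 hm2'))
  · by_contra hcon
    have hkc : isK (k c₀) := (map_isK k _).2 hc₀.1
    have hkf : isK (k (j (ff 1))) := (map_isK k _).2 ((map_isK j _).2 (coheirFS_isK_ff 1))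
    have hkg : isG (k (j (gam 1))) := (map_isG k _).2 ((map_isG j _).2 (coheirFS_isG_gam 1))
    have hG : isG (d (b 0) (k c₀)) := hN.d_K _ _ hb0 hkc (h1a c₀ hc₀)
    have hdc : d (k c₀) (k (j (ff 1))) = k (j (gam 1)) := by
      rw [← map_d, hc₀.2 1]
    have hdc' : d (k (j (ff 1))) (k c₀) = k (j (gam 1)) := by
      rw [hN.d_symm _ _ (Or.inr ⟨hkf, hkc⟩), hdc]
    have hne1 : b 0 ≠ k (j (ff 1)) := by
      intro he
      have h1 := hb0' 1
      rw [he, hN.d_self] at h1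
      exact hN.gk _ ⟨hkg, h1 ▸ hkf⟩
    have hne2 : k (j (ff 1)) ≠ k c₀ := by
      intro he
      rw [he, hN.d_self] at hdc
      exact hN.gk _ ⟨hkg, hdc ▸ hkc⟩
    have hnlt : ¬ lt (d (b 0) (k c₀)) (k (j (gam 1))) := by
      refine iso2 hN (Or.inr ⟨hb0, hkf⟩) (Or.inr ⟨hkf, hkc⟩) hne1 hne2 (h1a c₀ hc₀) _ ?_ ?_
      · rw [hb0' 1]
        exact hN.irrefl _
      · rw [hdc']
        exact hN.irrefl _
    have hlt0 : lt (k (j (gam 0))) (k (j (gam 1))) := by
      rw [map_lt, map_lt]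
      exact (seqS.1 0 1 one_pos).1
    have hlt : lt (k (j (gam 0))) (d (b 0) (k c₀)) := by
      by_cases h : d (b 0) (k c₀) = k (j (gam 1))
      · rw [h]
        exact hlt0
      · rcases hN.total _ _ h with h' | h'
        · exact absurd h' hnlt
        · exact hN.trans _ _ _ hlt0 h'
    obtain ⟨m, hm⟩ := sat (kF (Term.var (Sum.inl 0)) ⊓
      (ltF (Term.var (Sum.inr (j (gam 0)))) (dT (Term.var (Sum.inl 0)) (Term.var (Sum.inr c₀))) ⊓
      (ltF (Term.var (Sum.inr e)) (dT (dT (Term.var (Sum.inl 0)) (Term.var (Sum.inr c₀)))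
        (Term.var (Sum.inr (j (gam 0)))))).not)) (by
      rw [Formula.realize_inf, Formula.realize_inf, Formula.realize_not, realize_kF, realize_ltF,
        realize_ltF, realize_dT, realize_dT, realize_dT]
      exact ⟨hb0, hlt, hcon⟩)
    rw [Formula.realize_inf, Formula.realize_inf, Formula.realize_not, realize_kF, realize_ltF,
      realize_ltF, realize_dT, realize_dT, realize_dT] at hm
    obtain ⟨hm1, hm2, hm3⟩ := hm
    have hm1' : isK (j (m 0)) := hm1
    have hm2' : lt (j (gam 0)) (d (j (m 0)) c₀) := hm2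
    have hm3' : ¬ lt e (d (d (j (m 0)) c₀) (j (gam 0))) := hm3
    obtain ⟨n, h1, _, _, h4⟩ := coheirFS_dist j c₀ hc₀ (m 0) ((map_isK j _).1 hm1')
    rw [h4] at hm2' hm3'
    exact hm3' (coheirFS_eps j e hen _ h1 ((map_lt j _ _).1 hm2'))

end Pool.Agent.H726T
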