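import Pool.Agent.H726T.Facts
import Pool.Agent.H726T.SeqS
import Pool.Agent.H726T.AxS
import Pool.Agent.H726T.AxN

set_option autoImplicit false

open FirstOrder FirstOrder.Language FirstOrder.Language.Structure Cardinal
open Pool.Agent.Y562.NWO

namespace Pool.Agent.H726T

theorem coheirFacts_mem (φ : LL.Formula (Fin 2 ⊕ S)) (n : ℕ)
    (h : ∀ (m : ℕ) (e : ℚ), n < m → φ.Realize (Sum.elim ![ff m, gg m e] id)) : φ ∈ qT := by
  have h1 : ∀ᶠ x in (Filter.atTop ×ˢ FE 0 : Filter (ℕ × ℚ)),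
      φ.Realize (Sum.elim ![ff x.1, gg x.1 x.2] id) := by
    have h2 : ∀ᶠ x in (Filter.atTop ×ˢ FE 0 : Filter (ℕ × ℚ)), n < x.1 :=
      (Filter.eventually_gt_atTop n).prod_inl _
    exact h2.mono fun x hx => h x.1 x.2 hx
  exact (Ultrafilter.of_le (Filter.atTop ×ˢ FE 0 : Filter (ℕ × ℚ))) h1

theorem coheirFacts_read {U : Type} [LL.Structure U] (j : S ↪ₑ[LL] U)
    {r : Set (LL.Formula (Fin 2 ⊕ U))} (hr : IsCoheir j qT r) {N : Type} [LL.Structure N]
    (k : U ↪ₑ[LL] N) (b : Fin 2 → N) (hb : tp k b = r) (φ : LL.Formula (Fin 2 ⊕ S)) (n : ℕ)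
    (h : ∀ (m : ℕ) (e : ℚ), n < m → φ.Realize (Sum.elim ![ff m, gg m e] id)) :
    φ.Realize (Sum.elim b (k ∘ j)) := by
  have h1 := (hr.2.1 φ).2 (coheirFacts_mem φ n h)
  rw [← hb] at h1
  exact (mem_tp k b j φ).1 h1

/-- the realisations of the coheirs of `q`. -/
theorem coheirFacts {U : Type} [LL.Structure U] (j : S ↪ₑ[LL] U) {r : Set (LL.Formula (Fin 2 ⊕ U))}
    (hr : IsCoheir j qT r) {N : Type} [LL.Structure N]
    (k : U ↪ₑ[LL] N) (b : Fin 2 → N) (hb : tp k b = r) :
    isK (b 0) ∧ (∀ n, d (b 0) (k (j (ff n))) = k (j (gam n))) ∧ isG (b 1) ∧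
      ∀ n, lt (k (j (gam n))) (b 1) := by
  have hK : ∀ m, isK (ff m) := fun m => ⟨_, rfl⟩
  refine ⟨?_, fun n => ?_, ?_, fun n => ?_⟩
  · have := coheirFacts_read j hr k b hb (kF (Term.var (Sum.inl 0))) 0 (fun m e _ => by
      rw [realize_kF]
      exact hK m)
    rw [realize_kF] at this
    exact this
  · have := coheirFacts_read j hr k b hb
      (Term.equal (dT (Term.var (Sum.inl 0)) (Term.var (Sum.inr (ff n))))
        (Term.var (Sum.inr (gam n)))) n (fun m e hm => by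
      rw [Formula.realize_equal, realize_dT]
      show d (ff m) (ff n) = gam n
      rw [axS.d_symm (ff m) (ff n) (Or.inr ⟨hK m, hK n⟩)]
      exact (seqS.1 n m hm).2.2.1)
    rw [Formula.realize_equal, realize_dT] at this
    exact this
  · have := coheirFacts_read j hr k b hb (gF (Term.var (Sum.inl 1))) 0 (fun m e _ => by
      rw [realize_gF]
      exact ⟨_, rfl⟩)
    rw [realize_gF] at this
    exact this
  · have := coheirFacts_read j hr k b hb
      (ltF (Term.var (Sum.inr (gam n))) (Term.var (Sum.inl 1))) n (fun m e hm => by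
      rw [realize_ltF]
      show lt (gam n) (gg m e)
      exact axS.trans _ _ _ (seqS.1 n m hm).1 (seqS.2.2.2.2 m e).1)
    rw [realize_ltF] at this
    exact this

end Pool.Agent.H726T
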