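import Pool.Agent.H726T.Defs

set_option autoImplicit false

open FirstOrder FirstOrder.Language FirstOrder.Language.Structure

namespace Pool.Agent.H726T

/-- case analysis.  `d x y` is `x` unless `x, y` are both in `G` or both in `K` (`d_junk`), `d x x = x`, and `d` is symmetric on `same` pairs.  If `g₀ = b₂` then `d g₀ b₂ = g₀`, otherwise `isE (d g₀ b₂)`. -/
theorem limClos {N : Type} [LL.Structure N] (hN : Ax N) (C : Set N)
    (hC : ∀ x ∈ C, ∀ y ∈ C, d x y ∈ C) (b₁ b₂ g₀ e₁ e₂ : N) (hb₁ : isK b₁) (hb₂ : isG b₂)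
    (hg₀ : isG g₀) (he₁ : isE e₁) (he₂ : isE e₂)
    (h1 : ∀ u ∈ C, isK u → d b₁ u ∈ C ∨ d b₁ u = g₀)
    (h2 : ∀ g ∈ C, isG g → d b₂ g ∈ C ∨ d b₂ g = e₂)
    (h3 : ∀ g ∈ C, isG g → d g₀ g ∈ C ∨ d g₀ g = e₁) :
    ∀ X : Set N, X = C ∪ {b₁, b₂, g₀, e₁, e₂, d g₀ b₂} → ∀ x ∈ X, ∀ y ∈ X, d x y ∈ X := by
  intro X hX
  have mC : ∀ x ∈ C, x ∈ X := fun x hx => by rw [hX]; exact Or.inl hx
  have m1 : b₁ ∈ X := by rw [hX]; right; simp
  have m2 : b₂ ∈ X := by rw [hX]; right; simp
  have m3 : g₀ ∈ X := by rw [hX]; right; simp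
  have m4 : e₁ ∈ X := by rw [hX]; right; simp
  have m5 : e₂ ∈ X := by rw [hX]; right; simp
  have m6 : d g₀ b₂ ∈ X := by rw [hX]; right; simp
  have hc : d g₀ b₂ = g₀ ∨ isE (d g₀ b₂) := by
    by_cases h : g₀ = b₂
    · left; rw [← h]; exact hN.d_self g₀
    · right; exact hN.d_G g₀ b₂ hg₀ hb₂ h
  have key : ∀ x ∈ X, x ∈ C ∨ x = b₁ ∨ x = b₂ ∨ x = g₀ ∨ x = e₁ ∨ x = e₂ ∨ x = d g₀ b₂ := by
    intro x hx
    rw [hX] at hx
    rcases hx with h | h
    · exact Or.inl h
    · right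
      simpa using h
  have hK : ∀ x ∈ X, isK x → x ∈ C ∨ x = b₁ := by
    intro x hx hxK
    rcases key x hx with h | h | h | h | h | h | h
    · exact Or.inl h
    · exact Or.inr h
    · subst h; exact absurd ⟨hb₂, hxK⟩ (hN.gk _)
    · subst h; exact absurd ⟨hg₀, hxK⟩ (hN.gk _)
    · subst h; exact absurd hxK he₁.2
    · subst h; exact absurd hxK he₂.2
    · rcases hc with h' | h'
      · rw [h, h'] at hxK; exact absurd ⟨hg₀, hxK⟩ (hN.gk _)
      · rw [h] at hxK; exact absurd hxK h'.2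
  have hG : ∀ x ∈ X, isG x → x ∈ C ∨ x = b₂ ∨ x = g₀ := by
    intro x hx hxG
    rcases key x hx with h | h | h | h | h | h | h
    · exact Or.inl h
    · subst h; exact absurd ⟨hxG, hb₁⟩ (hN.gk _)
    · exact Or.inr (Or.inl h)
    · exact Or.inr (Or.inr h)
    · subst h; exact absurd hxG he₁.1
    · subst h; exact absurd hxG he₂.1
    · rcases hc with h' | h'
      · exact Or.inr (Or.inr (h.trans h'))
      · rw [h] at hxG; exact absurd hxG h'.1
  have q1 : ∀ u ∈ C, isK u → d b₁ u ∈ X := by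
    intro u hu huK
    rcases h1 u hu huK with h | h
    · exact mC _ h
    · rw [h]; exact m3
  have q2 : ∀ g ∈ C, isG g → d b₂ g ∈ X := by
    intro g hg hgG
    rcases h2 g hg hgG with h | h
    · exact mC _ h
    · rw [h]; exact m5
  have q3 : ∀ g ∈ C, isG g → d g₀ g ∈ X := by
    intro g hg hgG
    rcases h3 g hg hgG with h | h
    · exact mC _ h
    · rw [h]; exact m4
  intro x hx y hy
  by_cases hs : same x y
  · rcases hs with ⟨hxG, hyG⟩ | ⟨hxK, hyK⟩
    · have hsym : d x y = d y x := hN.d_symm x y (Or.inl ⟨hxG, hyG⟩)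
      rcases hG x hx hxG with h | h | h
      · rcases hG y hy hyG with h' | h' | h'
        · exact mC _ (hC x h y h')
        · rw [hsym, h']; exact q2 x h hxG
        · rw [hsym, h']; exact q3 x h hxG
      · rcases hG y hy hyG with h' | h' | h'
        · rw [h]; exact q2 y h' hyG
        · rw [h, h', hN.d_self]; exact m2
        · rw [hsym, h, h']; exact m6
      · rcases hG y hy hyG with h' | h' | h'
        · rw [h]; exact q3 y h' hyG
        · rw [h, h']; exact m6
        · rw [h, h', hN.d_self]; exact m3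
    · have hsym : d x y = d y x := hN.d_symm x y (Or.inr ⟨hxK, hyK⟩)
      rcases hK x hx hxK with h | h
      · rcases hK y hy hyK with h' | h'
        · exact mC _ (hC x h y h')
        · rw [hsym, h']; exact q1 x h hxK
      · rcases hK y hy hyK with h' | h'
        · rw [h]; exact q1 y h' hyK
        · rw [h, h', hN.d_self]; exact m1
  · rw [hN.d_junk x y hs]
    exact hx

end Pool.Agent.H726T
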