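import Pool.Agent.H726T.Iso

set_option autoImplicit false

open FirstOrder FirstOrder.Language FirstOrder.Language.Structure

namespace Pool.Agent.H726T

/-- generic: a point above all `γ n` -/
theorem limG_aux {N : Type} [LL.Structure N] (hN : Ax N) (γ ε : ℕ → N) (hγ : ∀ n, isG (γ n))
    (hs : ∀ n m, n < m → lt (γ n) (γ m) ∧ lt (ε m) (ε n) ∧ d (γ n) (γ m) = ε m)
    (z : N) (hz : isG z) (hz1 : ∀ n, lt (γ n) z) :
    (∀ n m, lt (d (γ n) z) (ε m)) ∧ (∀ n m, n < m → d (γ n) z = d (γ m) z) := by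
  have key : ∀ n m, n < m → ¬ lt (ε m) (d (γ n) z) := by
    intro n m hnm
    obtain ⟨h1, h2, h3⟩ := hs n m hnm
    rcases hN.um (γ n) (γ m) z (Or.inl ⟨hγ n, hγ m⟩) (Or.inl ⟨hγ m, hz⟩) h1 (hz1 m) with h | h
    · rw [h.1, h3]
      exact hN.irrefl _
    · rw [h.1, ← h3]
      exact h.2
  have le_lt : ∀ x y w : N, ¬ lt y x → lt y w → lt x w := by
    intro x y w h1 h2
    by_cases hxy : x = y
    · rw [hxy]; exact h2
    · rcases hN.total x y hxy with h | h
      · exact hN.trans _ _ _ h h2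
      · exact absurd h h1
  have hlt : ∀ n m, lt (d (γ n) z) (ε m) := by
    intro n m
    have h1 := key n (n + m + 1) (by omega)
    have h2 := (hs m (n + m + 1) (by omega)).2.1
    exact le_lt _ _ _ h1 h2
  refine ⟨hlt, ?_⟩
  intro n m hnm
  obtain ⟨h1, h2, h3⟩ := hs n m hnm
  rcases hN.um (γ n) (γ m) z (Or.inl ⟨hγ n, hγ m⟩) (Or.inl ⟨hγ m, hz⟩) h1 (hz1 m) with h | h
  · exfalso
    have h4 := hlt n m
    rw [h.1, h3] at h4
    exact hN.irrefl _ h4
  · exact h.1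

/-- .  For `n < m`: `γ n < γ m < b` so by `um` `d (γ n) b` is the minimum of `d (γ n) (γ m) = ε m` and `d (γ m) b`; so `d (γ n) b ≤ ε m` for all `m > n`, hence (as the `ε m` are decreasing) `d (γ n) b < ε m` for all `m`, and
`d (γ n) b = d (γ m) b`; so `d b (γ n) = d b (γ 0) =: e` for all `n` (`d_symm`).  Let `g ∈ C`, `isG g`.  Case A: `g < γ n` for some `n` (or `g ≤ γ n`, then `g < γ (n+1)`): `g < γ n < b` so `d g b` is the minimum of `d g (γ n) ∈ C` and `d (γ n) b = e`: so it is in `C` or is `e`.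
Case B: `γ n < g` for all `n`: then `b < g` by `hb2`, `γ 0 < b < g`, so `d (γ 0) g` is the minimum of `e` and `d b g`; and `d (γ 0) g < ε n` for all `n` by the same argument as for `b`, and it is in `C`, so `d (γ 0) g < e` by `hb3`; hence `d b g = d (γ 0) g ∈ C`. -/
theorem limG {N : Type} [LL.Structure N] (hN : Ax N) (C : Set N)
    (hC : ∀ x ∈ C, ∀ y ∈ C, d x y ∈ C) (γ ε : ℕ → N) (hγ : ∀ n, isG (γ n) ∧ γ n ∈ C)
    (hε : ∀ n, isE (ε n) ∧ ε n ∈ C)
    (hs : ∀ n m, n < m → lt (γ n) (γ m) ∧ lt (ε m) (ε n) ∧ d (γ n) (γ m) = ε m)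
    (b : N) (hb : isG b) (hb1 : ∀ n, lt (γ n) b)
    (hb2 : ∀ g ∈ C, isG g → (∀ n, lt (γ n) g) → lt b g)
    (hb3 : ∀ e ∈ C, isE e → (∀ n, lt e (ε n)) → lt e (d b (γ 0))) :
    isE (d b (γ 0)) ∧ (∀ n, lt (d b (γ 0)) (ε n)) ∧
      ∀ g ∈ C, isG g → b ≠ g ∧ (d b g ∈ C ∨ d b g = d b (γ 0)) := by
  have hG : ∀ n, isG (γ n) := fun n => (hγ n).1
  obtain ⟨hA, hB⟩ := limG_aux hN γ ε hG hs b hb hb1
  have hbg : ∀ n, d b (γ n) = d (γ n) b := fun n => hN.d_symm b (γ n) (Or.inl ⟨hb, hG n⟩)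
  have hne : ∀ n, b ≠ γ n := by
    intro n h
    have h1 := hb1 n
    rw [← h] at h1
    exact hN.irrefl _ h1
  refine ⟨hN.d_G b (γ 0) hb (hG 0) (hne 0), ?_, ?_⟩
  · intro n
    rw [hbg 0]
    exact hA 0 n
  · intro g hgC hgG
    have hbne : b ≠ g := by
      intro h
      have h1 := hb2 g hgC hgG (fun n => by rw [← h]; exact hb1 n)
      rw [h] at h1
      exact hN.irrefl _ h1
    refine ⟨hbne, ?_⟩
    by_cases hc : ∀ n, lt (γ n) g
    · left
      have hbltg := hb2 g hgC hgG hc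
      obtain ⟨hA', hB'⟩ := limG_aux hN γ ε hG hs g hgG hc
      rcases hN.um (γ 0) b g (Or.inl ⟨hG 0, hb⟩) (Or.inl ⟨hb, hgG⟩) (hb1 0) hbltg with h | h
      · exfalso
        have hE : isE (d (γ 0) g) := by
          refine hN.d_G _ _ (hG 0) hgG ?_
          intro h0
          have h1 := hc 0
          rw [← h0] at h1
          exact hN.irrefl _ h1
        have h1 := hb3 (d (γ 0) g) (hC _ (hγ 0).2 _ hgC) hE (fun n => hA' 0 n)
        rw [hbg 0, h.1] at h1
        exact hN.irrefl _ h1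
      · rw [← h.1]
        exact hC _ (hγ 0).2 _ hgC
    · push Not at hc
      obtain ⟨n, hn⟩ := hc
      have hgn : lt g (γ (n + 1)) := by
        have h1 := (hs n (n + 1) (by omega)).1
        by_cases h0 : g = γ n
        · rw [h0]; exact h1
        · rcases hN.total g (γ n) h0 with h2 | h2
          · exact hN.trans _ _ _ h2 h1
          · exact absurd h2 hn
      have hsy : d b g = d g b := hN.d_symm b g (Or.inl ⟨hb, hgG⟩)
      rcases hN.um g (γ (n + 1)) b (Or.inl ⟨hgG, hG _⟩) (Or.inl ⟨hG _, hb⟩) hgn (hb1 _) with h | h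
      · left
        rw [hsy, h.1]
        exact hC _ hgC _ (hγ _).2
      · right
        rw [hsy, h.1, hbg 0]
        exact (hB 0 (n + 1) (by omega)).symm

end Pool.Agent.H726T
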