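import Pool.Agent.H726T.Iso

set_option autoImplicit false

open FirstOrder FirstOrder.Language FirstOrder.Language.Structure

namespace Pool.Agent.H726T

theorem limK_ne {N : Type} [LL.Structure N] (hN : Ax N) {x y g : N} (hx : isK x) (hg : isG g)
    (h : d x y = g) : x ≠ y := by
  intro e
  subst e
  rw [hN.d_self] at h
  subst h
  exact hN.gk _ ⟨hg, hx⟩

theorem limK_symm {N : Type} [LL.Structure N] (hN : Ax N) {x y : N} (hx : isK x) (hy : isK y) :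
    d x y = d y x := hN.d_symm x y (Or.inr ⟨hx, hy⟩)

theorem limK_above {N : Type} [LL.Structure N] (hN : Ax N) (f γ : ℕ → N) (hf : ∀ n, isK (f n))
    (hγ : ∀ n, isG (γ n)) (hs : ∀ n m, n < m → lt (γ n) (γ m)) (x z : N) (hx : isK x) (hz : isK z)
    (hxz : x ≠ z) (hxf : ∀ n, d x (f n) = γ n) (hzf : ∀ n, d z (f n) = γ n) (n : ℕ) :
    lt (γ n) (d x z) := by
  have h1 : x ≠ f (n + 1) := limK_ne hN hx (hγ _) (hxf (n + 1))
  have h2 : z ≠ f (n + 1) := limK_ne hN hz (hγ _) (hzf (n + 1))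
  have h3 : ¬ lt (d x z) (γ (n + 1)) := by
    refine iso2 hN (Or.inr ⟨hx, hf (n + 1)⟩) (Or.inr ⟨hf (n + 1), hz⟩) h1 h2.symm hxz (γ (n + 1))
      ?_ ?_
    · rw [hxf]; exact hN.irrefl _
    · rw [limK_symm hN (hf (n + 1)) hz, hzf]; exact hN.irrefl _
  have h4 := hs n (n + 1) (Nat.lt_succ_self n)
  by_cases h5 : γ (n + 1) = d x z
  · rw [← h5]; exact h4
  · rcases hN.total _ _ h5 with h6 | h6
    · exact hN.trans _ _ _ h4 h6
    · exact absurd h6 h3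

/-- .  `b ≠ c₀` by `hb2`, so `isG (d b c₀)`.  `b ≠ f n` (as `d b (f n) = γ n` is in `G` while `d x x = x`).  `d b (f (n+1)) = γ (n+1) = d c₀ (f (n+1))`, so `d b c₀` is not `< γ (n+1)` (`iso2`), so `γ n < d b c₀`.
Let `u ∈ C`, `isK u`.  Case A: `d u (f n) ≠ γ n` for some `n`: then `b ≠ u`; if `u = f n` then `d b u = γ n ∈ C`; otherwise `δ := d u (f n)` is in `G ∩ C`, `δ ≠ γ n = d b (f n)` and by `iso1` `d b u` is the smaller of the two, in `C`.
Case B: `d u (f n) = γ n` for all `n`: `b ≠ u` by `hb2`; if `u = c₀` done; otherwise `g := d u c₀ ∈ C` is above all `γ n` (as above), so `d b u < g` and `d b c₀ < g` by `hb2`; by `iso1` (triangle `b, u, c₀`) `d b u = d b c₀`. -/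
theorem limK {N : Type} [LL.Structure N] (hN : Ax N) (C : Set N)
    (hC : ∀ x ∈ C, ∀ y ∈ C, d x y ∈ C) (f γ : ℕ → N) (hf : ∀ n, isK (f n) ∧ f n ∈ C)
    (hγ : ∀ n, isG (γ n) ∧ γ n ∈ C)
    (hs : ∀ n m, n < m → lt (γ n) (γ m) ∧ d (f n) (f m) = γ n)
    (c₀ b : N) (hc : c₀ ∈ C) (hcK : isK c₀) (hc0 : ∀ n, d c₀ (f n) = γ n)
    (hb : isK b) (hb1 : ∀ n, d b (f n) = γ n)
    (hb2 : ∀ u ∈ C, isK u → (∀ n, d u (f n) = γ n) → b ≠ u ∧
      ∀ g ∈ C, isG g → (∀ n, lt (γ n) g) → lt (d b u) g) :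
    isG (d b c₀) ∧ (∀ n, lt (γ n) (d b c₀)) ∧
      ∀ u ∈ C, isK u → b ≠ u ∧ (d b u ∈ C ∨ d b u = d b c₀) := by
  have hfK : ∀ n, isK (f n) := fun n => (hf n).1
  have hγG : ∀ n, isG (γ n) := fun n => (hγ n).1
  have hs' : ∀ n m, n < m → lt (γ n) (γ m) := fun n m h => (hs n m h).1
  obtain ⟨hbc, hbc'⟩ := hb2 c₀ hc hcK hc0
  refine ⟨hN.d_K _ _ hb hcK hbc,
    limK_above hN f γ hfK hγG hs' b c₀ hb hcK hbc hb1 hc0, ?_⟩
  intro u hu huK
  by_cases hall : ∀ n, d u (f n) = γ n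
  · obtain ⟨hbu, hbu'⟩ := hb2 u hu huK hall
    refine ⟨hbu, ?_⟩
    by_cases huc : u = c₀
    · right; rw [huc]
    · right
      have hg := limK_above hN f γ hfK hγG hs' u c₀ huK hcK huc hall hc0
      have h1 := hbu' (d u c₀) (hC _ hu _ hc) (hN.d_K _ _ huK hcK huc) hg
      exact (iso1 hN (Or.inr ⟨hb, huK⟩) (Or.inr ⟨huK, hcK⟩) hbu huc h1).2.symm
  · push Not at hall
    obtain ⟨n, hn⟩ := hall
    have hbu : b ≠ u := by
      intro e
      exact hn (e ▸ hb1 n)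
    refine ⟨hbu, Or.inl ?_⟩
    by_cases hun : u = f n
    · rw [hun, hb1]; exact (hγ n).2
    · have hbn : b ≠ f n := limK_ne hN hb (hγG n) (hb1 n)
      rcases hN.total _ _ hn with h1 | h1
      · have h2 : lt (d u (f n)) (d (f n) b) := by
          rw [limK_symm hN (hfK n) hb, hb1]; exact h1
        have h3 := (iso1 hN (Or.inr ⟨huK, hfK n⟩) (Or.inr ⟨hfK n, hb⟩) hun hbn.symm h2).2
        rw [limK_symm hN hb huK, h3]
        exact hC _ hu _ (hf n).2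
      · have h2 : lt (d b (f n)) (d (f n) u) := by
          rw [limK_symm hN (hfK n) huK, hb1]; exact h1
        have h3 := (iso1 hN (Or.inr ⟨hb, hfK n⟩) (Or.inr ⟨hfK n, huK⟩) hbn (Ne.symm hun) h2).2
        rw [h3, hb1]
        exact (hγ n).2

end Pool.Agent.H726T
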