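import Pool.Agent.H726T.AxN
import Pool.Agent.H726T.LimG
import Pool.Agent.H726T.LimK
import Pool.Agent.H726T.LimClos
import Pool.Agent.H726T.CoheirFacts
import Pool.Agent.H726T.CoheirFS
import Pool.Agent.H726T.SeqS

set_option autoImplicit false
open FirstOrder FirstOrder.Language FirstOrder.Language.Structure Cardinal
open Pool.Agent.Y562.NWO

namespace Pool.Agent.H726T

theorem coheirCut_dl {A : Type} [LinearOrder A] [Inhabited A] {x y : A →₀ ℚ} {a : A} (ha : x a ≠ y a)
    (hlt : ∀ b, b < a → x b = y b) : dl x y = a := by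
  have hmem : a ∈ x.neLocus y := Finsupp.mem_neLocus.2 ha
  have hne : (x.neLocus y).Nonempty := ⟨a, hmem⟩
  unfold dl
  rw [dif_pos hne]
  refine le_antisymm (Finset.min'_le _ _ hmem) ?_
  refine Finset.le_min' _ _ _ fun b hb => ?_
  by_contra h
  exact Finsupp.mem_neLocus.1 hb (hlt b (not_le.1 h))

theorem coheirCut_gm {n m : ℕ} (h : n < m) : gm n < gm m := by
  rw [gm, gm, Finsupp.Lex.lt_iff]
  have hq : (n : ℚ) < m := by exact_mod_cast h
  refine ⟨-(m : ℚ), fun b hb => ?_, ?_⟩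
  · have h1 : -(n : ℚ) ≠ b := by intro h2; linarith
    have h2 : -(m : ℚ) ≠ b := by intro h3; linarith
    simp [Finsupp.single_apply, h1, h2]
  · have h1 : -(n : ℚ) ≠ -(m : ℚ) := by intro h2; linarith
    simp [Finsupp.single_apply, h1]

theorem coheirCut_gamlt {n m : ℕ} (h : n < m) : lt (gam n) (gam m) := coheirCut_gm h

theorem coheirCut_epslt {n m : ℕ} (h : n < m) : lt (eps m) (eps n) := by
  have hq : (n : ℚ) < m := by exact_mod_cast h
  show -(m : ℚ) < -(n : ℚ)
  linarith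

theorem coheirCut_gamd {n m : ℕ} (h : n < m) : d (gam n) (gam m) = eps m := by
  have hq : (n : ℚ) < m := by exact_mod_cast h
  show dS (S.g (gm n)) (S.g (gm m)) = eps m
  have hne : gm n ≠ gm m := (coheirCut_gm h).ne
  have h1 : dl (ofLex (gm n)) (ofLex (gm m)) = -(m : ℚ) := by
    apply coheirCut_dl
    · have h1 : -(n : ℚ) ≠ -(m : ℚ) := by intro h2; linarith
      simp [gm, Finsupp.single_apply, h1]
    · intro b hb
      have h1 : -(n : ℚ) ≠ b := by intro h2; linarith
      have h2 : -(m : ℚ) ≠ b := by intro h3; linarith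
      simp [gm, Finsupp.single_apply, h1, h2]
  unfold dS
  simp only [if_neg hne, h1, eps]

theorem coheirCut_ffd {n m : ℕ} (h : n < m) : d (ff n) (ff m) = gam n := by
  have hinj : ∀ a b : ℕ, gm a = gm b → a = b := by
    intro a b hab
    by_contra hne
    rcases lt_or_gt_of_ne hne with h1 | h1
    · exact (coheirCut_gm h1).ne hab
    · exact (coheirCut_gm h1).ne hab.symm
  have hval : ∀ (N a : ℕ), (∑ i ∈ Finset.range N, Finsupp.single (gm i) (1 : ℚ)) (gm a) =
      if a < N then 1 else 0 := by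
    intro N a
    rw [Finsupp.finsetSum_apply]
    have h1 : ∀ i ∈ Finset.range N, (Finsupp.single (gm i) (1 : ℚ)) (gm a) = if i = a then 1 else 0 := by
      intro i _
      rw [Finsupp.single_apply]
      by_cases hia : i = a
      · simp [hia]
      · rw [if_neg hia, if_neg (fun hh => hia (hinj _ _ hh))]
    rw [Finset.sum_congr rfl h1, Finset.sum_ite_eq']
    simp
  have hval2 : ∀ (N : ℕ) (b : GG), (∀ i, i < N → gm i ≠ b) →
      (∑ i ∈ Finset.range N, Finsupp.single (gm i) (1 : ℚ)) b = 0 := by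
    intro N b hb
    rw [Finsupp.finsetSum_apply]
    refine Finset.sum_eq_zero fun i hi => ?_
    rw [Finsupp.single_apply, if_neg (hb i (Finset.mem_range.1 hi))]
  have hne0 : (∑ i ∈ Finset.range n, Finsupp.single (gm i) (1 : ℚ)) (gm n) ≠
      (∑ i ∈ Finset.range m, Finsupp.single (gm i) (1 : ℚ)) (gm n) := by
    rw [hval, hval, if_neg (lt_irrefl _), if_pos h]
    norm_num
  have h1 : dl (∑ i ∈ Finset.range n, Finsupp.single (gm i) (1 : ℚ))
      (∑ i ∈ Finset.range m, Finsupp.single (gm i) (1 : ℚ)) = gm n := by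
    apply coheirCut_dl hne0
    intro b hb
    by_cases hex : ∃ i, gm i = b
    · obtain ⟨i, rfl⟩ := hex
      have hi : i < n := by
        by_contra hcon
        rcases (not_lt.1 hcon).eq_or_lt with h2 | h2
        · rw [h2] at hb
          exact lt_irrefl _ hb
        · exact lt_asymm hb (coheirCut_gm h2)
      rw [hval, hval, if_pos hi, if_pos (hi.trans h)]
    · rw [hval2 n b fun i _ hh => hex ⟨i, hh⟩, hval2 m b fun i _ hh => hex ⟨i, hh⟩]
  have hne : (toLex (∑ i ∈ Finset.range n, Finsupp.single (gm i) (1 : ℚ)) : KK) ≠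
      toLex (∑ i ∈ Finset.range m, Finsupp.single (gm i) (1 : ℚ)) := by
    intro hh
    apply hne0
    rw [toLex_inj.1 hh]
  show dS (ff n) (ff m) = gam n
  unfold ff dS
  simp only [if_neg hne, ofLex_toLex, h1, gam]

theorem coheirCut_isGgam (n : ℕ) : isG (gam n) := ⟨_, rfl⟩
theorem coheirCut_isKff (n : ℕ) : isK (ff n) := ⟨_, rfl⟩
theorem coheirCut_isEeps (n : ℕ) : isE (eps n) := by
  constructor
  · rintro ⟨x, hx⟩
    cases hx
  · rintro ⟨x, hx⟩
    cases hx

theorem coheirCut {U : Type} [LL.Structure U] (j : S ↪ₑ[LL] U) (c₀ : U) (hc₀ : Br j c₀)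
    {r : Set (LL.Formula (Fin 2 ⊕ U))} (hr : IsCoheir j qT r) (α : ℝ) (hex : α ∉ Exc j c₀ r)
    (C : Set U) (hC : ∀ x ∈ C, ∀ y ∈ C, d x y ∈ C) (hjC : Set.range j ⊆ C) (hcC : c₀ ∈ C)
    {N : Type} [LL.Structure N] (k : U ↪ₑ[LL] N) (b : Fin 2 → N) (hb : tp k b = r)
    (t : LL.Term (Fin 2 ⊕ C)) (y : N) (hy : y = t.realize (Sum.elim b (fun u : C => k u)))
    (hyE : isE y) : (∃ u ∈ C, y = k u) ∨ (∃ m : ℚ, (m : ℝ) < α ∧ ¬ lt (k (j (S.e m))) y) ∨
      (∃ m : ℚ, α < m ∧ ¬ lt y (k (j (S.e m)))) := by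
  have hN : Ax N := axN (k.comp j)
  have hC' : ∀ x ∈ k '' C, ∀ y ∈ k '' C, d x y ∈ k '' C := by
    rintro _ ⟨u, hu, rfl⟩ _ ⟨v, hv, rfl⟩
    exact ⟨d u v, hC u hu v hv, map_d k u v⟩
  obtain ⟨f1, f2, f3, f4⟩ := coheirFacts j hr k b hb
  obtain ⟨g1, g2, g3, g4⟩ := coheirFS j c₀ hc₀ hr k b hb
  have hG : ∀ x : S, isG x → isG (k (j x)) := fun x hx => (map_isG k _).2 ((map_isG j _).2 hx)
  have hK : ∀ x : S, isK x → isK (k (j x)) := fun x hx => (map_isK k _).2 ((map_isK j _).2 hx)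
  have hE : ∀ x : S, isE x → isE (k (j x)) := fun x hx => (map_isE k _).2 ((map_isE j _).2 hx)
  have hL : ∀ x y : S, lt x y → lt (k (j x)) (k (j y)) := fun x y hx =>
    (map_lt k _ _).2 ((map_lt j _ _).2 hx)
  have hD : ∀ x y z : S, d x y = z → d (k (j x)) (k (j y)) = k (j z) := fun x y z h => by
    rw [← map_d, ← map_d, h]
  have hmem : ∀ x : S, k (j x) ∈ k '' C := fun x => ⟨j x, hjC ⟨x, rfl⟩, rfl⟩
  obtain ⟨a1, a2, a3⟩ := limK hN (k '' C) hC' (fun n => k (j (ff n))) (fun n => k (j (gam n)))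
    (fun n => ⟨hK _ (coheirCut_isKff n), hmem _⟩) (fun n => ⟨hG _ (coheirCut_isGgam n), hmem _⟩)
    (fun n m h => ⟨hL _ _ (coheirCut_gamlt h), hD _ _ _ (coheirCut_ffd h)⟩)
    (k c₀) (b 0) ⟨c₀, hcC, rfl⟩ ((map_isK k _).2 hc₀.1)
    (fun n => by
      show d (k c₀) (k (j (ff n))) = k (j (gam n))
      rw [← map_d, hc₀.2 n])
    f1 f2 (by
      rintro _ ⟨u, hu, rfl⟩ huK hub
      have hBr : Br j u := by
        refine ⟨(map_isK k _).1 huK, fun n => ?_⟩
        apply k.injective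
        rw [map_d]
        exact hub n
      obtain ⟨p1, p2⟩ := g1 u hBr
      refine ⟨p1, ?_⟩
      rintro _ ⟨g, hg, rfl⟩ hgG hgl
      exact p2 g ((map_isG k _).1 hgG) fun n => (map_lt k _ _).1 (hgl n))
  obtain ⟨b1, b2, b3⟩ := limG hN (k '' C) hC' (fun n => k (j (gam n))) (fun n => k (j (eps n)))
    (fun n => ⟨hG _ (coheirCut_isGgam n), hmem _⟩) (fun n => ⟨hE _ (coheirCut_isEeps n), hmem _⟩)
    (fun n m h => ⟨hL _ _ (coheirCut_gamlt h), hL _ _ (coheirCut_epslt h),
      hD _ _ _ (coheirCut_gamd h)⟩)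
    (b 1) f3 f4 (by
      rintro _ ⟨g, hg, rfl⟩ hgG hgl
      exact g2 g ((map_isG k _).1 hgG) fun n => (map_lt k _ _).1 (hgl n)) (by
      rintro _ ⟨e, he, rfl⟩ heE hel
      exact g3 e ((map_isE k _).1 heE) fun n => (map_lt k _ _).1 (hel n))
  obtain ⟨c1, c2, c3⟩ := limG hN (k '' C) hC' (fun n => k (j (gam n))) (fun n => k (j (eps n)))
    (fun n => ⟨hG _ (coheirCut_isGgam n), hmem _⟩) (fun n => ⟨hE _ (coheirCut_isEeps n), hmem _⟩)
    (fun n m h => ⟨hL _ _ (coheirCut_gamlt h), hL _ _ (coheirCut_epslt h),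
      hD _ _ _ (coheirCut_gamd h)⟩)
    (d (b 0) (k c₀)) a1 a2 (by
      rintro _ ⟨g, hg, rfl⟩ hgG hgl
      exact (g1 c₀ hc₀).2 g ((map_isG k _).1 hgG) fun n => (map_lt k _ _).1 (hgl n)) (by
      rintro _ ⟨e, he, rfl⟩ heE hel
      exact g4 e ((map_isE k _).1 heE) fun n => (map_lt k _ _).1 (hel n))
  have hX := limClos hN (k '' C) hC' (b 0) (b 1) (d (b 0) (k c₀))
    (d (d (b 0) (k c₀)) (k (j (gam 0)))) (d (b 1) (k (j (gam 0)))) f1 f3 a1 c1 b1
    (fun u hu huK => (a3 u hu huK).2) (fun g hg hgG => (b3 g hg hgG).2)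
    (fun g hg hgG => (c3 g hg hgG).2) _ rfl
  set X : Set N := k '' C ∪ {b 0, b 1, d (b 0) (k c₀),
    d (d (b 0) (k c₀)) (k (j (gam 0))), d (b 1) (k (j (gam 0))), d (d (b 0) (k c₀)) (b 1)} with hXdef
  have hterm : ∀ t : LL.Term (Fin 2 ⊕ C), t.realize (Sum.elim b (fun u : C => k u)) ∈ X := by
    intro t
    induction t with
    | var i =>
      rcases i with i | u
      · show b i ∈ X
        rw [hXdef]
        fin_cases i
        · right; simp
        · right; simp
      · left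
        exact ⟨u, u.2, rfl⟩
    | func f ts ih =>
      cases f
      have h2 := hX _ (ih 0) _ (ih 1)
      have h3 : (Term.func dSym ts : LL.Term (Fin 2 ⊕ C)).realize (Sum.elim b (fun u : C => k u)) =
          d ((ts 0).realize (Sum.elim b (fun u : C => k u)))
            ((ts 1).realize (Sum.elim b (fun u : C => k u))) := by
        show Structure.funMap dSym (fun i => (ts i).realize (Sum.elim b (fun u : C => k u))) =
          Structure.funMap dSym _
        congr 1
        funext i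
        fin_cases i <;> rfl
      exact h3 ▸ h2
  have hyX : y ∈ X := by rw [hy]; exact hterm t
  have hbelow : ∀ z : N, (∀ n, lt z (k (j (eps n)))) → ∃ m : ℚ, (m : ℝ) < α ∧ ¬ lt (k (j (S.e m))) z := by
    intro z hz
    obtain ⟨n, hn⟩ := exists_nat_gt (-α)
    refine ⟨-(n : ℚ), ?_, fun h => ?_⟩
    · push_cast
      linarith
    · exact hN.irrefl _ (hN.trans _ _ _ h (hz n))
  have hr' : ∀ φ : LL.Formula (Fin 2 ⊕ U), φ ∈ r ↔ φ.Realize (Sum.elim b k) := by
    intro φ
    rw [← hb]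
    exact Iff.rfl
  rw [hXdef] at hyX
  rcases hyX with ⟨u, hu, rfl⟩ | hyX
  · exact Or.inl ⟨u, hu, rfl⟩
  · simp only [Set.mem_insert_iff, Set.mem_singleton_iff] at hyX
    rcases hyX with h | h | h | h | h | h
    · exact absurd f1 (by rw [← h]; exact hyE.2)
    · exact absurd f3 (by rw [← h]; exact hyE.1)
    · exact absurd a1 (by rw [← h]; exact hyE.1)
    · right; left
      rw [h]
      exact hbelow _ c2
    · right; left
      rw [h]
      exact hbelow _ b2
    · right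
      have hev : (eT c₀).realize (Sum.elim b k) = y := by
        rw [h, eT, realize_dT, realize_dT]
        rfl
      have hex' : ∃ m : ℚ, ¬ (((m : ℝ) < α → ltF (Term.var (Sum.inr (j (S.e m)))) (eT c₀) ∈ r) ∧
          (α < m → ltF (eT c₀) (Term.var (Sum.inr (j (S.e m)))) ∈ r)) := by
        by_contra hcon
        push Not at hcon
        exact hex fun m => ⟨fun hm => (hcon m).1 hm, fun hm => (hcon m).2 hm⟩
      obtain ⟨m, hm⟩ := hex'
      rw [not_and_or] at hm
      rcases hm with hm | hm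
      · left
        push Not at hm
        refine ⟨m, hm.1, fun hlt => hm.2 ?_⟩
        rw [hr', realize_ltF, hev]
        exact hlt
      · right
        push Not at hm
        refine ⟨m, hm.1, fun hlt => hm.2 ?_⟩
        rw [hr', realize_ltF, hev]
        exact hlt

end Pool.Agent.H726T
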