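import Pool.Agent.H726T.TDefs2

set_option autoImplicit false

open FirstOrder FirstOrder.Language FirstOrder.Language.Structure Cardinal
open Pool.Agent.Y562.NWO

namespace Pool.Agent.H726T

theorem commof_iff {L : FirstOrder.Language.{0, 0}} {U : Type} [L.Structure U] {δ γ₁ γ₂ : Type}
    {q : Set (L.Formula (δ ⊕ U))} (hq : IsGlobalType q) (φ : L.Formula γ₁) (ψ : L.Formula γ₂)
    (f : γ₁ → δ ⊕ U) (g : γ₂ → δ ⊕ U)
    (h : ∀ (N : Type) [L.Structure N] (v : δ → N) (c : U → N),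
      φ.Realize (Sum.elim v c ∘ f) ↔ ψ.Realize (Sum.elim v c ∘ g)) :
    φ.relabel f ∈ q ↔ ψ.relabel g ∈ q := by
  obtain ⟨N, _, j, a, rfl⟩ := hq
  change Formula.Realize _ _ ↔ Formula.Realize _ _
  rw [Formula.realize_relabel, Formula.realize_relabel]
  exact h N a j

theorem commof_iff0 {L : FirstOrder.Language.{0, 0}} {U : Type} [L.Structure U] {δ γ₂ : Type}
    {q : Set (L.Formula (δ ⊕ U))} (hq : IsGlobalType q) (φ : L.Formula (δ ⊕ U)) (ψ : L.Formula γ₂)
    (g : γ₂ → δ ⊕ U)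
    (h : ∀ (N : Type) [L.Structure N] (v : δ → N) (c : U → N),
      φ.Realize (Sum.elim v c) ↔ ψ.Realize (Sum.elim v c ∘ g)) :
    φ ∈ q ↔ ψ.relabel g ∈ q := by
  obtain ⟨N, _, j, a, rfl⟩ := hq
  change Formula.Realize _ _ ↔ Formula.Realize _ _
  rw [Formula.realize_relabel]
  exact h N a j

/-- a criterion for commuting.  Take `s`, `t` from `exists_tensor` for `(p, r)` and `(r, p)`.  Given `φ : L.Formula ((α ⊕ β) ⊕ U)`, `finite_params φ` gives a finite set `F` of parameters and `φ₀` over `F` with `φ.Realize (Sum.elim x c) ↔ φ₀.Realize (Sum.elim x (c ∘ ↑))`.  Take `C` from `h F`, and `a`, `b'` realising `p`, `r` over `C` (`exists_realizes`); they realise `p`, `r` over `A ∪ F` (`Realizes.mono`).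
Let `φ₁ : L.Formula ((α ⊕ β) ⊕ (A ∪ F : Set U))` be `φ₀` relabelled along the inclusion; `φ ∈ s ↔ φ₁.relabel (Sum.map id (↑)) ∈ s` as `s` is a global type (`s = tp _ _`); by `IsTensor A p r s` this is `φ₁.relabel (Sum.elim (Sum.map id b') (fun u => Sum.inr ↑u)) ∈ p`, and by `h` for `ψ :=` `φ₁` relabelled to `C` (again up to equivalence of formulas, as `p`, `r` are global types) this is equivalent to
`ψ.relabel (Sum.elim (Sum.elim (fun i => Sum.inr (a i)) Sum.inl) (fun u => Sum.inr ↑u)) ∈ r`, which by `IsTensor A r p t` (for the formula `φ₁.relabel (Sum.map Sum.swap id)` in the variables `β ⊕ α`, and the realisation `a` of `p`) is `φ.relabel (Sum.map Sum.swap id) ∈ t`. (Useful lemmas in Pool/Agent/Y562/NWO/{Basic,Types,Tensor}.lean, namespace `Pool.Agent.Y562.NWO`: `mem_tp`, `not_mem_iff`, `relabel_mem_iff`, `exists_of_mem`, `finite_params`, `exists_conj`, `el_ex`, `el_all`, `compact`, `Realizes.apply`, `Realizes.mono`, `exists_realizes`,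 `exists_tensor`, `small_union`, `small_finite`, `inv_mem`, `Realizes.hom`.) -/
theorem comm_of {L : FirstOrder.Language.{0, 0}} {U : Type} [L.Structure U] {κ : Cardinal.{0}}
    (hU : IsMonster κ L U) [Nonempty U] {α β : Type} [Finite α] [Finite β]
    {p : Set (L.Formula (α ⊕ U))} {r : Set (L.Formula (β ⊕ U))} (hp : IsGlobalType p)
    (hr : IsGlobalType r) (A : Set U) (hA : #A < κ) (ip : Invariant A p) (ir : Invariant A r)
    (h : ∀ F : Set U, F.Finite → ∃ C : Set U, A ∪ F ⊆ C ∧ #C < κ ∧ ∀ (a : α → U) (b' : β → U),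
      Realizes C p a → Realizes C r b' → ∀ ψ : L.Formula ((α ⊕ β) ⊕ C),
        (ψ.relabel (Sum.elim (Sum.map id b') (fun u : C => Sum.inr (u : U))) ∈ p ↔
          ψ.relabel (Sum.elim (Sum.elim (fun i => Sum.inr (a i)) Sum.inl)
            (fun u : C => Sum.inr (u : U))) ∈ r)) : Commute A p r := by
  obtain ⟨s, hsg, hs⟩ := exists_tensor hU hp hr hA ip
  obtain ⟨t, htg, ht⟩ := exists_tensor hU hr hp hA ir
  refine ⟨s, t, hsg, htg, hs, ht, fun φ => ?_⟩
  obtain ⟨F, φ₀, hφ₀⟩ := finite_params φ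
  have hF : (F : Set U).Finite := F.finite_toSet
  obtain ⟨C, hDC, hC, hψ⟩ := h F hF
  obtain ⟨a, ha⟩ := exists_realizes hU hp C hC
  obtain ⟨b, hb⟩ := exists_realizes hU hr C hC
  have haD : Realizes (A ∪ (F : Set U)) p a := ha.mono hp hDC
  have hbD : Realizes (A ∪ (F : Set U)) r b := hb.mono hr hDC
  obtain ⟨φ₁, hφ₁⟩ : ∃ φ₁ : L.Formula ((α ⊕ β) ⊕ (A ∪ (F : Set U) : Set U)),
      φ₁ = φ₀.relabel (Sum.map id (fun i : F => (⟨i, Or.inr i.2⟩ : (A ∪ (F : Set U) : Set U)))) :=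
    ⟨_, rfl⟩
  obtain ⟨ψ, hψ0⟩ : ∃ ψ : L.Formula ((α ⊕ β) ⊕ C),
      ψ = φ₀.relabel (Sum.map id (fun i : F => (⟨i, hDC (Or.inr i.2)⟩ : C))) := ⟨_, rfl⟩
  have e1 : φ ∈ s ↔ φ₁.relabel (Sum.map id
      (fun u : (A ∪ (F : Set U) : Set U) => (u : U))) ∈ s := by
    refine commof_iff0 hsg _ _ _ fun N _ v c => ?_
    rw [hφ₀, hφ₁, Formula.realize_relabel]
    refine iff_of_eq (congrArg _ ?_)
    funext i
    rcases i with (i | i) | i <;> rfl
  have e2 := (hs F hF).2 b hbD φ₁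
  have e3 : φ₁.relabel (Sum.elim (Sum.map id b)
        (fun u : (A ∪ (F : Set U) : Set U) => Sum.inr (u : U))) ∈ p ↔
      ψ.relabel (Sum.elim (Sum.map id b) (fun u : C => Sum.inr (u : U))) ∈ p := by
    refine commof_iff hp _ _ _ _ fun N _ v c => ?_
    rw [hφ₁, hψ0, Formula.realize_relabel, Formula.realize_relabel]
    refine iff_of_eq (congrArg _ ?_)
    funext i
    rcases i with (i | i) | i <;> rfl
  have e4 := hψ a b ha hb ψ
  have e5 : ψ.relabel (Sum.elim (Sum.elim (fun i => Sum.inr (a i)) Sum.inl)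
        (fun u : C => Sum.inr (u : U))) ∈ r ↔
      (φ₁.relabel (Sum.map Sum.swap id)).relabel (Sum.elim (Sum.map id a)
        (fun u : (A ∪ (F : Set U) : Set U) => Sum.inr (u : U))) ∈ r := by
    refine commof_iff hr _ _ _ _ fun N _ v c => ?_
    rw [hφ₁, hψ0, Formula.realize_relabel, Formula.realize_relabel, Formula.realize_relabel]
    refine iff_of_eq (congrArg _ ?_)
    funext i
    rcases i with (i | i) | i <;> rfl
  have e6 := (ht F hF).2 a haD (φ₁.relabel (Sum.map Sum.swap id))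
  have e7 : φ.relabel (Sum.map Sum.swap id) ∈ t ↔
      (φ₁.relabel (Sum.map Sum.swap id)).relabel (Sum.map id
        (fun u : (A ∪ (F : Set U) : Set U) => (u : U))) ∈ t := by
    refine commof_iff htg _ _ _ _ fun N _ v c => ?_
    have e8 : Sum.elim v c ∘ (Sum.map Sum.swap id : (α ⊕ β) ⊕ U → (β ⊕ α) ⊕ U) =
        Sum.elim (v ∘ Sum.swap) c := by
      funext i
      rcases i with (i | i) | i <;> rfl
    rw [e8, hφ₀, hφ₁, Formula.realize_relabel, Formula.realize_relabel]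
    refine iff_of_eq (congrArg _ ?_)
    funext i
    rcases i with (i | i) | i <;> rfl
  exact e1.trans (e2.trans (e3.trans (e4.trans (e5.trans (e6.symm.trans e7.symm)))))

end Pool.Agent.H726T
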