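import Pool.Agent.H726T.ExtOne

set_option autoImplicit false

open FirstOrder FirstOrder.Language FirstOrder.Language.Structure

namespace Pool.Agent.H726T

theorem cutPI_asymm {N : Type} [LL.Structure N] (hN : Ax N) {x y : N} (h : lt x y) : ¬ lt y x :=
  fun h' => hN.irrefl x (hN.trans x y x h h')

theorem cutPI_le_lt {N : Type} [LL.Structure N] (hN : Ax N) {x y z : N} (h : ¬ lt y x) (h' : lt y z) :
    lt x z := by
  by_cases e : x = y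
  · rw [e]; exact h'
  · rcases hN.total x y e with h1 | h1
    · exact hN.trans x y z h1 h'
    · exact absurd h1 h

theorem cutPI_lt_le {N : Type} [LL.Structure N] (hN : Ax N) {x y z : N} (h : ¬ lt z y) (h' : lt x y) :
    lt x z := by
  by_cases e : y = z
  · rw [← e]; exact h'
  · rcases hN.total y z e with h1 | h1
    · exact hN.trans x y z h' h1
    · exact absurd h1 h

/-- adding a realisation of a cut.  Use `extOne`: `a` is in `E`, so `same a₁ x` never holds (h3 is void).  For `(x, y) ∈ R`: if `y ∉ E` then `x ∉ E` and `a₁ < x`, `a < y` (`eg`, `ek`), and not conversely.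
If `y ∈ E`: case `y = i u`, `u ∈ C`: `R (i₁ u) (i u)`, so `x = i₁ u` (`PI.inj`), use `h1`, `h2`.  Case `m ∈ Lo`, `¬ i m < y`: `¬ i₁ m < x` (`R (i₁ m) (i m)`), so `y ≤ i m < a` (`h1`) and `x ≤ i₁ m < a₁`.  The case `m ∈ Hi` is symmetric. -/
theorem cutPI {U N₁ N : Type} [LL.Structure N₁] [LL.Structure N] (hN₁ : Ax N₁) (hN : Ax N)
    (C Lo Hi : Set U) (hLo : Lo ⊆ C) (hHi : Hi ⊆ C) (i₁ : U → N₁) (i : U → N)
    (R : N₁ → N → Prop) (hR : PI R) (hRC : ∀ u ∈ C, R (i₁ u) (i u)) (a₁ : N₁) (a : N)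
    (ha₁ : isE a₁) (ha : isE a) (h1 : ∀ u ∈ C, lt (i₁ u) a₁ ↔ lt (i u) a)
    (h2 : ∀ u ∈ C, lt a₁ (i₁ u) ↔ lt a (i u)) (hlo : ∀ m ∈ Lo, lt (i₁ m) a₁)
    (hhi : ∀ m ∈ Hi, lt a₁ (i₁ m))
    (h : ∀ x y, R x y → isE y → (∃ u ∈ C, y = i u) ∨ (∃ m ∈ Lo, ¬ lt (i m) y) ∨
      (∃ m ∈ Hi, ¬ lt y (i m))) :
    PI (fun x y => R x y ∨ (x = a₁ ∧ y = a)) := by
  have key : ∀ x y, R x y → (lt x a₁ ↔ lt y a) ∧ (lt a₁ x ↔ lt a y) := by
    intro x y hxy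
    have hup : lt a₁ x → lt a y → (lt x a₁ ↔ lt y a) ∧ (lt a₁ x ↔ lt a y) := fun p q =>
      ⟨⟨fun r => absurd r (cutPI_asymm hN₁ p), fun r => absurd r (cutPI_asymm hN q)⟩,
        ⟨fun _ => q, fun _ => p⟩⟩
    have hdn : lt x a₁ → lt y a → (lt x a₁ ↔ lt y a) ∧ (lt a₁ x ↔ lt a y) := fun p q =>
      ⟨⟨fun _ => q, fun _ => p⟩,
        ⟨fun r => absurd r (cutPI_asymm hN₁ p), fun r => absurd r (cutPI_asymm hN q)⟩⟩
    by_cases hyG : isG y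
    · exact hup (hN₁.eg a₁ x ha₁ ((hR.isG x y hxy).2 hyG)) (hN.eg a y ha hyG)
    by_cases hyK : isK y
    · exact hup (hN₁.ek a₁ x ha₁ ((hR.isK x y hxy).2 hyK)) (hN.ek a y ha hyK)
    rcases h x y hxy ⟨hyG, hyK⟩ with ⟨u, hu, rfl⟩ | ⟨m, hm, hml⟩ | ⟨m, hm, hml⟩
    · have e : x = i₁ u := (PI.inj hR hN₁ hN hxy (hRC u hu)).2 rfl
      rw [e]
      exact ⟨h1 u hu, h2 u hu⟩
    · have hmC : m ∈ C := hLo hm
      have hx : ¬ lt (i₁ m) x := fun q => hml ((hR.lt _ _ _ _ (hRC m hmC) hxy).1 q)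
      exact hdn (cutPI_le_lt hN₁ hx (hlo m hm)) (cutPI_le_lt hN hml ((h1 m hmC).1 (hlo m hm)))
    · have hmC : m ∈ C := hHi hm
      have hx : ¬ lt x (i₁ m) := fun q => hml ((hR.lt _ _ _ _ hxy (hRC m hmC)).1 q)
      exact hup (cutPI_lt_le hN₁ hx (hhi m hm)) (cutPI_lt_le hN hml ((h2 m hmC).1 (hhi m hm)))
  refine extOne hN₁ hN hR a₁ a ?_ ?_ (fun x y hxy => (key x y hxy).1) (fun x y hxy => (key x y hxy).2)
    ?_
  · exact ⟨fun q => absurd q ha₁.1, fun q => absurd q ha.1⟩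
  · exact ⟨fun q => absurd q ha₁.2, fun q => absurd q ha.2⟩
  · intro x y _ hs
    rcases hs with q | q
    · exact absurd q.1 ha₁.1
    · exact absurd q.1 ha₁.2

end Pool.Agent.H726T
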