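import Pool.Agent.H726T.TDefs2
import Pool.Agent.H726T.SeqS
import Pool.Agent.H726T.AxS
import Pool.Agent.H726T.AxN

set_option autoImplicit false

open FirstOrder FirstOrder.Language FirstOrder.Language.Structure Cardinal
open Pool.Agent.Y562.NWO

namespace Pool.Agent.H726T

/-- eventually `x.1 > n` -/
theorem facts_ev {α : ℝ} (𝓥 : Ultrafilter (ℕ × ℚ))
    (h𝓥 : (𝓥 : Filter (ℕ × ℚ)) ≤ Filter.atTop ×ˢ FE α) (n : ℕ) :
    ∀ᶠ x in (𝓥 : Filter (ℕ × ℚ)), n < x.1 :=
  h𝓥 (Filter.Tendsto.eventually (f := fun x : ℕ × ℚ => x.1) Filter.tendsto_fst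
    (Filter.eventually_gt_atTop n))

/-- realisations of a limit type -/
theorem facts_lim {U : Type} [LL.Structure U] {I δ : Type} (𝓤 : Ultrafilter I) (v : I → δ → U)
    {N : Type} [LL.Structure N] (k : U ↪ₑ[LL] N) (b : δ → N) (hb : tp k b = lim 𝓤 v)
    (φ : LL.Formula (δ ⊕ U)) (h : ∀ᶠ i in (𝓤 : Filter I), φ.Realize (Sum.elim (v i) id)) :
    φ.Realize (Sum.elim b k) := by
  have h1 : φ ∈ lim 𝓤 v := h
  rw [← hb] at h1
  exact h1

theorem facts_lim_not {U : Type} [LL.Structure U] {I δ : Type} (𝓤 : Ultrafilter I) (v : I → δ → U)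
    {N : Type} [LL.Structure N] (k : U ↪ₑ[LL] N) (b : δ → N) (hb : tp k b = lim 𝓤 v)
    (φ : LL.Formula (δ ⊕ U)) (h : ∀ᶠ i in (𝓤 : Filter I), ¬ φ.Realize (Sum.elim (v i) id)) :
    ¬ φ.Realize (Sum.elim b k) := by
  intro h1
  have h2 : φ ∈ lim 𝓤 v := by rw [← hb]; exact h1
  have h3 : ∀ᶠ i in (𝓤 : Filter I), φ.Realize (Sum.elim (v i) id) := h2
  obtain ⟨i, h4, h5⟩ := (h3.and h).exists
  exact h5 h4

/-- the realisations of the limit types of pairs.  `tp k b = rT j 𝓥` means: `φ.Realize (Sum.elim b k)` iff eventually (along `𝓥`) `φ.Realize (Sum.elim ![j (ff x.1), j (gg x.1 x.2)] id)`.  Apply it to the formulas `kF (var (inl 0))`,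
`Term.equal (dT (var (inl 0)) (var (inr (j (ff n))))) (var (inr (j (gam n))))`, `gF (var (inl 1))`, `ltF (var (inr (j (gam n)))) (var (inl 1))`; use `map_d`, `map_lt`, ... and `seqS`: for `x.1 > n`: `d (ff x.1) (ff n) = d (ff n) (ff x.1) = gam n`, and `gam n < gam x.1 < gg x.1 x.2`. -/
theorem limFacts {U : Type} [LL.Structure U] (j : S ↪ₑ[LL] U) (α : ℝ) (𝓥 : Ultrafilter (ℕ × ℚ))
    (h𝓥 : (𝓥 : Filter (ℕ × ℚ)) ≤ Filter.atTop ×ˢ FE α) {N : Type} [LL.Structure N]
    (k : U ↪ₑ[LL] N) (b : Fin 2 → N) (hb : tp k b = rT j 𝓥) :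
    isK (b 0) ∧ (∀ n, d (b 0) (k (j (ff n))) = k (j (gam n))) ∧ isG (b 1) ∧
      ∀ n, lt (k (j (gam n))) (b 1) := by
  have hK : ∀ n, isK (ff n) := fun n => ⟨_, rfl⟩
  have hG : ∀ n e, isG (gg n e) := fun n e => ⟨_, rfl⟩
  refine ⟨?_, fun n => ?_, ?_, fun n => ?_⟩
  · have h := facts_lim 𝓥 _ k b hb (kF (Term.var (Sum.inl 0)))
      (Filter.Eventually.of_forall fun x => by
        rw [realize_kF]
        exact (map_isK j _).2 (hK x.1))
    rw [realize_kF] at h
    exact h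
  · have h := facts_lim 𝓥 _ k b hb (Term.equal (dT (Term.var (Sum.inl 0))
      (Term.var (Sum.inr (j (ff n))))) (Term.var (Sum.inr (j (gam n)))))
      ((facts_ev 𝓥 h𝓥 n).mono fun x hx => by
        rw [Formula.realize_equal, realize_dT]
        show d (j (ff x.1)) (j (ff n)) = j (gam n)
        rw [← map_d, axS.d_symm _ _ (Or.inr ⟨hK _, hK _⟩), (seqS.1 n x.1 hx).2.2.1])
    rw [Formula.realize_equal, realize_dT] at h
    exact h
  · have h := facts_lim 𝓥 _ k b hb (gF (Term.var (Sum.inl 1)))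
      (Filter.Eventually.of_forall fun x => by
        rw [realize_gF]
        exact (map_isG j _).2 (hG x.1 x.2))
    rw [realize_gF] at h
    exact h
  · have h := facts_lim 𝓥 _ k b hb (ltF (Term.var (Sum.inr (j (gam n)))) (Term.var (Sum.inl 1)))
      ((facts_ev 𝓥 h𝓥 n).mono fun x hx => by
        rw [realize_ltF]
        show lt (j (gam n)) (j (gg x.1 x.2))
        rw [map_lt]
        exact axS.trans _ _ _ (seqS.1 n x.1 hx).1 (seqS.2.2.2.2 x.1 x.2).1)
    rw [realize_ltF] at h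
    exact h

/-- the realisations of the limit types `e → α⁺`.  The same with the formulas `gF`, `kF` (negated) of `var (inl 0)`, and `ltF`: for `m < α`: `m < e` for all `e > α`; for `α < m`: eventually `e < m` (`mem_FE_iff`). -/
theorem pFacts {U : Type} [LL.Structure U] (j : S ↪ₑ[LL] U) (α : ℝ) (𝓤 : Ultrafilter ℚ)
    (h𝓤 : (𝓤 : Filter ℚ) ≤ FE α) {N : Type} [LL.Structure N]
    (k : U ↪ₑ[LL] N) (a : Fin 1 → N) (ha : tp k a = pT j 𝓤) :
    isE (a 0) ∧ (∀ m : ℚ, (m : ℝ) < α → lt (k (j (S.e m))) (a 0)) ∧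
      ∀ m : ℚ, α < m → lt (a 0) (k (j (S.e m))) := by
  have hgt : ∀ᶠ e : ℚ in (𝓤 : Filter ℚ), α < (e : ℝ) := by
    refine h𝓤 ?_
    rw [FE, Filter.mem_comap]
    exact ⟨Set.Ioi α, self_mem_nhdsWithin, fun e he => he⟩
  refine ⟨⟨?_, ?_⟩, fun m hm => ?_, fun m hm => ?_⟩
  · have h := facts_lim_not 𝓤 _ k a ha (gF (Term.var (Sum.inl 0)))
      (Filter.Eventually.of_forall fun e => by
        rw [realize_gF]
        show ¬ isG (j (S.e e))
        rw [map_isG]
        rintro ⟨y, hy⟩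
        exact S.noConfusion hy)
    rw [realize_gF] at h
    exact h
  · have h := facts_lim_not 𝓤 _ k a ha (kF (Term.var (Sum.inl 0)))
      (Filter.Eventually.of_forall fun e => by
        rw [realize_kF]
        show ¬ isK (j (S.e e))
        rw [map_isK]
        rintro ⟨y, hy⟩
        exact S.noConfusion hy)
    rw [realize_kF] at h
    exact h
  · have h := facts_lim 𝓤 _ k a ha (ltF (Term.var (Sum.inr (j (S.e m)))) (Term.var (Sum.inl 0)))
      (hgt.mono fun e he => by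
        rw [realize_ltF]
        show lt (j (S.e m)) (j (S.e e))
        rw [map_lt]
        show m < e
        exact Rat.cast_lt.1 (hm.trans he))
    rw [realize_ltF] at h
    exact h
  · have hlt : ∀ᶠ e in (𝓤 : Filter ℚ), e < m :=
      h𝓤 (mem_FE_iff.2 ⟨m, hm, fun e _ he => he⟩)
    have h := facts_lim 𝓤 _ k a ha (ltF (Term.var (Sum.inl 0)) (Term.var (Sum.inr (j (S.e m)))))
      (hlt.mono fun e he => by
        rw [realize_ltF]
        show lt (j (S.e e)) (j (S.e m))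
        rw [map_lt]
        exact he)
    rw [realize_ltF] at h
    exact h

end Pool.Agent.H726T
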