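import Pool.Agent.H726T.TDefs2

set_option autoImplicit false

open FirstOrder FirstOrder.Language FirstOrder.Language.Structure Cardinal
open Pool.Agent.Y562.NWO

namespace Pool.Agent.H726T

theorem limbasic_aut {L : FirstOrder.Language.{0, 0}} {U δ : Type} [L.Structure U] (σ : U ≃[L] U)
    (w : δ → U) (hw : ∀ k, σ (w k) = w k) (φ : L.Formula (δ ⊕ U)) :
    φ.Realize (Sum.elim w id) ↔ (φ.relabel (Sum.map id σ)).Realize (Sum.elim w id) := by
  rw [Formula.realize_relabel]
  have e : (Sum.elim w id ∘ Sum.map id σ : δ ⊕ U → U) = σ ∘ Sum.elim w id := by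
    funext i
    rcases i with i | i
    · simp [hw]
    · simp
  rw [e]
  exact (StrongHomClass.realize_formula σ φ).symm

/-- limit types are global types.  Copy the proof of `Pool.Agent.Y562.NWO.compact` (in Basic.lean): `N := (𝓤 : Filter I).Product (fun _ => U)`, the diagonal embedding `j`, and the tuple `fun d => [fun i => v i d]`;
`Ultraproduct.realize_formula_cast`.  No nonemptiness of `U` should be needed beyond what `Ultraproduct` wants (if `U` is empty: `I` nonempty since `𝓤` is an ultrafilter; if `[Nonempty U]` is really required by Mathlib, treat the case `IsEmpty U` separately (take `N = U`: then `δ` is empty), or else report). (Useful lemmas in Pool/Agent/Y562/NWO/{Basic,Types,Tensor}.lean, namespace `Pool.Agent.Y562.NWO`: `mem_tp`, `not_mem_iff`, `relabel_mem_iff`, `exists_of_mem`, `finite_params`, `exists_conj`, `el_ex`, `el_all`, `compact`, `Realizes.apply`, `Realizes.mono`, `exists_realizes`, `exists_tensor`, `small_union`, `small_finite`, `inv_mem`, `Realizes.hom`.) -/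
theorem lim_global {L : FirstOrder.Language.{0, 0}} {U : Type} [L.Structure U] {I δ : Type}
    (𝓤 : Ultrafilter I) (v : I → δ → U) : IsGlobalType (lim (L := L) 𝓤 v) := by
  classical
  rcases isEmpty_or_nonempty U with hU | hU
  · -- `δ` is empty
    have hI : Nonempty I := 𝓤.neBot.nonempty
    obtain ⟨i₀⟩ := hI
    refine ⟨U, inferInstance, ElementaryEmbedding.refl L U, v i₀, ?_⟩
    ext φ
    have hv : ∀ i, v i = v i₀ := fun i => funext fun k => (hU.false (v i k)).elim
    change (∀ᶠ i in (𝓤 : Filter I), φ.Realize (Sum.elim (v i) id)) ↔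
      φ.Realize (Sum.elim (v i₀) (ElementaryEmbedding.refl L U))
    have e : (Sum.elim (v i₀) (ElementaryEmbedding.refl L U) : δ ⊕ U → U) = Sum.elim (v i₀) id := by
      funext i
      rcases i with i | i <;> rfl
    rw [e]
    simp only [hv]
    exact Filter.eventually_const
  · let N := (𝓤 : Filter I).Product (fun _ => U)
    let j : U ↪ₑ[L] N :=
      { toFun := fun u => ((fun _ => u : I → U) : (𝓤 : Filter I).Product (fun _ => U))
        map_formula' := by
          intro n φ x
          have := Ultraproduct.realize_formula_cast (u := 𝓤) (M := fun _ : I => U) φ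
            (fun i _ => x i)
          refine this.trans ?_
          simp }
    refine ⟨N, inferInstance, j, fun d => ((fun F => v F d : I → U) :
      (𝓤 : Filter I).Product (fun _ => U)), ?_⟩
    ext φ
    have e : (Sum.elim (fun d => ((fun F => v F d : I → U) :
        (𝓤 : Filter I).Product (fun _ => U))) j : δ ⊕ U → N) =
        fun i => ((fun F => Sum.elim (v F) id i : I → U) :
          (𝓤 : Filter I).Product (fun _ => U)) := by
      funext i
      rcases i with i | i <;> rfl
    change (∀ᶠ i in (𝓤 : Filter I), φ.Realize (Sum.elim (v i) id)) ↔ φ.Realize _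
    rw [e]
    exact (Ultraproduct.realize_formula_cast (u := 𝓤) (M := fun _ : I => U) φ
      (fun i F => Sum.elim (v F) id i)).symm

/-- limit types of tuples of `A` are invariant over `A`.  `φ.relabel (Sum.map id σ) ∈ lim` iff eventually `φ.Realize (Sum.elim (v i) σ)` iff eventually (applying the automorphism `σ`, which fixes `v i k`) `φ.Realize (Sum.elim (v i) id)`; use `StrongHomClass.realize_formula`. -/
theorem lim_inv {L : FirstOrder.Language.{0, 0}} {U : Type} [L.Structure U] {I δ : Type} (A : Set U)
    (𝓤 : Ultrafilter I) (v : I → δ → U) (hv : ∀ i k, v i k ∈ A) :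
    Invariant A (lim (L := L) 𝓤 v) := by
  intro σ hσ φ
  change (∀ᶠ i in (𝓤 : Filter I), φ.Realize (Sum.elim (v i) id)) ↔
    (∀ᶠ i in (𝓤 : Filter I), (φ.relabel (Sum.map id σ)).Realize (Sum.elim (v i) id))
  refine Filter.eventually_congr (Filter.Eventually.of_forall fun i => ?_)
  exact limbasic_aut σ (v i) (fun k => hσ _ (hv i k)) φ

/-- coheirs are invariant.  Suppose `φ ∈ r` but `φ.relabel (Sum.map id σ) ∉ r` (the other direction is the same with `σ.symm` or with `φ.not`); then `φ ⊓ (φ.relabel (Sum.map id σ)).not ∈ r` (`r` is a global type `tp k b`), so some tuple `m` of `M` satisfies it: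
`φ.Realize (Sum.elim (j ∘ m) id)` and not `φ.Realize (Sum.elim (j ∘ m) σ)`; but `σ` fixes `j ∘ m`. -/
theorem coheir_inv {L : FirstOrder.Language.{0, 0}} {M U β : Type} [L.Structure M] [L.Structure U]
    (j : M ↪ₑ[L] U) {q : Set (L.Formula (β ⊕ M))} {r : Set (L.Formula (β ⊕ U))}
    (h : IsCoheir j q r) : Invariant (Set.range j) r := by
  intro σ hσ φ
  obtain ⟨hg, -, hf⟩ := h
  have hs : ∀ m : β → M, ∀ ψ : L.Formula (β ⊕ U), ψ.Realize (Sum.elim (fun i => j (m i)) id) ↔
      (ψ.relabel (Sum.map id σ)).Realize (Sum.elim (fun i => j (m i)) id) := fun m ψ =>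
    limbasic_aut σ (fun i => j (m i)) (fun k => hσ _ ⟨m k, rfl⟩) ψ
  obtain ⟨N, _, k, b, rfl⟩ := hg
  change φ.Realize (Sum.elim b k) ↔ (φ.relabel (Sum.map id σ)).Realize (Sum.elim b k)
  constructor
  · intro h1
    by_contra h2
    obtain ⟨m, hm⟩ := hf (φ ⊓ (φ.relabel (Sum.map id σ)).not) (by
      change (φ ⊓ (φ.relabel (Sum.map id σ)).not).Realize (Sum.elim b k)
      rw [Formula.realize_inf, Formula.realize_not]
      exact ⟨h1, h2⟩)
    rw [Formula.realize_inf, Formula.realize_not] at hm
    exact hm.2 ((hs m φ).1 hm.1)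
  · intro h1
    by_contra h2
    obtain ⟨m, hm⟩ := hf ((φ.relabel (Sum.map id σ)) ⊓ φ.not) (by
      change ((φ.relabel (Sum.map id σ)) ⊓ φ.not).Realize (Sum.elim b k)
      rw [Formula.realize_inf, Formula.realize_not]
      exact ⟨h1, h2⟩)
    rw [Formula.realize_inf, Formula.realize_not] at hm
    exact hm.2 ((hs m φ).2 hm.1)

end Pool.Agent.H726T
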