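import Pool.Agent.H726T.Defs

/-!
Extension inside `Lex (A →₀ ℚ)`.
-/
set_option autoImplicit false

open FirstOrder FirstOrder.Language FirstOrder.Language.Structure

namespace Pool.Agent.H726T

theorem lexExt_below {A : Type} [LinearOrder A] [Inhabited A] (x y : A →₀ ℚ) (j : A)
    (hj : j < dl x y) : x j = y j := by
  by_contra hne
  have hmem : j ∈ x.neLocus y := Finsupp.mem_neLocus.mpr hne
  have hn : (x.neLocus y).Nonempty := ⟨j, hmem⟩
  rw [dl, dif_pos hn] at hj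
  exact absurd (Finset.min'_le _ j hmem) (not_le.mpr hj)

theorem lexExt_at {A : Type} [LinearOrder A] [Inhabited A] (x y : A →₀ ℚ) (hxy : x ≠ y) :
    x (dl x y) ≠ y (dl x y) := by
  have hn : (x.neLocus y).Nonempty := Finsupp.nonempty_neLocus_iff.mpr hxy
  rw [dl, dif_pos hn]
  exact Finsupp.mem_neLocus.mp (Finset.min'_mem _ hn)

theorem lexExt_uniq {A : Type} [LinearOrder A] [Inhabited A] (x y : A →₀ ℚ) (i : A)
    (h1 : ∀ j, j < i → x j = y j) (h2 : x i ≠ y i) : dl x y = i := by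
  have hxy : x ≠ y := fun h => h2 (by rw [h])
  rcases lt_trichotomy (dl x y) i with h | h | h
  · exact absurd (h1 _ h) (lexExt_at x y hxy)
  · exact h
  · exact absurd (lexExt_below x y i h) h2

theorem lexExt_lt {A : Type} [LinearOrder A] (x y : A →₀ ℚ) (i : A)
    (h1 : ∀ j, j < i → x j = y j) (h2 : x i ≠ y i) :
    toLex x < toLex y ↔ x i < y i := by
  constructor
  · intro h
    obtain ⟨k, hk1, hk2⟩ := Finsupp.Lex.lt_iff.mp h
    change x k < y k at hk2
    rcases lt_trichotomy k i with hki | hki | hki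
    · exact absurd (h1 k hki) hk2.ne
    · rw [← hki]; exact hk2
    · exact absurd (hk1 i hki) h2
  · intro h
    exact Finsupp.Lex.lt_iff.mpr ⟨i, fun j hj => h1 j hj, h⟩

theorem lexExt_ne {A : Type} [LinearOrder A] {x y : A →₀ ℚ} :
    x ≠ y ↔ toLex x < toLex y ∨ toLex y < toLex x := by
  constructor
  · intro h
    exact lt_or_gt_of_ne (fun h' => h (toLex.injective h'))
  · rintro (h | h) rfl
    · exact lt_irrefl _ h
    · exact lt_irrefl _ h

/-- extension inside `Lex (A →₀ ℚ)`.  `dl x y` is the least place where `x`, `y` differ. -/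
theorem lexExt {A : Type} [LinearOrder A] [Inhabited A] (F : Set ((A →₀ ℚ) × (A →₀ ℚ)))
    (hF : F.Finite) (θ : A → A → Prop)
    (hθ : ∀ a a' b b', θ a a' → θ b b' → (a < b ↔ a' < b'))
    (hlt : ∀ p ∈ F, ∀ q ∈ F, (toLex p.1 < toLex q.1 ↔ toLex p.2 < toLex q.2))
    (hd : ∀ p ∈ F, ∀ q ∈ F, p.1 ≠ q.1 → θ (dl p.1 q.1) (dl p.2 q.2))
    (x : A →₀ ℚ) (hx : ∀ p ∈ F, x ≠ p.1 ∧ ∃ γ', θ (dl x p.1) γ') :
    ∃ x' : A →₀ ℚ, ∀ p ∈ F, x' ≠ p.2 ∧ (toLex p.1 < toLex x ↔ toLex p.2 < toLex x') ∧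
      (toLex x < toLex p.1 ↔ toLex x' < toLex p.2) ∧ θ (dl x p.1) (dl x' p.2) := by
  classical
  rcases F.eq_empty_or_nonempty with hemp | hne
  · refine ⟨0, fun p hp => ?_⟩
    rw [hemp] at hp
    exact absurd hp (Set.notMem_empty p)
  have hnn : ∀ p ∈ F, ∀ q ∈ F, (p.1 ≠ q.1 ↔ p.2 ≠ q.2) := by
    intro p hp q hq
    rw [lexExt_ne, lexExt_ne, hlt p hp q hq, hlt q hq p hp]
  obtain ⟨p0, hp0, hmax⟩ := Set.exists_max_image F (fun p => dl x p.1) hF hne
  obtain ⟨hxa, γ', hγ'⟩ := hx p0 hp0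
  obtain ⟨γ, hγ⟩ : ∃ γ, dl x p0.1 = γ := ⟨_, rfl⟩
  rw [hγ] at hγ'
  have hxbelow : ∀ j, j < γ → x j = p0.1 j := fun j hj => lexExt_below x p0.1 j (by rw [hγ]; exact hj)
  have hxat : x γ ≠ p0.1 γ := by
    have := lexExt_at x p0.1 hxa
    rw [hγ] at this
    exact this
  -- members of `F` at distance `γ`
  have hF1 : ∀ p ∈ F, dl x p.1 = γ → ∀ j, j < γ' → p.2 j = p0.2 j := by
    intro p hp hpγ j hj
    by_cases hpa : p.1 = p0.1
    · have : p.2 = p0.2 := by
        by_contra hcon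
        exact ((hnn p hp p0 hp0).mpr hcon) hpa
      rw [this]
    · have hθ1 := hd p hp p0 hp0 hpa
      have hge : ¬ dl p.1 p0.1 < γ := by
        intro hlt'
        have h1 := lexExt_at p.1 p0.1 hpa
        apply h1
        rw [← hxbelow _ hlt']
        exact (lexExt_below x p.1 _ (by rw [hpγ]; exact hlt')).symm
      have hge' : ¬ dl p.2 p0.2 < γ' := fun h => hge ((hθ _ _ _ _ hθ1 hγ').mpr h)
      exact lexExt_below p.2 p0.2 j (lt_of_lt_of_le hj (not_lt.mp hge'))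
  have hF1at : ∀ p ∈ F, dl x p.1 = γ → x γ ≠ p.1 γ := by
    intro p hp hpγ
    have := lexExt_at x p.1 (hx p hp).1
    rw [hpγ] at this
    exact this
  have hF1below : ∀ p ∈ F, dl x p.1 = γ → ∀ j, j < γ → x j = p.1 j := by
    intro p hp hpγ j hj
    exact lexExt_below x p.1 j (by rw [hpγ]; exact hj)
  -- the finite sets of lower and upper bounds for `v`
  let lo : Finset ℚ := (hF.toFinset.filter (fun p => dl x p.1 = γ ∧ p.1 γ < x γ)).image
    (fun p => p.2 γ')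
  let hi : Finset ℚ := (hF.toFinset.filter (fun p => dl x p.1 = γ ∧ x γ < p.1 γ)).image
    (fun p => p.2 γ')
  have hlohi : ∀ l ∈ lo, ∀ r ∈ hi, l < r := by
    intro l hl r hr
    simp only [lo, hi, Finset.mem_image, Finset.mem_filter, Set.Finite.mem_toFinset] at hl hr
    obtain ⟨p, ⟨hpF, hpγ, hpx⟩, rfl⟩ := hl
    obtain ⟨q, ⟨hqF, hqγ, hqx⟩, rfl⟩ := hr
    have hb : ∀ j, j < γ → p.1 j = q.1 j := by
      intro j hj
      rw [← hF1below p hpF hpγ j hj, hF1below q hqF hqγ j hj]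
    have hlt1 : p.1 γ < q.1 γ := hpx.trans hqx
    have hdl : dl p.1 q.1 = γ := lexExt_uniq p.1 q.1 γ hb hlt1.ne
    have hpq : p.1 ≠ q.1 := fun h => hlt1.ne (by rw [h])
    have hθ1 := hd p hpF q hqF hpq
    rw [hdl] at hθ1
    have hdl2 : dl p.2 q.2 = γ' := by
      rcases lt_trichotomy (dl p.2 q.2) γ' with h | h | h
      · exact absurd ((hθ _ _ _ _ hθ1 hγ').mpr h) (lt_irrefl _)
      · exact h
      · exact absurd ((hθ _ _ _ _ hγ' hθ1).mpr h) (lt_irrefl _)
    have hpq2 : p.2 ≠ q.2 := (hnn p hpF q hqF).mp hpq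
    have hlt2 : toLex p.2 < toLex q.2 :=
      (hlt p hpF q hqF).mp ((lexExt_lt p.1 q.1 γ hb hlt1.ne).mpr hlt1)
    have h3 := lexExt_lt p.2 q.2 (dl p.2 q.2) (fun j hj => lexExt_below p.2 q.2 j hj)
      (lexExt_at p.2 q.2 hpq2)
    rw [hdl2] at h3
    exact h3.mp hlt2
  obtain ⟨v, hvlo, hvhi⟩ := Order.exists_between_finsets lo hi hlohi
  -- the new element
  let x' : A →₀ ℚ := (p0.2.filter (fun j => j < γ')) + Finsupp.single γ' v
  have hx'below : ∀ j, j < γ' → x' j = p0.2 j := by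
    intro j hj
    simp only [x', Finsupp.add_apply]
    rw [Finsupp.filter_apply_pos (fun j => j < γ') p0.2 hj, Finsupp.single_apply,
      if_neg hj.ne', add_zero]
  have hx'at : x' γ' = v := by
    simp only [x', Finsupp.add_apply]
    rw [Finsupp.filter_apply_neg (fun j => j < γ') p0.2 (lt_irrefl _), Finsupp.single_eq_same,
      zero_add]
  refine ⟨x', fun p hp => ?_⟩
  rcases (hmax p hp).lt_or_eq with hcase | hcase
  · -- distance smaller than `γ`
    simp only [hγ] at hcase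
    obtain ⟨δ, hδ⟩ : ∃ δ, dl x p.1 = δ := ⟨_, rfl⟩
    rw [hδ] at hcase
    have hxp := lexExt_at x p.1 (hx p hp).1
    rw [hδ] at hxp
    have hxpb : ∀ j, j < δ → x j = p.1 j := fun j hj =>
      lexExt_below x p.1 j (by rw [hδ]; exact hj)
    have hab : ∀ j, j < δ → p0.1 j = p.1 j := by
      intro j hj
      rw [← hxbelow j (hj.trans hcase), hxpb j hj]
    have haat : p0.1 δ ≠ p.1 δ := by
      rw [← hxbelow δ hcase]
      exact hxp
    have hdl : dl p0.1 p.1 = δ := lexExt_uniq _ _ _ hab haat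
    have hne1 : p0.1 ≠ p.1 := fun h => haat (by rw [h])
    have hθ1 := hd p0 hp0 p hp hne1
    rw [hdl] at hθ1
    obtain ⟨ε, hε⟩ : ∃ ε, dl p0.2 p.2 = ε := ⟨_, rfl⟩
    rw [hε] at hθ1
    have hεγ : ε < γ' := (hθ _ _ _ _ hθ1 hγ').mp hcase
    have hne2 : p0.2 ≠ p.2 := (hnn p0 hp0 p hp).mp hne1
    have h2at := lexExt_at p0.2 p.2 hne2
    rw [hε] at h2at
    have h2b : ∀ j, j < ε → p0.2 j = p.2 j := fun j hj =>
      lexExt_below p0.2 p.2 j (by rw [hε]; exact hj)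
    have hx'b : ∀ j, j < ε → x' j = p.2 j := by
      intro j hj
      rw [hx'below j (hj.trans hεγ), h2b j hj]
    have hx'a : x' ε ≠ p.2 ε := by
      rw [hx'below ε hεγ]
      exact h2at
    have hdl' : dl x' p.2 = ε := lexExt_uniq _ _ _ hx'b hx'a
    have o1 : toLex p.1 < toLex x ↔ p.1 δ < x δ :=
      lexExt_lt p.1 x δ (fun j hj => (hxpb j hj).symm) hxp.symm
    have o2 : toLex x < toLex p.1 ↔ x δ < p.1 δ := lexExt_lt x p.1 δ hxpb hxp
    have o3 : toLex p.1 < toLex p0.1 ↔ p.1 δ < p0.1 δ :=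
      lexExt_lt p.1 p0.1 δ (fun j hj => (hab j hj).symm) haat.symm
    have o4 : toLex p0.1 < toLex p.1 ↔ p0.1 δ < p.1 δ := lexExt_lt p0.1 p.1 δ hab haat
    have o5 : toLex p.2 < toLex p0.2 ↔ p.2 ε < p0.2 ε :=
      lexExt_lt p.2 p0.2 ε (fun j hj => (h2b j hj).symm) h2at.symm
    have o6 : toLex p0.2 < toLex p.2 ↔ p0.2 ε < p.2 ε := lexExt_lt p0.2 p.2 ε h2b h2at
    have o7 : toLex p.2 < toLex x' ↔ p.2 ε < x' ε :=
      lexExt_lt p.2 x' ε (fun j hj => (hx'b j hj).symm) hx'a.symm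
    have o8 : toLex x' < toLex p.2 ↔ x' ε < p.2 ε := lexExt_lt x' p.2 ε hx'b hx'a
    have e1 := hxbelow δ hcase
    have e2 := hx'below ε hεγ
    refine ⟨fun h => hx'a (by rw [h]), ?_, ?_, ?_⟩
    · rw [o1, e1, ← o3, hlt p hp p0 hp0, o5, o7, e2]
    · rw [o2, e1, ← o4, hlt p0 hp0 p hp, o6, o8, e2]
    · rw [hdl', hδ]
      exact hθ1
  · -- distance `γ`
    simp only [hγ] at hcase
    have hx'b : ∀ j, j < γ' → x' j = p.2 j := by
      intro j hj
      rw [hx'below j hj, hF1 p hp hcase j hj]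
    have hb := hF1below p hp hcase
    have hat := hF1at p hp hcase
    have key : (p.1 γ < x γ → p.2 γ' < v) ∧ (x γ < p.1 γ → v < p.2 γ') := by
      constructor
      · intro h
        apply hvlo
        simp only [lo, Finset.mem_image, Finset.mem_filter, Set.Finite.mem_toFinset]
        exact ⟨p, ⟨hp, hcase, h⟩, rfl⟩
      · intro h
        apply hvhi
        simp only [hi, Finset.mem_image, Finset.mem_filter, Set.Finite.mem_toFinset]
        exact ⟨p, ⟨hp, hcase, h⟩, rfl⟩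
    have hx'a : x' γ' ≠ p.2 γ' := by
      rw [hx'at]
      rcases lt_or_gt_of_ne hat with h | h
      · exact (key.2 h).ne
      · exact (key.1 h).ne'
    have hdl' : dl x' p.2 = γ' := lexExt_uniq _ _ _ hx'b hx'a
    have o1 : toLex p.1 < toLex x ↔ p.1 γ < x γ :=
      lexExt_lt p.1 x γ (fun j hj => (hb j hj).symm) hat.symm
    have o2 : toLex x < toLex p.1 ↔ x γ < p.1 γ := lexExt_lt x p.1 γ hb hat
    have o7 : toLex p.2 < toLex x' ↔ p.2 γ' < x' γ' :=
      lexExt_lt p.2 x' γ' (fun j hj => (hx'b j hj).symm) hx'a.symm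
    have o8 : toLex x' < toLex p.2 ↔ x' γ' < p.2 γ' := lexExt_lt x' p.2 γ' hx'b hx'a
    refine ⟨fun h => hx'a (by rw [h]), ?_, ?_, ?_⟩
    · rw [o1, o7, hx'at]
      refine ⟨key.1, fun h => ?_⟩
      rcases lt_or_gt_of_ne hat with h' | h'
      · exact absurd (key.2 h') (not_lt.mpr h.le)
      · exact h'
    · rw [o2, o8, hx'at]
      refine ⟨key.2, fun h => ?_⟩
      rcases lt_or_gt_of_ne hat with h' | h'
      · exact h'
      · exact absurd (key.1 h') (not_lt.mpr h.le)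
    · rw [hdl', hcase]
      exact hγ'

end Pool.Agent.H726T
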