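import Pool.Agent.H726T.AxS
import Pool.Agent.H726T.ExtOne
import Pool.Agent.H726T.LexExt

set_option autoImplicit false

open FirstOrder FirstOrder.Language FirstOrder.Language.Structure

namespace Pool.Agent.H726T

/-- the rank of the sort of an element -/
def extS_rk : S → ℕ
  | .e _ => 0
  | .g _ => 1
  | .k _ => 2

theorem extS_rk_eq {R : S → S → Prop} (hR : PI R) {a a' : S} (h : R a a') :
    extS_rk a = extS_rk a' := by
  have h1 := hR.isG a a' h
  have h2 := hR.isK a a' h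
  cases a <;> cases a' <;> simp_all [extS_rk]

theorem extS_lt_of_rk {a x : S} (h : extS_rk a ≠ extS_rk x) :
    lt a x ↔ extS_rk a < extS_rk x := by
  cases a <;> cases x <;> simp_all [extS_rk, ltS]

theorem extS_same {x a : S} (h : same x a) : extS_rk x = extS_rk a := by
  cases a <;> cases x <;> simp_all [extS_rk, same]

section dl

variable {A : Type} [LinearOrder A] [Inhabited A]

theorem extS_dl_spec {x y : A →₀ ℚ} (h : x ≠ y) :
    x (dl x y) ≠ y (dl x y) ∧ ∀ t < dl x y, x t = y t := by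
  have hne : (x.neLocus y).Nonempty := by
    rwa [Finsupp.nonempty_neLocus_iff]
  have hdl : dl x y = (x.neLocus y).min' hne := by
    rw [dl, dif_pos hne]
  rw [hdl]
  refine ⟨?_, ?_⟩
  · have := Finset.min'_mem _ hne
    rwa [Finsupp.mem_neLocus] at this
  · intro t ht
    by_contra hc
    have : t ∈ x.neLocus y := by rwa [Finsupp.mem_neLocus]
    exact absurd (Finset.min'_le _ t this) (not_le.2 ht)

theorem extS_dl_eq {x y : A →₀ ℚ} {m : A} (h1 : x m ≠ y m) (h2 : ∀ t < m, x t = y t) :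
    dl x y = m := by
  have hxy : x ≠ y := fun h => h1 (by rw [h])
  obtain ⟨h3, h4⟩ := extS_dl_spec hxy
  rcases lt_trichotomy (dl x y) m with h | h | h
  · exact absurd (h2 _ h) h3
  · exact h
  · exact absurd (h4 _ h) h1

theorem extS_dl_um {x p q : A →₀ ℚ} (hp : x ≠ p) (hq : x ≠ q) (h : dl x q < dl x p) :
    p ≠ q ∧ dl p q = dl x q := by
  obtain ⟨h1, h2⟩ := extS_dl_spec hp
  obtain ⟨h3, h4⟩ := extS_dl_spec hq
  have h5 : p (dl x q) ≠ q (dl x q) := by
    rw [← h2 _ h]; exact h3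
  refine ⟨fun h6 => h5 (by rw [h6]), extS_dl_eq h5 ?_⟩
  intro t ht
  rw [← h2 t (ht.trans h), h4 t ht]

end dl

/-- the common step for the two upper sorts -/
theorem extS_step {A : Type} [LinearOrder A] [Inhabited A] (lo : A → S) (hi : Lex (A →₀ ℚ) → S)
    (r : ℕ) (_hlor : ∀ u, extS_rk (lo u) < r) (hhir : ∀ x, extS_rk (hi x) = r)
    (hsurj : ∀ s, extS_rk s = r → ∃ x, s = hi x)
    (hlo : ∀ s u, extS_rk s = extS_rk (lo u) → ∃ u', s = lo u')
    (hlolt : ∀ u v, lt (lo u) (lo v) ↔ u < v) (hhilt : ∀ x y, lt (hi x) (hi y) ↔ x < y)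
    (hd : ∀ x y, x ≠ y → d (hi x) (hi y) = lo (dl (ofLex x) (ofLex y)))
    (hGK : ∀ x y, (isG (hi x) ↔ isG (hi y)) ∧ (isK (hi x) ↔ isK (hi y)))
    (step : ∀ (R : S → S → Prop), PI R → {p : S × S | R p.1 p.2}.Finite → ∀ u : A,
      ∃ (x' : S) (R' : S → S → Prop), PI R' ∧ {p : S × S | R' p.1 p.2}.Finite ∧
        (∀ a b, R a b → R' a b) ∧ R' (lo u) x' ∧ (∀ w w', R' w w' → R w w' ∨ extS_rk w < r))
    (R : S → S → Prop) (hR : PI R) (hfin : {p : S × S | R p.1 p.2}.Finite)
    (x : Lex (A →₀ ℚ)) :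
    ∃ (x' : S) (R' : S → S → Prop), PI R' ∧ {p : S × S | R' p.1 p.2}.Finite ∧
      (∀ a b, R a b → R' a b) ∧ R' (hi x) x' ∧
      (∀ w w', R' w w' → R w w' ∨ extS_rk w < r + 1) := by
  by_cases hdom : ∃ x', R (hi x) x'
  · obtain ⟨x', h⟩ := hdom
    exact ⟨x', R, hR, hfin, fun _ _ h => h, h, fun w w' h => Or.inl h⟩
  -- the final step
  have key : ∀ (R₁ : S → S → Prop), PI R₁ → {p : S × S | R₁ p.1 p.2}.Finite →
      (∀ a b, R a b → R₁ a b) → (∀ w w', R₁ w w' → R w w' ∨ extS_rk w < r) →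
      (∃ x' : Lex (A →₀ ℚ), ∀ y y', R (hi y) (hi y') → x ≠ y ∧ x' ≠ y' ∧ (y < x ↔ y' < x') ∧
        (x < y ↔ x' < y') ∧
        R₁ (lo (dl (ofLex x) (ofLex y))) (lo (dl (ofLex x') (ofLex y')))) →
      ∃ (x' : S) (R' : S → S → Prop), PI R' ∧ {p : S × S | R' p.1 p.2}.Finite ∧
      (∀ a b, R a b → R' a b) ∧ R' (hi x) x' ∧
      (∀ w w', R' w w' → R w w' ∨ extS_rk w < r + 1) := by
    intro R₁ hR₁ hfin₁ hle hctl ⟨x', hx'⟩
    have hcase : ∀ a a', R₁ a a' → (extS_rk a ≠ r ∧ extS_rk a' ≠ r ∧ extS_rk a = extS_rk a') ∨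
        ∃ y y', a = hi y ∧ a' = hi y' ∧ R (hi y) (hi y') := by
      intro a a' h
      have hrk := extS_rk_eq hR₁ h
      by_cases hr : extS_rk a = r
      · right
        obtain ⟨y, rfl⟩ := hsurj a hr
        obtain ⟨y', rfl⟩ := hsurj a' (hrk ▸ hr)
        rcases hctl _ _ h with h1 | h1
        · exact ⟨y, y', rfl, rfl, h1⟩
        · exact absurd h1 (by rw [hr]; exact lt_irrefl r)
      · left
        exact ⟨hr, hrk ▸ hr, hrk⟩
    refine ⟨hi x', fun u u' => R₁ u u' ∨ (u = hi x ∧ u' = hi x'), ?_, ?_, ?_, ?_, ?_⟩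
    · refine extOne axS axS hR₁ (hi x) (hi x') (hGK x x').1 (hGK x x').2 ?_ ?_ ?_
      · intro a a' h
        rcases hcase a a' h with ⟨h1, h2, h3⟩ | ⟨y, y', rfl, rfl, h1⟩
        · rw [extS_lt_of_rk (by rw [hhir]; exact h1), extS_lt_of_rk (by rw [hhir]; exact h2),
            hhir, hhir, h3]
        · rw [hhilt, hhilt]
          exact (hx' y y' h1).2.2.1
      · intro a a' h
        rcases hcase a a' h with ⟨h1, h2, h3⟩ | ⟨y, y', rfl, rfl, h1⟩
        · rw [extS_lt_of_rk (by rw [hhir]; exact Ne.symm h1),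
            extS_lt_of_rk (by rw [hhir]; exact Ne.symm h2), hhir, hhir, h3]
        · rw [hhilt, hhilt]
          exact (hx' y y' h1).2.2.2.1
      · intro a a' h hs _
        rcases hcase a a' h with ⟨h1, h2, h3⟩ | ⟨y, y', rfl, rfl, h1⟩
        · exact absurd ((extS_same hs).symm.trans (hhir x)) h1
        · obtain ⟨h2, h3, h4, h5, h6⟩ := hx' y y' h1
          rw [hd x y h2, hd x' y' h3]
          exact h6
    · refine (hfin₁.union (Set.finite_singleton (hi x, hi x'))).subset ?_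
      rintro ⟨u, u'⟩ (h | ⟨h1, h2⟩)
      · exact Or.inl h
      · right
        simp only at h1 h2
        rw [h1, h2]
        exact Set.mem_singleton _
    · intro a b h
      exact Or.inl (hle a b h)
    · exact Or.inr ⟨rfl, rfl⟩
    · rintro w w' (h | ⟨h1, h2⟩)
      · rcases hctl w w' h with h1 | h1
        · exact Or.inl h1
        · exact Or.inr (by omega)
      · right
        rw [h1, hhir]
        omega
  have hinj : Function.Injective hi := by
    intro y z h
    by_contra hne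
    rcases lt_or_gt_of_ne hne with h1 | h1
    · have h2 := (hhilt y z).2 h1
      rw [h] at h2
      exact lt_irrefl _ ((hhilt z z).1 h2)
    · have h2 := (hhilt z y).2 h1
      rw [h] at h2
      exact lt_irrefl _ ((hhilt z z).1 h2)
  let F : Set ((A →₀ ℚ) × (A →₀ ℚ)) := {p | R (hi (toLex p.1)) (hi (toLex p.2))}
  have hF : F.Finite := by
    have hi2 : Function.Injective (fun p : (A →₀ ℚ) × (A →₀ ℚ) =>
        ((hi (toLex p.1), hi (toLex p.2)) : S × S)) := by
      rintro ⟨a, b⟩ ⟨a', b'⟩ h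
      simp only [Prod.mk.injEq] at h
      have h1 := toLex_inj.1 (hinj h.1)
      have h2 := toLex_inj.1 (hinj h.2)
      rw [h1, h2]
    exact hfin.preimage hi2.injOn
  have hFx : ∀ p ∈ F, ofLex x ≠ p.1 := by
    intro p hp h
    apply hdom
    refine ⟨hi (toLex p.2), ?_⟩
    have h1 : x = toLex p.1 := by rw [← h]; rfl
    rw [h1]
    exact hp
  have hlt : ∀ p ∈ F, ∀ q ∈ F, (toLex p.1 < toLex q.1 ↔ toLex p.2 < toLex q.2) := by
    intro p hp q hq
    have h1 := hR.lt _ _ _ _ hp hq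
    rwa [hhilt, hhilt] at h1
  have hne : ∀ p ∈ F, ∀ q ∈ F, p.1 ≠ q.1 → p.2 ≠ q.2 := by
    intro p hp q hq h h2
    have h3 : toLex p.1 ≠ toLex q.1 := fun h4 => h (toLex_inj.1 h4)
    rcases lt_or_gt_of_ne h3 with h4 | h4
    · have h5 := (hlt p hp q hq).1 h4
      rw [h2] at h5
      exact lt_irrefl _ h5
    · have h5 := (hlt q hq p hp).1 h4
      rw [h2] at h5
      exact lt_irrefl _ h5
  have hRd : ∀ p ∈ F, ∀ q ∈ F, p.1 ≠ q.1 → R (lo (dl p.1 q.1)) (lo (dl p.2 q.2)) := by
    intro p hp q hq h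
    have h1 := hR.d _ _ _ _ hp hq
    rw [hd _ _ (fun h4 => h (toLex_inj.1 h4)),
      hd _ _ (fun h4 => hne p hp q hq h (toLex_inj.1 h4))] at h1
    exact h1
  rcases F.eq_empty_or_nonempty with hFe | hFe
  · refine key R hR hfin (fun _ _ h => h) (fun w w' h => Or.inl h) ⟨0, ?_⟩
    intro y y' h
    have : (ofLex y, ofLex y') ∈ F := h
    rw [hFe] at this
    exact absurd this (Set.notMem_empty _)
  · obtain ⟨p, hp, hmax⟩ := Set.exists_max_image F (fun p => dl (ofLex x) p.1) hF hFe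
    obtain ⟨e', R₁, hR₁, hfin₁, hle, hRe, hctl⟩ := step R hR hfin (dl (ofLex x) p.1)
    obtain ⟨γ, rfl⟩ := hlo e' _ (extS_rk_eq hR₁ hRe).symm
    obtain ⟨x', hx'⟩ := lexExt F hF (fun u u' => R₁ (lo u) (lo u'))
      (by
        intro a a' b b' h1 h2
        have := hR₁.lt _ _ _ _ h1 h2
        rwa [hlolt, hlolt] at this) hlt
      (fun p hp q hq h => hle _ _ (hRd p hp q hq h)) (ofLex x)
      (by
        intro q hq
        refine ⟨hFx q hq, ?_⟩
        rcases lt_or_eq_of_le (hmax q hq) with h | h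
        · obtain ⟨h1, h2⟩ := extS_dl_um (hFx p hp) (hFx q hq) h
          refine ⟨dl p.2 q.2, ?_⟩
          have h3 := hRd p hp q hq h1
          rw [h2] at h3
          exact hle _ _ h3
        · refine ⟨γ, ?_⟩
          rw [h]
          exact hRe)
    refine key R₁ hR₁ hfin₁ hle hctl ⟨toLex x', ?_⟩
    intro y y' h
    have hm : (ofLex y, ofLex y') ∈ F := h
    obtain ⟨h1, h2, h3, h4⟩ := hx' _ hm
    refine ⟨fun h5 => hFx _ hm (by rw [h5]), fun h5 => h1 (by rw [← h5]; rfl), h2, h3, h4⟩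

/-- the step for the sort `E` -/
theorem extS_E (R : S → S → Prop) (hR : PI R) (hfin : {p : S × S | R p.1 p.2}.Finite) (q : ℚ) :
    ∃ (x' : S) (R' : S → S → Prop), PI R' ∧ {p : S × S | R' p.1 p.2}.Finite ∧
      (∀ a b, R a b → R' a b) ∧ R' (.e q) x' ∧
      (∀ w w', R' w w' → R w w' ∨ extS_rk w < 1) := by
  by_cases hdom : ∃ x', R (.e q) x'
  · obtain ⟨x', h⟩ := hdom
    exact ⟨x', R, hR, hfin, fun _ _ h => h, h, fun w w' h => Or.inl h⟩
  have hFf : {p : ℚ × ℚ | R (.e p.1) (.e p.2)}.Finite := by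
    have hi2 : Function.Injective (fun p : ℚ × ℚ => ((S.e p.1, S.e p.2) : S × S)) := by
      rintro ⟨a, b⟩ ⟨a', b'⟩ h
      simp only [Prod.mk.injEq, S.e.injEq] at h
      rw [h.1, h.2]
    exact hfin.preimage hi2.injOn
  set F := hFf.toFinset with hFdef
  have hmem : ∀ p : ℚ × ℚ, p ∈ F ↔ R (.e p.1) (.e p.2) := by
    intro p
    rw [hFdef, Set.Finite.mem_toFinset]
    rfl
  obtain ⟨m, hm1, hm2⟩ := Order.exists_between_finsets
    ((F.filter (fun p => p.1 < q)).image Prod.snd) ((F.filter (fun p => q < p.1)).image Prod.snd)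
    (by
      intro a ha b hb
      simp only [Finset.mem_image, Finset.mem_filter] at ha hb
      obtain ⟨p, ⟨hp1, hp2⟩, rfl⟩ := ha
      obtain ⟨p', ⟨hp1', hp2'⟩, rfl⟩ := hb
      have h1 := hR.lt _ _ _ _ ((hmem p).1 hp1) ((hmem p').1 hp1')
      exact h1.1 (hp2.trans hp2'))
  have hA : ∀ b b', R (.e b) (.e b') → (b < q → b' < m) ∧ (q < b → m < b') ∧ b ≠ q := by
    intro b b' h
    refine ⟨fun h1 => hm1 b' ?_, fun h1 => hm2 b' ?_, fun h1 => hdom ⟨_, h1 ▸ h⟩⟩
    · exact Finset.mem_image.2 ⟨(b, b'), Finset.mem_filter.2 ⟨(hmem _).2 h, h1⟩, rfl⟩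
    · exact Finset.mem_image.2 ⟨(b, b'), Finset.mem_filter.2 ⟨(hmem _).2 h, h1⟩, rfl⟩
  refine ⟨.e m, fun u u' => R u u' ∨ (u = .e q ∧ u' = .e m), ?_, ?_, ?_, ?_, ?_⟩
  · refine extOne axS axS hR (.e q) (.e m) ?_ ?_ ?_ ?_ ?_
    · simp
    · simp
    · intro a a' h
      have hrk := extS_rk_eq hR h
      cases a with
      | e b =>
        cases a' with
        | e b' =>
          obtain ⟨h1, h2, h3⟩ := hA b b' h
          change b < q ↔ b' < m
          refine ⟨h1, fun h4 => ?_⟩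
          rcases lt_trichotomy b q with h5 | h5 | h5
          · exact h5
          · exact absurd h5 h3
          · exact absurd (h2 h5) (not_lt.2 h4.le)
        | g b' => simp [extS_rk] at hrk
        | k b' => simp [extS_rk] at hrk
      | g b =>
        cases a' with
        | e b' => simp [extS_rk] at hrk
        | g b' => exact Iff.rfl
        | k b' => exact Iff.rfl
      | k b =>
        cases a' with
        | e b' => simp [extS_rk] at hrk
        | g b' => exact Iff.rfl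
        | k b' => exact Iff.rfl
    · intro a a' h
      have hrk := extS_rk_eq hR h
      cases a with
      | e b =>
        cases a' with
        | e b' =>
          obtain ⟨h1, h2, h3⟩ := hA b b' h
          change q < b ↔ m < b'
          refine ⟨h2, fun h4 => ?_⟩
          rcases lt_trichotomy b q with h5 | h5 | h5
          · exact absurd (h1 h5) (not_lt.2 h4.le)
          · exact absurd h5 h3
          · exact h5
        | g b' => simp [extS_rk] at hrk
        | k b' => simp [extS_rk] at hrk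
      | g b =>
        cases a' with
        | e b' => simp [extS_rk] at hrk
        | g b' => exact Iff.rfl
        | k b' => exact Iff.rfl
      | k b =>
        cases a' with
        | e b' => simp [extS_rk] at hrk
        | g b' => exact Iff.rfl
        | k b' => exact Iff.rfl
    · intro a a' h hs _
      rcases hs with ⟨h1, _⟩ | ⟨h1, _⟩
      · simp at h1
      · simp at h1
  · refine (hfin.union (Set.finite_singleton (S.e q, S.e m))).subset ?_
    rintro ⟨u, u'⟩ (h | ⟨h1, h2⟩)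
    · exact Or.inl h
    · right
      simp only at h1 h2
      rw [h1, h2]
      exact Set.mem_singleton _
  · intro a b h
    exact Or.inl h
  · exact Or.inr ⟨rfl, rfl⟩
  · rintro w w' (h | ⟨h1, h2⟩)
    · exact Or.inl h
    · right
      rw [h1]
      exact Nat.zero_lt_one

/-- the step for the sort `G` -/
theorem extS_G (R : S → S → Prop) (hR : PI R) (hfin : {p : S × S | R p.1 p.2}.Finite) (x : GG) :
    ∃ (x' : S) (R' : S → S → Prop), PI R' ∧ {p : S × S | R' p.1 p.2}.Finite ∧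
      (∀ a b, R a b → R' a b) ∧ R' (.g x) x' ∧
      (∀ w w', R' w w' → R w w' ∨ extS_rk w < 2) := by
  refine extS_step S.e S.g 1 ?_ ?_ ?_ ?_ ?_ ?_ ?_ ?_ extS_E R hR hfin x
  · intro u; exact Nat.zero_lt_one
  · intro u; rfl
  · intro s hs
    cases s with
    | e _ => simp [extS_rk] at hs
    | g y => exact ⟨y, rfl⟩
    | k _ => simp [extS_rk] at hs
  · intro s u hs
    cases s with
    | e y => exact ⟨y, rfl⟩
    | g y => simp [extS_rk] at hs
    | k _ => simp [extS_rk] at hs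
  · intro u v; exact Iff.rfl
  · intro u v; exact Iff.rfl
  · intro u v h
    change dS (.g u) (.g v) = _
    rw [dS, if_neg h]
  · intro u v
    simp

/-- the step for the sort `K` -/
theorem extS_K (R : S → S → Prop) (hR : PI R) (hfin : {p : S × S | R p.1 p.2}.Finite) (x : KK) :
    ∃ (x' : S) (R' : S → S → Prop), PI R' ∧ {p : S × S | R' p.1 p.2}.Finite ∧
      (∀ a b, R a b → R' a b) ∧ R' (.k x) x' ∧
      (∀ w w', R' w w' → R w w' ∨ extS_rk w < 3) := by
  refine extS_step S.g S.k 2 ?_ ?_ ?_ ?_ ?_ ?_ ?_ ?_ extS_G R hR hfin x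
  · intro u; exact Nat.one_lt_two
  · intro u; rfl
  · intro s hs
    cases s with
    | e _ => simp [extS_rk] at hs
    | g y => simp [extS_rk] at hs
    | k y => exact ⟨y, rfl⟩
  · intro s u hs
    cases s with
    | e y => simp [extS_rk] at hs
    | g y => exact ⟨y, rfl⟩
    | k _ => simp [extS_rk] at hs
  · intro u v; exact Iff.rfl
  · intro u v; exact Iff.rfl
  · intro u v h
    change dS (.k u) (.k v) = _
    rw [dS, if_neg h]
  · intro u v
    simp

theorem extS (R : S → S → Prop) (hR : PI R) (hfin : {p : S × S | R p.1 p.2}.Finite) (x : S) :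
    ∃ (x' : S) (R' : S → S → Prop), PI R' ∧ {p : S × S | R' p.1 p.2}.Finite ∧
      (∀ a b, R a b → R' a b) ∧ R' x x' := by
  cases x with
  | e q =>
    obtain ⟨x', R', h1, h2, h3, h4, _⟩ := extS_E R hR hfin q
    exact ⟨x', R', h1, h2, h3, h4⟩
  | g q =>
    obtain ⟨x', R', h1, h2, h3, h4, _⟩ := extS_G R hR hfin q
    exact ⟨x', R', h1, h2, h3, h4⟩
  | k q =>
    obtain ⟨x', R', h1, h2, h3, h4, _⟩ := extS_K R hR hfin q
    exact ⟨x', R', h1, h2, h3, h4⟩

end Pool.Agent.H726T
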