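import Pool.Agent.H726T.AxS
import Pool.Agent.H726T.ExtOne
import Pool.Agent.H726T.ExtS

set_option autoImplicit false

open FirstOrder FirstOrder.Language FirstOrder.Language.Structure

namespace Pool.Agent.H726T

theorem pres_term {β : Type} (t : LL.Term β) (R : S → S → Prop) (hR : PI R) (v w : β → S)
    (hv : ∀ i, R (v i) (w i)) : R (t.realize v) (t.realize w) := by
  induction t with
  | var i => exact hv i
  | @func l f ts ih =>
    match l, f, ts, ih with
    | _, Fn.d, ts, ih =>
      show R (dS ((ts 0).realize v) ((ts 1).realize v)) (dS ((ts 0).realize w) ((ts 1).realize w))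
      exact hR.d _ _ _ _ (ih 0) (ih 1)

theorem pres_elim {α : Type} {n : ℕ} (R : S → S → Prop) (v w : α → S) (xs ys : Fin n → S)
    (hv : ∀ i, R (v i) (w i)) (hx : ∀ i, R (xs i) (ys i)) :
    ∀ i, R (Sum.elim v xs i) (Sum.elim w ys i) := by
  intro i
  cases i with
  | inl i => exact hv i
  | inr i => exact hx i

theorem pres_snoc {n : ℕ} (R : S → S → Prop) (xs ys : Fin n → S) (a b : S)
    (hx : ∀ i, R (xs i) (ys i)) (hab : R a b) :
    ∀ i : Fin (n + 1), R ((Fin.snoc xs a : Fin (n + 1) → S) i) ((Fin.snoc ys b : Fin (n + 1) → S) i) := by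
  intro i
  refine Fin.lastCases ?_ (fun j => ?_) i
  · simpa using hab
  · simpa using hx j

/-- finite partial isomorphisms of the standard model preserve formulas.  Induction on `φ` (generalizing `R`, `xs`, `ys`).  Terms: `R (t.realize v) (t.realize w)` by induction
on `t` (the only function symbol is `dSym : LL.Functions 2`, i.e. `Fn.d`; `d x y = funMap dSym ![x, y]`; a function `Fin 2 → S` is `![v 0, v 1]`).  Equality: `PI.inj` with `axS`.
Relations: cases on the symbol (`Rl.lt`, `Rl.isG`, `Rl.isK`).  `∀`: for `→` given `y`, use `extS` for the inverse relation (`PI.symm`) to find `x`; for `←` use `extS`. -/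
theorem pres {α : Type} {n : ℕ} (φ : LL.BoundedFormula α n) (R : S → S → Prop) (hR : PI R)
    (hfin : {p : S × S | R p.1 p.2}.Finite) (v w : α → S) (xs ys : Fin n → S)
    (hv : ∀ i, R (v i) (w i)) (hx : ∀ i, R (xs i) (ys i)) : φ.Realize v xs ↔ φ.Realize w ys := by
  induction φ generalizing R with
  | falsum => exact Iff.rfl
  | equal t₁ t₂ =>
    exact PI.inj hR axS axS (pres_term t₁ R hR _ _ (pres_elim R v w xs ys hv hx))
      (pres_term t₂ R hR _ _ (pres_elim R v w xs ys hv hx))
  | @rel m l r ts =>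
    have ht : ∀ i, R ((ts i).realize (Sum.elim v xs)) ((ts i).realize (Sum.elim w ys)) :=
      fun i => pres_term (ts i) R hR _ _ (pres_elim R v w xs ys hv hx)
    match l, r, ts, ht with
    | _, Rl.lt, ts, ht => exact hR.lt _ _ _ _ (ht 0) (ht 1)
    | _, Rl.isG, ts, ht => exact hR.isG _ _ (ht 0)
    | _, Rl.isK, ts, ht => exact hR.isK _ _ (ht 0)
  | imp f₁ f₂ ih₁ ih₂ =>
    exact imp_congr (ih₁ R hR hfin xs ys hv hx) (ih₂ R hR hfin xs ys hv hx)
  | all f ih =>
    constructor
    · intro h y
      have hfin' : {p : S × S | R p.2 p.1}.Finite :=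
        hfin.preimage (f := Prod.swap) Prod.swap_injective.injOn
      obtain ⟨x, R', hR', hf', hsub, hx'⟩ := extS (fun x y => R y x) hR.symm hfin' y
      have hfin'' : {p : S × S | R' p.2 p.1}.Finite :=
        hf'.preimage (f := Prod.swap) Prod.swap_injective.injOn
      exact (ih (fun a b => R' b a) hR'.symm hfin'' (Fin.snoc xs x) (Fin.snoc ys y)
        (fun i => hsub _ _ (hv i))
        (pres_snoc (fun a b => R' b a) xs ys x y (fun i => hsub _ _ (hx i)) hx')).1 (h x)
    · intro h x
      obtain ⟨y, R', hR', hf', hsub, hx'⟩ := extS R hR hfin x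
      exact (ih R' hR' hf' (Fin.snoc xs x) (Fin.snoc ys y)
        (fun i => hsub _ _ (hv i))
        (pres_snoc R' xs ys x y (fun i => hsub _ _ (hx i)) hx')).2 (h y)

end Pool.Agent.H726T
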