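import Pool.Agent.H726T.AxS
import Pool.Agent.H726T.ExtOne
import Pool.Agent.H726T.Pres
import Pool.Agent.H726T.ClosT
import Pool.Agent.H726T.AxN

set_option autoImplicit false

open FirstOrder FirstOrder.Language FirstOrder.Language.Structure

namespace Pool.Agent.H726T

/-- the terms of the closure -/
def qe_tm {n : ℕ} (p : T n) : LL.Term (Fin n) :=
  dT (dT (Term.var p.1.1) (Term.var p.1.2)) (dT (Term.var p.2.1) (Term.var p.2.2))

theorem qe_tm_realize {N : Type} [LL.Structure N] {n : ℕ} (v : Fin n → N) (p : T n) :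
    (qe_tm p).realize v = val v p := by
  rw [qe_tm, realize_dT, realize_dT, realize_dT]
  rfl

/-- the atomic formulas of the diagram, and `φ` -/
def qe_F {n : ℕ} (φ : LL.Formula (Fin n)) :
    ((T n × T n) ⊕ (T n ⊕ (T n ⊕ Unit))) → LL.Formula (Fin n)
  | .inl p => ltF (qe_tm p.1) (qe_tm p.2)
  | .inr (.inl p) => gF (qe_tm p)
  | .inr (.inr (.inl p)) => kF (qe_tm p)
  | .inr (.inr (.inr _)) => φ

open Classical in
/-- literals true of `v` -/
noncomputable def qe_lit {N : Type} [LL.Structure N] {n : ℕ} (φ : LL.Formula (Fin n))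
    (v : Fin n → N) (i : (T n × T n) ⊕ (T n ⊕ (T n ⊕ Unit))) : LL.Formula (Fin n) :=
  if (qe_F φ i).Realize v then qe_F φ i else (qe_F φ i).not

theorem qe_lit_iff {N N' : Type} [LL.Structure N] [LL.Structure N'] {n : ℕ}
    (φ : LL.Formula (Fin n)) (v : Fin n → N) (i : (T n × T n) ⊕ (T n ⊕ (T n ⊕ Unit)))
    (u : Fin n → N') :
    (qe_lit φ v i).Realize u ↔ ((qe_F φ i).Realize u ↔ (qe_F φ i).Realize v) := by
  unfold qe_lit
  split_ifs with h
  · exact ⟨fun h1 => ⟨fun _ => h, fun _ => h1⟩, fun h1 => h1.2 h⟩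
  · rw [Formula.realize_not]
    exact ⟨fun h1 => ⟨fun h2 => absurd h2 h1, fun h2 => absurd h2 h⟩, fun h1 h2 => h (h1.1 h2)⟩

theorem qe_refl {N : Type} [LL.Structure N] (j : S ↪ₑ[LL] N) {n : ℕ} (φ : LL.Formula (Fin n))
    (v : Fin n → N) : ∃ v₀ : Fin n → S, SameDiag v₀ v ∧ (φ.Realize v₀ ↔ φ.Realize v) := by
  let θ : LL.Formula (Fin n) := Formula.iInf (qe_lit φ v)
  have hθ : θ.Realize v := by
    rw [Formula.realize_iInf]
    intro i
    rw [qe_lit_iff]
  let χ : LL.Formula Empty := Formula.iExs (Fin n) (θ.relabel (Sum.inr : Fin n → Empty ⊕ Fin n))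
  have hN : χ.Realize (j ∘ (Empty.elim : Empty → S)) := by
    rw [Formula.realize_iExs]
    refine ⟨v, ?_⟩
    rw [Formula.realize_relabel, Sum.elim_comp_inr]
    exact hθ
  rw [j.map_formula, Formula.realize_iExs] at hN
  obtain ⟨v₀, h₀⟩ := hN
  rw [Formula.realize_relabel, Sum.elim_comp_inr, Formula.realize_iInf] at h₀
  have h1 : ∀ i, (qe_F φ i).Realize v₀ ↔ (qe_F φ i).Realize v := fun i =>
    (qe_lit_iff φ v i v₀).1 (h₀ i)
  refine ⟨v₀, ⟨?_, ?_, ?_⟩, h1 (.inr (.inr (.inr ())))⟩
  · intro p q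
    have h2 := h1 (.inl (p, q))
    simp only [qe_F, realize_ltF, qe_tm_realize] at h2
    exact h2
  · intro p
    have h2 := h1 (.inr (.inl p))
    simp only [qe_F, realize_gF, qe_tm_realize] at h2
    exact h2
  · intro p
    have h2 := h1 (.inr (.inr (.inl p)))
    simp only [qe_F, realize_kF, qe_tm_realize] at h2
    exact h2

theorem qe_trans {N N' N'' : Type} [LL.Structure N] [LL.Structure N'] [LL.Structure N''] {n : ℕ}
    {u : Fin n → N} {v : Fin n → N'} {w : Fin n → N''} (h1 : SameDiag u v) (h2 : SameDiag v w) :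
    SameDiag u w :=
  ⟨fun p q => (h1.1 p q).trans (h2.1 p q), fun p => (h1.2.1 p).trans (h2.2.1 p),
    fun p => (h1.2.2 p).trans (h2.2.2 p)⟩

theorem qe_symm {N N' : Type} [LL.Structure N] [LL.Structure N'] {n : ℕ}
    {u : Fin n → N} {v : Fin n → N'} (h1 : SameDiag u v) : SameDiag v u :=
  ⟨fun p q => (h1.1 p q).symm, fun p => (h1.2.1 p).symm, fun p => (h1.2.2 p).symm⟩

theorem qe_std {n : ℕ} (φ : LL.Formula (Fin n)) (v w : Fin n → S) (h : SameDiag v w) :
    φ.Realize v ↔ φ.Realize w := by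
  obtain ⟨h1, h2⟩ := closT axS axS v w h
  have hfin : {p : S × S | (fun x y => ∃ p : T n, x = val v p ∧ y = val w p) p.1 p.2}.Finite := by
    apply (Set.finite_range (fun q : T n => (val v q, val w q))).subset
    rintro ⟨x, y⟩ ⟨q, hx, hy⟩
    exact ⟨q, Prod.ext hx.symm hy.symm⟩
  exact pres φ _ h1 hfin v w default default h2 (fun i => i.elim0)

theorem qe_fin {N N' : Type} [LL.Structure N] [LL.Structure N'] (j : S ↪ₑ[LL] N)
    (j' : S ↪ₑ[LL] N') {n : ℕ} (φ : LL.Formula (Fin n)) (v : Fin n → N) (w : Fin n → N')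
    (h : SameDiag v w) : φ.Realize v ↔ φ.Realize w := by
  obtain ⟨v₀, hv, hv'⟩ := qe_refl j φ v
  obtain ⟨w₀, hw, hw'⟩ := qe_refl j' φ w
  rw [← hv', ← hw']
  exact qe_std φ v₀ w₀ (qe_trans hv (qe_trans h (qe_symm hw)))

theorem qe_diag {N N' : Type} [LL.Structure N] [LL.Structure N'] {R : N → N' → Prop} (hR : PI R)
    {n : ℕ} (v : Fin n → N) (w : Fin n → N') (h : ∀ i, R (v i) (w i)) : SameDiag v w := by
  have h1 : ∀ p : T n, R (val v p) (val w p) := fun p =>
    hR.d _ _ _ _ (hR.d _ _ _ _ (h _) (h _)) (hR.d _ _ _ _ (h _) (h _))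
  exact ⟨fun p q => hR.lt _ _ _ _ (h1 p) (h1 q), fun p => hR.isG _ _ (h1 p),
    fun p => hR.isK _ _ (h1 p)⟩

/-- the formula `φ` in its free variables -/
noncomputable def qe_res {α : Type} [DecidableEq α] (φ : LL.Formula α) :
    LL.Formula (Fin (BoundedFormula.freeVarFinset φ).card) :=
  BoundedFormula.restrictFreeVar φ ((BoundedFormula.freeVarFinset φ).equivFin)

theorem qe_restrict {N : Type} [LL.Structure N] {α : Type} [DecidableEq α] (φ : LL.Formula α)
    (v : α → N) : (qe_res φ).Realize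
        (fun i => v ((BoundedFormula.freeVarFinset φ).equivFin.symm i)) ↔ φ.Realize v := by
  apply BoundedFormula.realize_restrictFreeVar
  intro a
  rw [_root_.Equiv.symm_apply_apply]

/-- partial isomorphisms between elementary extensions of the standard model preserve formulas.  Steps: (1) reduce to `α = Fin n` (a formula has finitely many free variables:
`φ.restrictFreeVar`, `BoundedFormula.realize_restrictFreeVar`, or `Formula` relabelled from the finite set `φ.freeVarFinset`).  (2) For `v, w : Fin n → S` with `SameDiag v w`: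
`φ.Realize v ↔ φ.Realize w` by `closT` (with `axS`) and `pres` (the relation is the image of the finite type `T n`).  (3) `SameDiag` of two tuples is expressed by a formula
`D n : LL.Formula (Fin n ⊕ Fin n)` (finite conjunctions `Formula.iInf`/`BoundedFormula.iInf` over `T n × T n` of `iff`s of `ltF`, `gF`, `kF` of the terms `dT (dT (var i) (var j)) (dT (var k) (var l))`), so
`(D n).imp (φ(x) ⇔ φ(y))` is a formula true of all pairs of tuples of `S`, hence of all pairs of tuples of `N` (elementarity of `j`, `iAlls`).  (4) For `v : Fin n → N` there is `v₀ : Fin n → S` with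
`SameDiag v₀ v`: the diagram of `v` is a formula (finite conjunction over `T n × T n` of `ltF` or its negation, as it holds for `v`) satisfied by `v` in `N`, so by a tuple in `S` (`iExs`/`¬ iAlls ¬`).
(5) From `h` and `hR`: `SameDiag v w` (each `val v p` is related to `val w p` by `R`).  So `SameDiag v₀ w₀` for the tuples of (4) for `v` and `w` (`SameDiag` is transitive, symmetric), and
`φ(v) ↔ φ(j v₀) ↔ φ(v₀) ↔ φ(w₀) ↔ φ(j' w₀) ↔ φ(w)` by (3) (for `N` and `N'`), `j.map_formula` and (2). -/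
theorem qe {N N' : Type} [LL.Structure N] [LL.Structure N'] (j : S ↪ₑ[LL] N) (j' : S ↪ₑ[LL] N')
    {R : N → N' → Prop} (hR : PI R) {α : Type} (φ : LL.Formula α) (v : α → N) (w : α → N')
    (h : ∀ i, R (v i) (w i)) : φ.Realize v ↔ φ.Realize w := by
  classical
  rw [← qe_restrict φ v, ← qe_restrict φ w]
  exact qe_fin j j' _ _ _ (qe_diag hR _ _ fun i => h _)

end Pool.Agent.H726T
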