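import Pool.Agent.H726T.TDefs2

/-!
# The partial isomorphism between two realisations of a type
-/

set_option autoImplicit false

open FirstOrder FirstOrder.Language FirstOrder.Language.Structure Cardinal
open Pool.Agent.Y562.NWO

namespace Pool.Agent.H726T

/-- the partial isomorphism between two realisations of a type -/
theorem tpPI {U : Type} [LL.Structure U] (C : Set U) {r : Set (LL.Formula (Fin 2 ⊕ U))}
    {N₁ N : Type} [LL.Structure N₁] [LL.Structure N] (k : U ↪ₑ[LL] N) (b : Fin 2 → N)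
    (hb : tp k b = r) (b' : Fin 2 → U) (hb' : Realizes C r b') (k₁ : U ↪ₑ[LL] N₁) :
    PI (fun x y => ∃ t : LL.Term (Fin 2 ⊕ C),
      x = k₁ (t.realize (Sum.elim b' (fun u : C => (u : U)))) ∧
      y = t.realize (Sum.elim b (fun u : C => k u))) := by
  have key : ∀ φ : LL.Formula (Fin 2 ⊕ C), φ.Realize (Sum.elim b' (fun u : C => (u : U))) ↔
      φ.Realize (Sum.elim b (fun u : C => k u)) := by
    intro φ
    rw [← hb' φ, ← hb, mem_tp]
    rfl
  refine ⟨?_, ?_, ?_, ?_⟩
  · rintro x x' y y' ⟨t, rfl, rfl⟩ ⟨s, rfl, rfl⟩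
    rw [map_lt, ← realize_ltF, key, realize_ltF]
  · rintro x x' ⟨t, rfl, rfl⟩
    rw [map_isG, ← realize_gF, key, realize_gF]
  · rintro x x' ⟨t, rfl, rfl⟩
    rw [map_isK, ← realize_kF, key, realize_kF]
  · rintro x x' y y' ⟨t, rfl, rfl⟩ ⟨s, rfl, rfl⟩
    exact ⟨dT t s, by rw [realize_dT, map_d], by rw [realize_dT]⟩

end Pool.Agent.H726T
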