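import Pool.Agent.H726T.AxN
import Pool.Agent.H726T.ExtOne
import Pool.Agent.H726T.Qe
import Pool.Agent.H726T.CutPI
import Pool.Agent.H726T.Facts
import Pool.Agent.H726T.CoheirCut
import Pool.Agent.H726T.TpPI
import Pool.Agent.H726T.LimBasic

set_option autoImplicit false

open FirstOrder FirstOrder.Language FirstOrder.Language.Structure Cardinal
open Pool.Agent.Y562.NWO

namespace Pool.Agent.H726T

/-- .  `pT j 𝓤 = tp k₁ a₁` for some `k₁ : U ↪ₑ N₁`, `a₁ : Fin 1 → N₁` (`lim_global`), `r = tp k b` for `k : U ↪ₑ N` (`hr.1`).  Left side: `ψ.Realize (Sum.elim (Sum.elim a₁ (k₁ ∘ b')) (k₁ ∘ ↑))`; right side: `ψ.Realize (Sum.elim (Sum.elim (k ∘ a) b) (k ∘ ↑))`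
(unfold `tp`, `Formula.realize_relabel`).  By `qe` (with the embeddings `k₁.comp j`, `k.comp j` of `S`) it suffices to find a `PI` `R` between `N₁` and `N` relating `a₁ 0` to `k (a 0)`, `k₁ (b' i)` to `b i`, `k₁ u` to `k u` for `u ∈ C`.  Take `R₀` from `tpPI` and add the pair `(a₁ 0, k (a 0))` with `cutPI`, where `i₁ = k₁`, `i = k`,
`Lo = {u | ∃ m : ℚ, (m:ℝ) < α ∧ u = j (S.e m)}`, `Hi = {u | ∃ m : ℚ, α < m ∧ u = j (S.e m)}`.  `h1`, `h2` of `cutPI`: `a` realises `pT j 𝓤` over `C`: for `u ∈ C`, `ltF (var (inr u)) (var (inl 0)) ∈ pT` iff `u < a 0` in `U` (`Realizes.apply` or `ha` directly) iff `k u < k (a 0)`, and iff `k₁ u < a₁ 0` (`mem_tp`).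
`hlo`, `hhi`, `isE (a₁ 0)` from `pFacts`; `isE (a 0)` similarly via `gF`, `kF` of `var (inl 0)`; the last hypothesis of `cutPI` is `coheirCut`. (Useful lemmas in Pool/Agent/Y562/NWO/{Basic,Types,Tensor}.lean, namespace `Pool.Agent.Y562.NWO`: `mem_tp`, `not_mem_iff`, `relabel_mem_iff`, `exists_of_mem`, `finite_params`, `exists_conj`, `el_ex`, `el_all`, `compact`, `Realizes.apply`, `Realizes.mono`, `exists_realizes`, `exists_tensor`, `small_union`, `small_finite`, `inv_mem`, `Realizes.hom`.) -/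
theorem commStep {U : Type} [LL.Structure U] (j : S ↪ₑ[LL] U) (c₀ : U) (hc₀ : Br j c₀)
    {r : Set (LL.Formula (Fin 2 ⊕ U))} (hr : IsCoheir j qT r) (α : ℝ) (hα : Irrational α)
    (hex : α ∉ Exc j c₀ r) (𝓤 : Ultrafilter ℚ) (h𝓤 : (𝓤 : Filter ℚ) ≤ FE α)
    (C : Set U) (hC : ∀ x ∈ C, ∀ y ∈ C, d x y ∈ C) (hjC : Set.range j ⊆ C) (hcC : c₀ ∈ C)
    (a : Fin 1 → U) (b' : Fin 2 → U) (ha : Realizes C (pT j 𝓤) a) (hb' : Realizes C r b')
    (ψ : LL.Formula ((Fin 1 ⊕ Fin 2) ⊕ C)) :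
    ψ.relabel (Sum.elim (Sum.map id b') (fun u : C => Sum.inr (u : U))) ∈ pT j 𝓤 ↔
      ψ.relabel (Sum.elim (Sum.elim (fun i => Sum.inr (a i)) Sum.inl)
        (fun u : C => Sum.inr (u : U))) ∈ r := by
  obtain ⟨N₁, _, k₁, a₁, hp⟩ :=
    lim_global (L := LL) 𝓤 (fun (e : ℚ) (_ : Fin 1) => j (S.e e))
  have hp' : pT j 𝓤 = tp k₁ a₁ := hp
  obtain ⟨N, _, k, b, hr1⟩ := hr.1
  have hN₁ : Ax N₁ := axN (k₁.comp j)
  have hN : Ax N := axN (k.comp j)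
  obtain ⟨hE1, hlo, hhi⟩ := pFacts j α 𝓤 h𝓤 k₁ a₁ hp'.symm
  have hkey : ∀ φ : LL.Formula (Fin 1 ⊕ C),
      φ.Realize (Sum.elim a₁ (fun u : C => k₁ (u : U))) ↔
        φ.Realize (Sum.elim a (fun u : C => (u : U))) := by
    intro φ
    rw [← ha φ, hp', mem_tp]
    rfl
  have hG : isG (a 0) ↔ isG (a₁ 0) := by
    have h := hkey (gF (Term.var (Sum.inl 0)))
    rw [realize_gF, realize_gF] at h
    exact h.symm
  have hK : isK (a 0) ↔ isK (a₁ 0) := by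
    have h := hkey (kF (Term.var (Sum.inl 0)))
    rw [realize_kF, realize_kF] at h
    exact h.symm
  have hEa : isE (k (a 0)) := by
    rw [map_isE]
    exact ⟨fun h => hE1.1 (hG.1 h), fun h => hE1.2 (hK.1 h)⟩
  have h1 : ∀ u ∈ C, lt (k₁ u) (a₁ 0) ↔ lt (k u) (k (a 0)) := by
    intro u hu
    have h := hkey (ltF (Term.var (Sum.inr ⟨u, hu⟩)) (Term.var (Sum.inl 0)))
    rw [realize_ltF, realize_ltF] at h
    rw [map_lt]
    exact h
  have h2 : ∀ u ∈ C, lt (a₁ 0) (k₁ u) ↔ lt (k (a 0)) (k u) := by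
    intro u hu
    have h := hkey (ltF (Term.var (Sum.inl 0)) (Term.var (Sum.inr ⟨u, hu⟩)))
    rw [realize_ltF, realize_ltF] at h
    rw [map_lt]
    exact h
  have hR₀ := tpPI C k b hr1.symm b' hb' k₁
  have hR := cutPI hN₁ hN C {u | ∃ m : ℚ, (m : ℝ) < α ∧ u = j (S.e m)}
    {u | ∃ m : ℚ, α < m ∧ u = j (S.e m)}
    (by rintro u ⟨m, _, rfl⟩; exact hjC ⟨_, rfl⟩)
    (by rintro u ⟨m, _, rfl⟩; exact hjC ⟨_, rfl⟩) k₁ k _ hR₀
    (fun u hu => ⟨Term.var (Sum.inr ⟨u, hu⟩), rfl, rfl⟩) (a₁ 0) (k (a 0)) hE1 hEa h1 h2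
    (by rintro u ⟨m, hm, rfl⟩; exact hlo m hm)
    (by rintro u ⟨m, hm, rfl⟩; exact hhi m hm)
    (by
      rintro x y ⟨t, -, hy⟩ hyE
      rcases coheirCut j c₀ hc₀ hr α hex C hC hjC hcC k b hr1.symm t y hy hyE with
        ⟨u, hu, h⟩ | ⟨m, hm, h⟩ | ⟨m, hm, h⟩
      · exact Or.inl ⟨u, hu, h⟩
      · exact Or.inr (Or.inl ⟨_, ⟨m, hm, rfl⟩, h⟩)
      · exact Or.inr (Or.inr ⟨_, ⟨m, hm, rfl⟩, h⟩))
  rw [hp', hr1]
  change (ψ.relabel _).Realize (Sum.elim a₁ k₁) ↔ (ψ.relabel _).Realize (Sum.elim b k)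
  rw [Formula.realize_relabel, Formula.realize_relabel]
  refine qe (k₁.comp j) (k.comp j) hR ψ _ _ ?_
  rintro ((i | i) | u)
  · right
    have hi : i = 0 := Subsingleton.elim _ _
    subst hi
    exact ⟨rfl, rfl⟩
  · left
    exact ⟨Term.var (Sum.inl i), rfl, rfl⟩
  · left
    exact ⟨Term.var (Sum.inr u), rfl, rfl⟩

end Pool.Agent.H726T
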