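import Pool.Agent.H726T.Iso
import Pool.Agent.H726T.ExtOne

/-!
MP_d4560b_lc (owner helper726): convexity of types over closed sets.
-/
set_option autoImplicit false

open FirstOrder FirstOrder.Language FirstOrder.Language.Structure

namespace Pool.Agent.H726T

section conv

variable {N : Type} [LL.Structure N]

/-- `u` is of lower sort than `x` -/
def conv_lo (x u : N) : Prop := (isK x ∧ ¬ isK u) ∨ (isG x ∧ isE u)

/-- `z` is strictly between `x` and `y` -/
def conv_bt (x z y : N) : Prop := (lt x z ∧ lt z y) ∨ (lt y z ∧ lt z x)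

theorem conv_asymm (hN : Ax N) {x y : N} (h : lt x y) : ¬ lt y x := fun h' =>
  hN.irrefl x (hN.trans x y x h h')

theorem conv_lo_lt (hN : Ax N) {x u : N} (h : conv_lo x u) : lt u x := by
  rcases h with ⟨h1, h2⟩ | ⟨h1, h2⟩
  · by_cases h3 : isG u
    · exact hN.ltgk u x h3 h1
    · exact hN.ek u x ⟨h3, h2⟩ h1
  · exact hN.eg u x h2 h1

theorem conv_lo_congr {x z u u' : N} (hG : isG x ↔ isG z) (hK : isK x ↔ isK z)
    (hG' : isG u ↔ isG u') (hK' : isK u ↔ isK u') (h : conv_lo x u) : conv_lo z u' := by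
  unfold conv_lo isE at *
  rw [← hG, ← hK, ← hG', ← hK']
  exact h

theorem conv_lo_same (hN : Ax N) {x u : N} (h : conv_lo x u) (hs : same x u) : False := by
  have h1 := hN.gk x
  have h2 := hN.gk u
  unfold conv_lo isE same at *
  tauto

theorem conv_lo_trans (hN : Ax N) {x g u : N} (h : conv_lo x g) (h' : conv_lo g u) :
    conv_lo x u := by
  have h1 := hN.gk x
  have h2 := hN.gk u
  have h3 := hN.gk g
  unfold conv_lo isE at *
  tauto

theorem conv_lo_d (hN : Ax N) {x a : N} (hs : same x a) (hne : x ≠ a) : conv_lo x (d x a) := by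
  rcases hs with ⟨h1, h2⟩ | ⟨h1, h2⟩
  · exact Or.inr ⟨h1, hN.d_G x a h1 h2 hne⟩
  · refine Or.inl ⟨h1, fun h3 => hN.gk _ ⟨hN.d_K x a h1 h2 hne, h3⟩⟩

theorem conv_sort0 (hN : Ax N) {p z q : N} (hG : isG p ↔ isG q) (hK : isK p ↔ isK q)
    (h1 : lt p z) (h2 : lt z q) : (isG p ↔ isG z) ∧ (isK p ↔ isK z) := by
  have gp := hN.gk p
  have gz := hN.gk z
  have gq := hN.gk q
  have a1 := conv_asymm hN h1
  have a2 := conv_asymm hN h2
  have e1 : isK p → isK z := by
    intro hp
    by_contra hz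
    by_cases hz' : isG z
    · exact a1 (hN.ltgk z p hz' hp)
    · exact a1 (hN.ek z p ⟨hz', hz⟩ hp)
  have e2 : isG p → isG z := by
    intro hp
    by_contra hz
    by_cases hz' : isK z
    · exact a2 (hN.ltgk q z (hG.1 hp) hz')
    · exact a1 (hN.eg z p ⟨hz, hz'⟩ hp)
  have e3 : isE p → isE z := by
    intro hp
    have hq : isE q := ⟨fun h => hp.1 (hG.2 h), fun h => hp.2 (hK.2 h)⟩
    exact ⟨fun h => a2 (hN.eg q z hq h), fun h => a2 (hN.ek q z hq h)⟩
  unfold isE at e3
  tauto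

theorem conv_sort (hN : Ax N) {R : N → N → Prop} (hR : PI R) {x y z : N} (hxy : R x y)
    (hbt : conv_bt x z y) : (isG x ↔ isG z) ∧ (isK x ↔ isK z) := by
  have hG := hR.isG x y hxy
  have hK := hR.isK x y hxy
  rcases hbt with ⟨h1, h2⟩ | ⟨h1, h2⟩
  · exact conv_sort0 hN hG hK h1 h2
  · have := conv_sort0 hN hG.symm hK.symm h1 h2
    exact ⟨hG.trans this.1, hK.trans this.2⟩

theorem conv_cut (hN : Ax N) {R : N → N → Prop} (hR : PI R) {x y z a : N} (hxy : R x y)
    (haa : R a a) (hbt : conv_bt x z y) :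
    (lt a x ↔ lt a z) ∧ (lt x a ↔ lt z a) ∧ x ≠ a ∧ y ≠ a ∧ z ≠ a := by
  have c1 := hR.lt a a x y haa hxy
  have c2 := hR.lt x y a a hxy haa
  have hne : x ≠ y := by
    rintro rfl
    rcases hbt with ⟨h1, h2⟩ | ⟨h1, h2⟩
    · exact conv_asymm hN h1 h2
    · exact conv_asymm hN h1 h2
  have hi := hR.inj hN hN hxy haa
  have hxa : x ≠ a := by
    intro h
    exact hne (h.trans (hi.1 h).symm)
  have hya : y ≠ a := fun h => hxa (hi.2 h)
  have hza : z ≠ a := by
    rintro rfl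
    rcases hbt with ⟨h1, h2⟩ | ⟨h1, h2⟩
    · exact conv_asymm hN h2 (c2.1 h1)
    · exact conv_asymm hN h1 (c1.1 h2)
  refine ⟨?_, ?_, hxa, hya, hza⟩
  · rcases hbt with ⟨h1, h2⟩ | ⟨h1, h2⟩
    · refine ⟨fun h => hN.trans _ _ _ h h1, fun h => ?_⟩
      rcases hN.total x a hxa with h3 | h3
      · exact absurd (c2.1 h3) (conv_asymm hN (hN.trans _ _ _ h h2))
      · exact h3
    · exact ⟨fun h => hN.trans _ _ _ (c1.1 h) h1, fun h => hN.trans _ _ _ h h2⟩
  · rcases hbt with ⟨h1, h2⟩ | ⟨h1, h2⟩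
    · exact ⟨fun h => hN.trans _ _ _ h2 (c2.1 h), fun h => hN.trans _ _ _ h1 h⟩
    · refine ⟨fun h => hN.trans _ _ _ h2 h, fun h => ?_⟩
      rcases hN.total x a hxa with h3 | h3
      · exact h3
      · exact absurd (hN.trans _ _ _ (c1.1 h3) h1) (conv_asymm hN h)

theorem conv_ml (hN : Ax N) {a x z : N} (h1 : same a x) (h2 : same x z) (h3 : lt a x)
    (h4 : lt x z) : ¬ lt (d a x) (d a z) := by
  rcases hN.um a x z h1 h2 h3 h4 with ⟨e1, _⟩ | ⟨e1, e2⟩
  · rw [e1]; exact hN.irrefl _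
  · rw [e1]; exact e2

theorem conv_mr (hN : Ax N) {x z a : N} (h1 : same x z) (h2 : same z a) (h3 : lt x z)
    (h4 : lt z a) : ¬ lt (d z a) (d x a) := by
  rcases hN.um x z a h1 h2 h3 h4 with ⟨e1, e2⟩ | ⟨e1, _⟩
  · rw [e1]; exact e2
  · rw [e1]; exact hN.irrefl _

theorem conv_same_symm {x y : N} (h : same x y) : same y x := by
  unfold same at *
  tauto

theorem conv_same_of {x z a : N} (hG : isG x ↔ isG z) (hK : isK x ↔ isK z) (h : same x a) :
    same z a := by
  unfold same at *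
  rw [← hG, ← hK]
  exact h

theorem conv_same_tr (hN : Ax N) {x z a : N} (h : same x a) (h' : same z a) : same x z := by
  have h1 := hN.gk a
  unfold same at *
  tauto

/-- the distance of `z` to `a` is between those of `x` and of `y` -/
theorem conv_um (hN : Ax N) {R : N → N → Prop} (hR : PI R) {x y z a : N} (hxy : R x y)
    (haa : R a a) (hbt : conv_bt x z y) (hs : same x a) :
    (¬ lt (d z a) (d x a) ∧ ¬ lt (d y a) (d z a)) ∨
      (¬ lt (d x a) (d z a) ∧ ¬ lt (d z a) (d y a)) := by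
  obtain ⟨hG, hK⟩ := conv_sort hN hR hxy hbt
  have sz : same z a := conv_same_of hG hK hs
  have sy : same y a := conv_same_of (hR.isG x y hxy) (hR.isK x y hxy) hs
  have sxz := conv_same_tr hN hs sz
  have szy := conv_same_tr hN sz sy
  obtain ⟨c1, c2, hxa, hya, hza⟩ := conv_cut hN hR hxy haa hbt
  have d1 := hR.lt a a x y haa hxy
  have d2 := hR.lt x y a a hxy haa
  rcases hN.total x a hxa with h | h
  · -- `x < a`
    have hz := c2.1 h
    have hy := d2.1 h
    rcases hbt with ⟨h1, h2⟩ | ⟨h1, h2⟩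
    · exact Or.inl ⟨conv_mr hN sxz sz h1 hz, conv_mr hN szy sy h2 hy⟩
    · exact Or.inr ⟨conv_mr hN (conv_same_symm sxz) hs h2 h, conv_mr hN (conv_same_symm szy) sz h1 hz⟩
  · have hz := c1.1 h
    have hy := d1.1 h
    rw [hN.d_symm x a hs, hN.d_symm z a sz, hN.d_symm y a sy]
    rcases hbt with ⟨h1, h2⟩ | ⟨h1, h2⟩
    · exact Or.inr ⟨conv_ml hN (conv_same_symm hs) sxz h h1,
        conv_ml hN (conv_same_symm sz) szy hz h2⟩
    · exact Or.inl ⟨conv_ml hN (conv_same_symm sz) (conv_same_symm sxz) hz h2,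
        conv_ml hN (conv_same_symm sy) (conv_same_symm szy) hy h1⟩

/-- the claim -/
def conv_P (A : Set N) (x : N) : Prop :=
  ∀ R : N → N → Prop, PI R → (∀ a ∈ A, R a a) → ∀ y z : N, R x y → conv_bt x z y →
    ∃ R' : N → N → Prop, PI R' ∧ (∀ a ∈ A, R' a a) ∧ R' x z ∧
      ∀ u u', R' u u' → (u = u' ∧ u ∈ A) ∨ (u = x ∧ u' = z) ∨ conv_lo x u

theorem conv_fin (hN : Ax N) (A : Set N) {R : N → N → Prop} (hR : PI R) (hRA : ∀ a ∈ A, R a a)
    {x y z : N} (hxy : R x y) (hbt : conv_bt x z y) {R₁ : N → N → Prop} (hR₁ : PI R₁)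
    (hA₁ : ∀ a ∈ A, R₁ a a) (hp : ∀ u u', R₁ u u' → (u = u' ∧ u ∈ A) ∨ conv_lo x u)
    (h3 : ∀ b ∈ A, same x b → R₁ (d x b) (d z b)) :
    ∃ R' : N → N → Prop, PI R' ∧ (∀ a ∈ A, R' a a) ∧ R' x z ∧
      ∀ u u', R' u u' → (u = u' ∧ u ∈ A) ∨ (u = x ∧ u' = z) ∨ conv_lo x u := by
  obtain ⟨hG, hK⟩ := conv_sort hN hR hxy hbt
  refine ⟨fun u u' => R₁ u u' ∨ (u = x ∧ u' = z),
    extOne hN hN hR₁ x z hG hK ?_ ?_ ?_, fun a ha => Or.inl (hA₁ a ha), Or.inr ⟨rfl, rfl⟩, ?_⟩
  · intro a a' haa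
    rcases hp a a' haa with ⟨rfl, ha⟩ | hlo
    · exact (conv_cut hN hR hxy (hRA a ha) hbt).1
    · have h1 := conv_lo_lt hN hlo
      have h2 := conv_lo_lt hN (conv_lo_congr hG hK (hR₁.isG a a' haa) (hR₁.isK a a' haa) hlo)
      exact ⟨fun _ => h2, fun _ => h1⟩
  · intro a a' haa
    rcases hp a a' haa with ⟨rfl, ha⟩ | hlo
    · exact (conv_cut hN hR hxy (hRA a ha) hbt).2.1
    · have h1 := conv_lo_lt hN hlo
      have h2 := conv_lo_lt hN (conv_lo_congr hG hK (hR₁.isG a a' haa) (hR₁.isK a a' haa) hlo)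
      exact ⟨fun h => absurd h (conv_asymm hN h1), fun h => absurd h (conv_asymm hN h2)⟩
  · intro b b' hbb hs _
    rcases hp b b' hbb with ⟨rfl, hb⟩ | hlo
    · exact h3 b hb hs
    · exact (conv_lo_same hN hlo hs).elim
  · intro u u' h
    rcases h with h | h
    · rcases hp u u' h with h | h
      · exact Or.inl h
      · exact Or.inr (Or.inr h)
    · exact Or.inr (Or.inl h)

theorem conv_eq_of (hN : Ax N) {u v : N} (h1 : ¬ lt u v) (h2 : ¬ lt v u) : u = v := by
  by_contra h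
  rcases hN.total u v h with h3 | h3
  · exact h1 h3
  · exact h2 h3

theorem conv_d_cases (hN : Ax N) (u v : N) : d u v = u ∨ (same u v ∧ u ≠ v) := by
  by_cases h : same u v
  · by_cases h' : u = v
    · subst h'; exact Or.inl (hN.d_self u)
    · exact Or.inr ⟨h, h'⟩
  · exact Or.inl (hN.d_junk u v h)

/-- a partial isomorphism, restricted to the pairs of `A` and of lower sort -/
theorem conv_restr (hN : Ax N) (A : Set N) (hA : ∀ x ∈ A, ∀ y ∈ A, d x y ∈ A)
    {R : N → N → Prop} (hR : PI R) (hRA : ∀ a ∈ A, R a a) (x : N) :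
    PI (fun u u' => (u = u' ∧ u ∈ A) ∨ (R u u' ∧ conv_lo x u)) := by
  have hsub : ∀ u u', ((u = u' ∧ u ∈ A) ∨ (R u u' ∧ conv_lo x u)) → R u u' := by
    rintro u u' (⟨rfl, h⟩ | ⟨h, _⟩)
    · exact hRA u h
    · exact h
  refine ⟨fun u u' v v' hu hv => hR.lt _ _ _ _ (hsub _ _ hu) (hsub _ _ hv),
    fun u u' hu => hR.isG _ _ (hsub _ _ hu), fun u u' hu => hR.isK _ _ (hsub _ _ hu), ?_⟩
  intro u u' v v' hu hv
  have hRd := hR.d _ _ _ _ (hsub _ _ hu) (hsub _ _ hv)
  have hGu := hR.isG _ _ (hsub _ _ hu)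
  have hKu := hR.isK _ _ (hsub _ _ hu)
  have hGv := hR.isG _ _ (hsub _ _ hv)
  have hKv := hR.isK _ _ (hsub _ _ hv)
  have hloc : conv_lo x (d u v) → (d u v = d u' v' ∧ d u v ∈ A) ∨ (R (d u v) (d u' v') ∧
      conv_lo x (d u v)) := fun h => Or.inr ⟨hRd, h⟩
  rcases conv_d_cases hN u v with h | ⟨h1, h2⟩
  · rcases hu with ⟨rfl, hu⟩ | ⟨hu, hlo⟩
    · rcases hv with ⟨rfl, hv⟩ | ⟨hv, hlo⟩
      · exact Or.inl ⟨rfl, hA u hu v hv⟩
      · left
        refine ⟨?_, by rw [h]; exact hu⟩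
        rw [h]
        have h4 : R u (d u v') := by
          have := hRd
          rwa [h] at this
        exact ((hR.inj hN hN (hRA u hu) h4).1 rfl)
    · exact hloc (by rw [h]; exact hlo)
  · have hd := conv_lo_d hN h1 h2
    rcases hu with ⟨rfl, hu⟩ | ⟨hu, hlo⟩
    · rcases hv with ⟨rfl, hv⟩ | ⟨hv, hlo⟩
      · exact Or.inl ⟨rfl, hA u hu v hv⟩
      · have hd' := conv_lo_d hN (conv_same_symm h1) (Ne.symm h2)
        rw [hN.d_symm v u (conv_same_symm h1)] at hd'
        exact hloc (conv_lo_trans hN hlo hd')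
    · exact hloc (conv_lo_trans hN hlo hd)

theorem conv_PI_eq : PI (fun u u' : N => u = u') := by
  refine ⟨?_, ?_, ?_, ?_⟩
  · rintro x _ y _ rfl rfl; exact Iff.rfl
  · rintro x _ rfl; exact Iff.rfl
  · rintro x _ rfl; exact Iff.rfl
  · rintro x _ y _ rfl rfl; rfl

theorem conv_step (hN : Ax N) (A : Set N) (hA : ∀ x ∈ A, ∀ y ∈ A, d x y ∈ A) (x : N)
    (IH : ∀ g, conv_lo x g → conv_P A g) : conv_P A x := by
  intro R hR hRA y z hxy hbt
  obtain ⟨hG, hK⟩ := conv_sort hN hR hxy hbt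
  by_cases hc : ∀ a ∈ A, same x a → d x a ∈ A
  · -- all distances are in `A`
    have hid : PI (fun u u' : N => (u = u' ∧ u ∈ A) ∨ (u = u' ∧ conv_lo x u)) :=
      conv_restr hN A hA conv_PI_eq (fun _ _ => rfl) x
    refine conv_fin hN A hR hRA hxy hbt hid (fun a ha => Or.inl ⟨rfl, ha⟩) ?_ ?_
    · rintro u u' (h | ⟨_, h⟩)
      · exact Or.inl h
      · exact Or.inr h
    · intro b hb hs
      have h1 := hc b hb hs
      have h2 := hR.d x y b b hxy (hRA b hb)
      have h3 : d x b = d y b := (hR.inj hN hN (hRA _ h1) h2).1 rfl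
      have h4 := conv_um hN hR hxy (hRA b hb) hbt hs
      have h5 : d x b = d z b := by
        rw [← h3] at h4
        rcases h4 with ⟨h4, h5⟩ | ⟨h4, h5⟩
        · exact conv_eq_of hN h5 h4
        · exact conv_eq_of hN h4 h5
      exact Or.inl ⟨h5, h1⟩
  · push Not at hc
    obtain ⟨a, ha, hs, hg⟩ := hc
    obtain ⟨-, -, hxa, hya, hza⟩ := conv_cut hN hR hxy (hRA a ha) hbt
    have hRg := hR.d x y a a hxy (hRA a ha)
    have hlog := conv_lo_d hN hs hxa
    have hum := conv_um hN hR hxy (hRA a ha) hbt hs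
    have sz : same z a := conv_same_of hG hK hs
    -- a partial isomorphism with `d x a ↦ d z a`
    obtain ⟨R₁, hR₁, hA₁, hgg, hp⟩ : ∃ R₁ : N → N → Prop, PI R₁ ∧ (∀ a ∈ A, R₁ a a) ∧
        R₁ (d x a) (d z a) ∧ ∀ u u', R₁ u u' → (u = u' ∧ u ∈ A) ∨ conv_lo x u := by
      by_cases e1 : d z a = d x a
      · refine ⟨_, conv_restr hN A hA conv_PI_eq (fun _ _ => rfl) x,
          fun a ha => Or.inl ⟨rfl, ha⟩, Or.inr ⟨e1.symm, hlog⟩, ?_⟩
        rintro u u' (h | ⟨_, h⟩)
        · exact Or.inl h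
        · exact Or.inr h
      · by_cases e2 : d z a = d y a
        · refine ⟨_, conv_restr hN A hA hR hRA x, fun a ha => Or.inl ⟨rfl, ha⟩,
            Or.inr ⟨by rw [e2]; exact hRg, hlog⟩, ?_⟩
          rintro u u' (h | ⟨_, h⟩)
          · exact Or.inl h
          · exact Or.inr h
        · have hb : conv_bt (d x a) (d z a) (d y a) := by
            rcases hum with ⟨h1, h2⟩ | ⟨h1, h2⟩
            · left
              refine ⟨?_, ?_⟩
              · rcases hN.total _ _ e1 with h | h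
                · exact absurd h h1
                · exact h
              · rcases hN.total _ _ e2 with h | h
                · exact h
                · exact absurd h h2
            · right
              refine ⟨?_, ?_⟩
              · rcases hN.total _ _ e2 with h | h
                · exact absurd h h2
                · exact h
              · rcases hN.total _ _ e1 with h | h
                · exact h
                · exact absurd h h1
          obtain ⟨R₁, h1, h2, h3, h4⟩ := IH (d x a) hlog R hR hRA (d y a) (d z a) hRg hb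
          refine ⟨R₁, h1, h2, h3, fun u u' hu => ?_⟩
          rcases h4 u u' hu with h | ⟨h, _⟩ | h
          · exact Or.inl h
          · right; rw [h]; exact hlog
          · exact Or.inr (conv_lo_trans hN hlog h)
    refine conv_fin hN A hR hRA hxy hbt hR₁ hA₁ hp ?_
    intro b hb hsb
    by_cases hba : b = a
    · subst hba; exact hgg
    · have hda : d a b ∈ A := hA a ha b hb
      have sab : same a b := conv_same_tr hN (conv_same_symm hs) (conv_same_symm hsb)
      have szb : same z b := conv_same_of hG hK hsb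
      have hne : d x a ≠ d a b := fun h => hg (h ▸ hda)
      have hRab := hA₁ _ hda
      rcases hN.total _ _ hne with h | h
      · -- `d x a < d a b`
        have h' := (hR₁.lt _ _ _ _ hgg hRab).1 h
        rw [(iso1 hN hs sab hxa (Ne.symm hba) h).2, (iso1 hN sz sab hza (Ne.symm hba) h').2]
        exact hgg
      · have h' := (hR₁.lt _ _ _ _ hRab hgg).1 h
        have sba := conv_same_symm sab
        have sax := conv_same_symm hs
        have saz := conv_same_symm sz
        rw [hN.d_symm a b sab, hN.d_symm x a hs] at h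
        rw [hN.d_symm a b sab, hN.d_symm z a sz] at h'
        have i1 := (iso1 hN sba sax hba (Ne.symm hxa) h).2
        have i2 := (iso1 hN sba saz hba (Ne.symm hza) h').2
        rw [hN.d_symm x b hsb, hN.d_symm z b szb, i1, i2]
        exact hA₁ _ (hA b hb a ha)

theorem conv_all (hN : Ax N) (A : Set N) (hA : ∀ x ∈ A, ∀ y ∈ A, d x y ∈ A) (x : N) :
    conv_P A x := by
  have hE : ∀ x : N, isE x → conv_P A x := fun x hx => conv_step hN A hA x fun g hg => by
    rcases hg with ⟨h, _⟩ | ⟨h, _⟩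
    · exact absurd h hx.2
    · exact absurd h hx.1
  have hGG : ∀ x : N, isG x → conv_P A x := fun x hx => conv_step hN A hA x fun g hg => by
    rcases hg with ⟨h, _⟩ | ⟨_, h⟩
    · exact absurd ⟨hx, h⟩ (hN.gk x)
    · exact hE g h
  by_cases hK : isK x
  · refine conv_step hN A hA x fun g hg => ?_
    rcases hg with ⟨_, h⟩ | ⟨h, _⟩
    · by_cases h' : isG g
      · exact hGG g h'
      · exact hE g ⟨h', h⟩
    · exact absurd ⟨h, hK⟩ (hN.gk x)
  · by_cases hG : isG x
    · exact hGG x hG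
    · exact hE x ⟨hG, hK⟩

end conv

/-- convexity of types over closed sets. -/
theorem conv {N : Type} [LL.Structure N] (hN : Ax N) (A : Set N) (hA : ∀ x ∈ A, ∀ y ∈ A, d x y ∈ A)
    (R : N → N → Prop) (hR : PI R) (hRA : ∀ a ∈ A, R a a) (x y z : N) (hxy : R x y) (hxz : lt x z)
    (hzy : lt z y) : ∃ R' : N → N → Prop, PI R' ∧ (∀ a ∈ A, R' a a) ∧ R' x z := by
  obtain ⟨R', h1, h2, h3, -⟩ := conv_all hN A hA x R hR hRA y z hxy (Or.inl ⟨hxz, hzy⟩)
  exact ⟨R', h1, h2, h3⟩

end Pool.Agent.H726T
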