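import Mathlib

/-!
# A two-level ordered ultrametric structure: language, axioms, standard model, partial isomorphisms
-/

set_option autoImplicit false

open FirstOrder FirstOrder.Language FirstOrder.Language.Structure

namespace Pool.Agent.H726T

/-- function symbols: a binary one (distance) -/
inductive Fn : ℕ → Type
  | d : Fn 2

/-- relation symbols: the order and the sorts `G`, `K` -/
inductive Rl : ℕ → Type
  | lt : Rl 2
  | isG : Rl 1
  | isK : Rl 1

/-- the language -/
def LL : FirstOrder.Language.{0, 0} := ⟨Fn, Rl⟩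

/-- the symbol for the distance -/
def dSym : LL.Functions 2 := Fn.d

/-- the symbol for the order -/
def ltSym : LL.Relations 2 := Rl.lt

/-- the symbol for the sort `G` -/
def gSym : LL.Relations 1 := Rl.isG

/-- the symbol for the sort `K` -/
def kSym : LL.Relations 1 := Rl.isK

section base

variable {N : Type} [LL.Structure N]

/-- distance -/
def d (x y : N) : N := Structure.funMap dSym ![x, y]

/-- order -/
def lt (x y : N) : Prop := Structure.RelMap ltSym ![x, y]

/-- the middle sort -/
def isG (x : N) : Prop := Structure.RelMap gSym ![x]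

/-- the top sort -/
def isK (x : N) : Prop := Structure.RelMap kSym ![x]

/-- the bottom sort -/
def isE (x : N) : Prop := ¬ isG x ∧ ¬ isK x

/-- both of sort `G`, or both of sort `K` -/
def same (x y : N) : Prop := (isG x ∧ isG y) ∨ (isK x ∧ isK y)

end base

/-- universal axioms -/
structure Ax (N : Type) [LL.Structure N] : Prop where
  irrefl : ∀ x : N, ¬ lt x x
  trans : ∀ x y z : N, lt x y → lt y z → lt x z
  total : ∀ x y : N, x ≠ y → lt x y ∨ lt y x
  gk : ∀ x : N, ¬ (isG x ∧ isK x)
  eg : ∀ x y : N, isE x → isG y → lt x y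
  ek : ∀ x y : N, isE x → isK y → lt x y
  ltgk : ∀ x y : N, isG x → isK y → lt x y
  d_self : ∀ x : N, d x x = x
  d_junk : ∀ x y : N, ¬ same x y → d x y = x
  d_G : ∀ x y : N, isG x → isG y → x ≠ y → isE (d x y)
  d_K : ∀ x y : N, isK x → isK y → x ≠ y → isG (d x y)
  d_symm : ∀ x y : N, same x y → d x y = d y x
  um : ∀ x y z : N, same x y → same y z → lt x y → lt y z →
    (d x z = d x y ∧ ¬ lt (d y z) (d x y)) ∨ (d x z = d y z ∧ ¬ lt (d x y) (d y z))

/-- `R` is a partial isomorphism whose domain and range are closed under `d` -/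
structure PI {N N' : Type} [LL.Structure N] [LL.Structure N'] (R : N → N' → Prop) : Prop where
  lt : ∀ x x' y y', R x x' → R y y' → (H726T.lt x y ↔ H726T.lt x' y')
  isG : ∀ x x', R x x' → (H726T.isG x ↔ H726T.isG x')
  isK : ∀ x x', R x x' → (H726T.isK x ↔ H726T.isK x')
  d : ∀ x x' y y', R x x' → R y y' → R (H726T.d x y) (H726T.d x' y')

/-! ### The standard model -/

/-- finitely supported functions `ℚ → ℚ`, lexicographic order -/
abbrev GG : Type := Lex (ℚ →₀ ℚ)

/-- finitely supported functions `GG → ℚ`, lexicographic order -/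
abbrev KK : Type := Lex (GG →₀ ℚ)

/-- the first place where two functions differ -/
noncomputable def dl {A : Type} [LinearOrder A] [Inhabited A] (x y : A →₀ ℚ) : A :=
  if h : (x.neLocus y).Nonempty then (x.neLocus y).min' h else default

/-- the standard model -/
inductive S : Type
  | e : ℚ → S
  | g : GG → S
  | k : KK → S

open Classical in
/-- distance in the standard model -/
noncomputable def dS : S → S → S
  | .g x, .g y => if x = y then .g x else .e (dl (ofLex x) (ofLex y))
  | .k x, .k y => if x = y then .k x else .g (dl (ofLex x) (ofLex y))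
  | x, _ => x

/-- order in the standard model -/
def ltS : S → S → Prop
  | .e a, .e b => a < b
  | .g a, .g b => a < b
  | .k a, .k b => a < b
  | .e _, .g _ => True
  | .e _, .k _ => True
  | .g _, .k _ => True
  | _, _ => False

noncomputable instance : LL.Structure S where
  funMap := fun {n} (f : Fn n) v => match n, f, v with
    | _, Fn.d, v => dS (v 0) (v 1)
  RelMap := fun {n} (r : Rl n) v => match n, r, v with
    | _, Rl.lt, v => ltS (v 0) (v 1)
    | _, Rl.isG, v => ∃ x, v 0 = S.g x
    | _, Rl.isK, v => ∃ x, v 0 = S.k x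

@[simp] theorem d_S (x y : S) : d x y = dS x y := rfl
@[simp] theorem lt_S (x y : S) : lt x y ↔ ltS x y := Iff.rfl
@[simp] theorem isG_S (x : S) : isG x ↔ ∃ y, x = S.g y := Iff.rfl
@[simp] theorem isK_S (x : S) : isK x ↔ ∃ y, x = S.k y := Iff.rfl

/-! ### Atomic formulas -/

section fml

variable {α : Type}

/-- the term `d t₁ t₂` -/
def dT (t₁ t₂ : LL.Term α) : LL.Term α := dSym.apply₂ t₁ t₂

/-- the formula `t₁ < t₂` -/
def ltF (t₁ t₂ : LL.Term α) : LL.Formula α := ltSym.formula₂ t₁ t₂

/-- the formula saying that `t` is of sort `G` -/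
def gF (t : LL.Term α) : LL.Formula α := gSym.formula₁ t

/-- the formula saying that `t` is of sort `K` -/
def kF (t : LL.Term α) : LL.Formula α := kSym.formula₁ t

variable {N : Type} [LL.Structure N] (v : α → N) (t₁ t₂ : LL.Term α)

@[simp] theorem realize_dT : (dT t₁ t₂).realize v = d (t₁.realize v) (t₂.realize v) := by
  rw [dT, Term.realize_functions_apply₂]
  rfl

@[simp] theorem realize_ltF : (ltF t₁ t₂).Realize v ↔ lt (t₁.realize v) (t₂.realize v) := by
  rw [ltF, Formula.realize_rel₂]
  rfl

@[simp] theorem realize_gF : (gF t₁).Realize v ↔ isG (t₁.realize v) := by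
  rw [gF, Formula.realize_rel₁]
  rfl

@[simp] theorem realize_kF : (kF t₁).Realize v ↔ isK (t₁.realize v) := by
  rw [kF, Formula.realize_rel₁]
  rfl

end fml

section map

variable {N N' : Type} [LL.Structure N] [LL.Structure N'] (j : N ↪ₑ[LL] N')

theorem map_lt (x y : N) : lt (j x) (j y) ↔ lt x y := by
  have h := j.map_formula (ltF (Term.var (0 : Fin 2)) (Term.var 1)) ![x, y]
  rw [realize_ltF, realize_ltF] at h
  exact h

theorem map_isG (x : N) : isG (j x) ↔ isG x := by
  have h := j.map_formula (gF (Term.var (0 : Fin 1))) ![x]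
  rw [realize_gF, realize_gF] at h
  exact h

theorem map_isK (x : N) : isK (j x) ↔ isK x := by
  have h := j.map_formula (kF (Term.var (0 : Fin 1))) ![x]
  rw [realize_kF, realize_kF] at h
  exact h

theorem map_isE (x : N) : isE (j x) ↔ isE x := by
  rw [isE, isE, map_isG, map_isK]

theorem map_d (x y : N) : j (d x y) = d (j x) (j y) := by
  have h := j.map_formula (Term.equal (dT (Term.var (0 : Fin 3)) (Term.var 1)) (Term.var 2))
    ![x, y, d x y]
  rw [Formula.realize_equal, Formula.realize_equal, realize_dT, realize_dT] at h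
  exact (h.2 rfl).symm

end map

/-! ### Sequences in the standard model -/

/-- `γ_n`: increasing and cofinal in `GG` -/
noncomputable def gm (n : ℕ) : GG := toLex (Finsupp.single (-(n : ℚ)) 1)

/-- `γ_n` as an element of `S` -/
noncomputable def gam (n : ℕ) : S := .g (gm n)

/-- `f_n`, the sum of the first `n` unit vectors at `γ_0, …, γ_{n-1}` -/
noncomputable def ff (n : ℕ) : S := .k (toLex (∑ i ∈ Finset.range n, Finsupp.single (gm i) (1 : ℚ)))

/-- `ε_n = -n` -/
noncomputable def eps (n : ℕ) : S := .e (-(n : ℚ))

/-- `γ_n` moved at the place `e` -/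
noncomputable def gg (n : ℕ) (e : ℚ) : S :=
  .g (toLex (Finsupp.single (-(n : ℚ)) 1 + Finsupp.single e 1))

/-! ### Term closure of a tuple -/

/-- indices of the elements generated by an `n`-tuple -/
abbrev T (n : ℕ) : Type := (Fin n × Fin n) × (Fin n × Fin n)

section val

variable {N : Type} [LL.Structure N]

/-- the elements generated by a tuple -/
def val {n : ℕ} (v : Fin n → N) (p : T n) : N := d (d (v p.1.1) (v p.1.2)) (d (v p.2.1) (v p.2.2))

end val

/-- the tuples `v` and `w` have the same atomic diagram -/
def SameDiag {N N' : Type} [LL.Structure N] [LL.Structure N'] {n : ℕ} (v : Fin n → N)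
    (w : Fin n → N') : Prop :=
  (∀ p q : T n, lt (val v p) (val v q) ↔ lt (val w p) (val w q)) ∧
  (∀ p : T n, isG (val v p) ↔ isG (val w p)) ∧ (∀ p : T n, isK (val v p) ↔ isK (val w p))

end Pool.Agent.H726T
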