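import Pool.Agent.H726T.Defs

set_option autoImplicit false

open FirstOrder FirstOrder.Language FirstOrder.Language.Structure

namespace Pool.Agent.H726T

/-- pigeonhole in a grid.  The map `j ↦ (fun i : Fin (card D + 1) => (r i j, s i j))` has a finite codomain, so it takes the same value at some `j₁ ≠ j₂`; then among the `card D + 1` indices `i` two
have the same `s i j₁`. -/
theorem grid {D : Type} [Finite D] (r s : ℕ → ℕ → D) : ∃ i₁ i₂ j₁ j₂ : ℕ, i₁ ≠ i₂ ∧ j₁ ≠ j₂ ∧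
    r i₁ j₁ = r i₁ j₂ ∧ r i₂ j₁ = r i₂ j₂ ∧ s i₁ j₁ = s i₂ j₁ ∧ s i₁ j₂ = s i₂ j₂ := by
  classical
  have : Fintype D := Fintype.ofFinite D
  obtain ⟨j₁, j₂, hj, hF⟩ := Finite.exists_ne_map_eq_of_infinite
    (fun j : ℕ => fun i : Fin (Fintype.card D + 1) => (r i j, s i j))
  obtain ⟨i₁, i₂, hi, hs⟩ := Fintype.exists_ne_map_eq_of_card_lt
    (fun i : Fin (Fintype.card D + 1) => s i j₁) (by rw [Fintype.card_fin]; exact Nat.lt_succ_self _)
  have h1 := congrFun hF i₁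
  have h2 := congrFun hF i₂
  rw [Prod.mk.injEq] at h1 h2
  have hs' : s i₁ j₁ = s i₂ j₁ := hs
  refine ⟨i₁, i₂, j₁, j₂, fun h => hi (Fin.ext h), hj, h1.1, h2.1, hs', ?_⟩
  rw [← h1.2, ← h2.2, hs']

end Pool.Agent.H726T
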