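import Pool.Agent.H726T.Defs
import Pool.Agent.Y562.NWO.Tensor

/-!
# Coheirs, commuting types, dp-minimality: definitions
-/

set_option autoImplicit false

open FirstOrder FirstOrder.Language FirstOrder.Language.Structure Cardinal
open Pool.Agent.Y562.NWO (tp IsGlobalType Invariant Realizes IsTensor IsMonster)

namespace Pool.Agent.H726T

section defs

variable {L : FirstOrder.Language.{0, 0}} {M U : Type} [L.Structure M] [L.Structure U]

/-- `r` is a coheir of the complete type `q` over `M` (where `M` is elementarily embedded in `U` by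
`j`): a complete type over `U` whose restriction to `M` is `q` and which is finitely satisfiable
in `M`, that is, every formula of `r` is satisfied by a tuple of `M`. -/
def IsCoheir {β : Type} (j : M ↪ₑ[L] U) (q : Set (L.Formula (β ⊕ M)))
    (r : Set (L.Formula (β ⊕ U))) : Prop :=
  IsGlobalType r ∧ (∀ φ : L.Formula (β ⊕ M), φ.relabel (Sum.map id j) ∈ r ↔ φ ∈ q) ∧
    ∀ φ ∈ r, ∃ m : β → M, φ.Realize (Sum.elim (fun i => j (m i)) id)

/-- the `A`-invariant global types `p` and `r` commute: `p(x) ⊗ r(y) = r(y) ⊗ p(x)`. -/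
def Commute {α β : Type} (A : Set U) (p : Set (L.Formula (α ⊕ U))) (r : Set (L.Formula (β ⊕ U))) :
    Prop :=
  ∃ (s : Set (L.Formula ((α ⊕ β) ⊕ U))) (t : Set (L.Formula ((β ⊕ α) ⊕ U))),
    IsGlobalType s ∧ IsGlobalType t ∧ IsTensor A p r s ∧ IsTensor A r p t ∧
      ∀ φ : L.Formula ((α ⊕ β) ⊕ U), φ ∈ s ↔ φ.relabel (Sum.map Sum.swap id) ∈ t

/-- The theory of `M` has no depth two pattern in one variable: there are no formulas `φ(x; y)`,
`ψ(x; z)` with `x` a single variable and sequences `a i`, `c j` of tuples of an elementary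
extension `N` of `M` such that for all `i`, `j` some `x ∈ N` satisfies `φ(x; a i')` exactly for
`i' = i` and `ψ(x; c j')` exactly for `j' = j`. -/
def IsDpMinimal (L : FirstOrder.Language.{0, 0}) (M : Type) [L.Structure M] : Prop :=
  ∀ (N : Type) [L.Structure N] (_ : M ↪ₑ[L] N) (k l : ℕ) (φ : L.Formula (Fin 1 ⊕ Fin k))
    (ψ : L.Formula (Fin 1 ⊕ Fin l)) (a : ℕ → Fin k → N) (c : ℕ → Fin l → N),
    ¬ ∀ i j : ℕ, ∃ x : N,
      (∀ i', φ.Realize (Sum.elim (fun _ => x) (a i')) ↔ i' = i) ∧
      (∀ j', ψ.Realize (Sum.elim (fun _ => x) (c j')) ↔ j' = j)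

end defs

/-- rationals tending to `α` from the right -/
def FE (α : ℝ) : Filter ℚ := Filter.comap (fun q : ℚ => (q : ℝ)) (nhdsWithin α (Set.Ioi α))

/-- the limit type of a family of tuples along an ultrafilter -/
def lim {L : FirstOrder.Language.{0, 0}} {U : Type} [L.Structure U] {I δ : Type} (𝓤 : Ultrafilter I)
    (v : I → δ → U) : Set (L.Formula (δ ⊕ U)) :=
  {φ | ∀ᶠ i in (𝓤 : Filter I), φ.Realize (Sum.elim (v i) id)}

end Pool.Agent.H726T
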