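import Pool.Agent.H726T.ClosT
import Pool.Agent.H726T.AxN
import Pool.Agent.H726T.Qe
import Pool.Agent.H726T.Conv
import Pool.Agent.H726T.ExtOne
import Pool.Agent.H726T.Grid
import Pool.Agent.H726T.TDefs

set_option autoImplicit false

open FirstOrder FirstOrder.Language FirstOrder.Language.Structure

namespace Pool.Agent.H726T

section dpmin_aux

variable {N : Type} [LL.Structure N]

/-- the diagram of a tuple -/
def dpmin_diag {n : ℕ} (v : Fin n → N) : (T n → T n → Prop) × (T n → Prop) × (T n → Prop) :=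
  (fun p q => lt (val v p) (val v q), fun p => isG (val v p), fun p => isK (val v p))

theorem dpmin_same {n : ℕ} {v w : Fin n → N} (h : dpmin_diag v = dpmin_diag w) : SameDiag v w := by
  refine ⟨fun p q => ?_, fun p => ?_, fun p => ?_⟩
  · exact iff_of_eq (congrFun (congrFun (congrArg Prod.fst h) p) q)
  · exact iff_of_eq (congrFun (congrArg (fun z => z.2.1) h) p)
  · exact iff_of_eq (congrFun (congrArg (fun z => z.2.2) h) p)

theorem dpmin_ssymm {n : ℕ} {v w : Fin n → N} (h : SameDiag v w) : SameDiag w v :=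
  ⟨fun p q => (h.1 p q).symm, fun p => (h.2.1 p).symm, fun p => (h.2.2 p).symm⟩

theorem dpmin_ends (j : S ↪ₑ[LL] N) {n : ℕ} (φ : LL.Formula (Fin 1 ⊕ Fin n)) (a : Fin n → N)
    (x y : N) (h : SameDiag (Fin.cons x a : Fin (n + 1) → N) (Fin.cons y a : Fin (n + 1) → N)) :
    φ.Realize (Sum.elim (fun _ => x) a) ↔ φ.Realize (Sum.elim (fun _ => y) a) := by
  have hN := axN j
  obtain ⟨hR, hv⟩ := closT hN hN _ _ h
  refine qe j j hR φ _ _ ?_
  rintro (i | i)
  · exact hv 0
  · exact hv i.succ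

theorem dpmin_mid (j : S ↪ₑ[LL] N) {n : ℕ} (φ : LL.Formula (Fin 1 ⊕ Fin n)) (a : Fin n → N)
    (x y z : N) (h : SameDiag (Fin.cons x a : Fin (n + 1) → N) (Fin.cons y a : Fin (n + 1) → N))
    (hxz : lt x z) (hzy : lt z y) :
    φ.Realize (Sum.elim (fun _ => x) a) ↔ φ.Realize (Sum.elim (fun _ => z) a) := by
  have hN := axN j
  obtain ⟨hR, hv⟩ := closT hN hN _ _ h
  set R : N → N → Prop := fun u w => ∃ p : T (n + 1), u = val (Fin.cons x a : Fin (n + 1) → N) p ∧
    w = val (Fin.cons y a : Fin (n + 1) → N) p with hRdef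
  obtain ⟨R', hR', hA', hxz'⟩ := conv hN {u | R u u} (fun u hu w hw => hR.d u u w w hu hw) R hR
    (fun u hu => hu) x y z (hv 0) hxz hzy
  refine qe j j hR' φ _ _ ?_
  rintro (i | i)
  · exact hxz'
  · exact hA' (a i) (hv i.succ)

/-- weakly between -/
def dpmin_Btw (x y z : N) : Prop := z = x ∨ z = y ∨ (lt x z ∧ lt z y) ∨ (lt y z ∧ lt z x)

theorem dpmin_bsymm {x y z : N} (h : dpmin_Btw x y z) : dpmin_Btw y x z := by
  rcases h with h | h | h | h
  · exact Or.inr (Or.inl h)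
  · exact Or.inl h
  · exact Or.inr (Or.inr (Or.inr h))
  · exact Or.inr (Or.inr (Or.inl h))

theorem dpmin_btw (j : S ↪ₑ[LL] N) {n : ℕ} (φ : LL.Formula (Fin 1 ⊕ Fin n)) (a : Fin n → N)
    (x y z : N) (h : SameDiag (Fin.cons x a : Fin (n + 1) → N) (Fin.cons y a : Fin (n + 1) → N))
    (hx : φ.Realize (Sum.elim (fun _ => x) a)) (hb : dpmin_Btw x y z) :
    φ.Realize (Sum.elim (fun _ => z) a) := by
  rcases hb with rfl | rfl | ⟨h1, h2⟩ | ⟨h1, h2⟩
  · exact hx
  · exact (dpmin_ends j φ a _ _ h).1 hx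
  · exact (dpmin_mid j φ a _ _ _ h h1 h2).1 hx
  · exact (dpmin_mid j φ a _ _ _ (dpmin_ssymm h) h1 h2).1 ((dpmin_ends j φ a _ _ h).1 hx)

theorem dpmin_two (hN : Ax N) (m u w : N) (hmu : lt m u ∨ m = u) (hmw : lt m w ∨ m = w)
    (h1 : ¬ dpmin_Btw m u w) (h2 : ¬ dpmin_Btw m w u) : False := by
  by_cases huw : u = w
  · exact h1 (Or.inr (Or.inl huw.symm))
  · rcases hN.total u w huw with h | h
    · rcases hmu with h3 | h3
      · exact h2 (Or.inr (Or.inr (Or.inl ⟨h3, h⟩)))
      · exact h2 (Or.inl h3.symm)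
    · rcases hmw with h3 | h3
      · exact h1 (Or.inr (Or.inr (Or.inl ⟨h3, h⟩)))
      · exact h1 (Or.inl h3.symm)

theorem dpmin_le (hN : Ax N) (x y : N) : (lt x y ∨ x = y) ∨ (lt y x ∨ y = x) := by
  by_cases h : x = y
  · exact Or.inl (Or.inr h)
  · rcases hN.total x y h with h | h
    · exact Or.inl (Or.inl h)
    · exact Or.inr (Or.inl h)

theorem dpmin_lt (hN : Ax N) {x y z : N} (h : lt x y ∨ x = y) (h' : lt y z ∨ y = z) :
    lt x z ∨ x = z := by
  rcases h with h | rfl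
  · rcases h' with h' | rfl
    · exact Or.inl (hN.trans _ _ _ h h')
    · exact Or.inl h
  · exact h'

theorem dpmin_four (hN : Ax N) (p q r s : N)
    (a1 : ¬ dpmin_Btw p q r) (a2 : ¬ dpmin_Btw p q s)
    (b1 : ¬ dpmin_Btw r s p) (b2 : ¬ dpmin_Btw r s q)
    (c1 : ¬ dpmin_Btw p r q) (c2 : ¬ dpmin_Btw p r s)
    (d1 : ¬ dpmin_Btw q s p) (d2 : ¬ dpmin_Btw q s r) : False := by
  have hp : (lt p q ∨ p = q) → (lt p r ∨ p = r) → False := fun h h' =>
    dpmin_two hN p q r h h' a1 c1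
  have hq : (lt q p ∨ q = p) → (lt q s ∨ q = s) → False := fun h h' =>
    dpmin_two hN q p s h h' (fun hb => a2 (dpmin_bsymm hb)) d1
  have hr : (lt r s ∨ r = s) → (lt r p ∨ r = p) → False := fun h h' =>
    dpmin_two hN r s p h h' b1 (fun hb => c2 (dpmin_bsymm hb))
  have hs : (lt s r ∨ s = r) → (lt s q ∨ s = q) → False := fun h h' =>
    dpmin_two hN s r q h h' (fun hb => b2 (dpmin_bsymm hb)) (fun hb => d2 (dpmin_bsymm hb))
  rcases dpmin_le hN p q with h1 | h1
  · rcases dpmin_le hN r s with h2 | h2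
    · rcases dpmin_le hN p r with h3 | h3
      · exact hp h1 h3
      · exact hr h2 h3
    · rcases dpmin_le hN p s with h3 | h3
      · exact hp h1 (dpmin_lt hN h3 h2)
      · exact hs h2 (dpmin_lt hN h3 h1)
  · rcases dpmin_le hN r s with h2 | h2
    · rcases dpmin_le hN q r with h3 | h3
      · exact hq h1 (dpmin_lt hN h3 h2)
      · exact hr h2 (dpmin_lt hN h3 h1)
    · rcases dpmin_le hN q s with h3 | h3
      · exact hq h1 h3
      · exact hs h2 h3

end dpmin_aux

/-- the standard model is dp-minimal (definition `IsDpMinimal` in `TDefs.lean`).  Let `N`, `φ, ψ, a, c` be a pattern with elements `x i j`.  Let `D` be the (finite) type of all diagrams of tuples of length `k+1` and `l+1`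
(triples of relations on `T (k+1)` resp. `T (l+1)`; e.g. `D := Diag (k+1) × Diag (l+1)` with `Diag n := (T n → T n → Prop) × (T n → Prop) × (T n → Prop)`), `r i j` := the diagram of `Fin.cons (x i j) (a i) : Fin (k+1) → N`
(with some fixed second component) and `s i j` := that of `Fin.cons (x i j) (c j)`.  By `grid` there are `i₁ ≠ i₂`, `j₁ ≠ j₂` with `SameDiag (cons (x i j₁) (a i)) (cons (x i j₂) (a i))` for `i = i₁, i₂` and `SameDiag (cons (x i₁ j) (c j)) (cons (x i₂ j) (c j))` for `j = j₁, j₂`.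
Lemma: if `SameDiag (cons x a) (cons y a)` and `x < z < y` (`lt`), then `φ(x; a) ↔ φ(z; a)` (and also `φ(x;a) ↔ φ(y;a)`): `closT` gives a `PI` `R` with `R x y` and `R (a i) (a i)`; let `A := {u | R u u}` (closed under `d`); `conv` gives `R'` with `R' x z` and `R' (a i) (a i)`; apply `qe`.
So with `p = x i₁ j₁, q = x i₁ j₂, r = x i₂ j₁, s = x i₂ j₂`: no point of `{r, s}` is (weakly) between `p` and `q` (all points between satisfy `φ(·; a i₁)`, which `r, s` do not), none of `{p, q}` is weakly between `r` and `s`; none of `{q, s}` is weakly between `p` and `r`, none of `{p, r}` is weakly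
between `q` and `s` (these by `ψ`).  In a linear order this is impossible: let `m` be the least of the four, say `p`; then `p < q` or `p = q`... `r, s` are above `max p q`, so `q` is between `p` and `r`, contradiction; the other cases are symmetric (prove one lemma for 4 points and apply it 4 times). -/
theorem dpmin : IsDpMinimal LL S := by
  intro N _ jN k l φ ψ a c hpat
  choose x hx using hpat
  have hN := axN jN
  have f1 : ∀ n : ℕ, Finite (T n → Prop) := fun n => inferInstance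
  have f2 : ∀ n : ℕ, Finite (T n → T n → Prop) := fun n => inferInstance
  have f3 : ∀ n : ℕ, Finite ((T n → Prop) × (T n → Prop)) := fun n => inferInstance
  have f4 : ∀ n : ℕ, Finite ((T n → T n → Prop) × (T n → Prop) × (T n → Prop)) := fun n =>
    inferInstance
  have f5 : Finite (((T (k + 1) → T (k + 1) → Prop) × (T (k + 1) → Prop) × (T (k + 1) → Prop)) ×
      ((T (l + 1) → T (l + 1) → Prop) × (T (l + 1) → Prop) × (T (l + 1) → Prop))) := inferInstance
  obtain ⟨i₁, i₂, j₁, j₂, hi, hj, r1, r2, s1, s2⟩ := grid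
    (D := ((T (k + 1) → T (k + 1) → Prop) × (T (k + 1) → Prop) × (T (k + 1) → Prop)) ×
      ((T (l + 1) → T (l + 1) → Prop) × (T (l + 1) → Prop) × (T (l + 1) → Prop)))
    (fun i j => (dpmin_diag (Fin.cons (x i j) (a i) : Fin (k + 1) → N),
      dpmin_diag (Fin.cons (x 0 0) (c 0) : Fin (l + 1) → N)))
    (fun i j => (dpmin_diag (Fin.cons (x 0 0) (a 0) : Fin (k + 1) → N),
      dpmin_diag (Fin.cons (x i j) (c j) : Fin (l + 1) → N)))
  have R1 := dpmin_same (congrArg Prod.fst r1)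
  have R2 := dpmin_same (congrArg Prod.fst r2)
  have S1 := dpmin_same (congrArg Prod.snd s1)
  have S2 := dpmin_same (congrArg Prod.snd s2)
  have A1 : ∀ j z, dpmin_Btw (x i₁ j₁) (x i₁ j₂) z → z ≠ x i₂ j := by
    rintro j z hb rfl
    have h := dpmin_btw jN φ (a i₁) _ _ _ R1 (((hx i₁ j₁).1 i₁).2 rfl) hb
    exact hi (((hx i₂ j).1 i₁).1 h)
  have A2 : ∀ j z, dpmin_Btw (x i₂ j₁) (x i₂ j₂) z → z ≠ x i₁ j := by
    rintro j z hb rfl
    have h := dpmin_btw jN φ (a i₂) _ _ _ R2 (((hx i₂ j₁).1 i₂).2 rfl) hb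
    exact hi (((hx i₁ j).1 i₂).1 h).symm
  have C1 : ∀ i z, dpmin_Btw (x i₁ j₁) (x i₂ j₁) z → z ≠ x i j₂ := by
    rintro i z hb rfl
    have h := dpmin_btw jN ψ (c j₁) _ _ _ S1 (((hx i₁ j₁).2 j₁).2 rfl) hb
    exact hj (((hx i j₂).2 j₁).1 h)
  have C2 : ∀ i z, dpmin_Btw (x i₁ j₂) (x i₂ j₂) z → z ≠ x i j₁ := by
    rintro i z hb rfl
    have h := dpmin_btw jN ψ (c j₂) _ _ _ S2 (((hx i₁ j₂).2 j₂).2 rfl) hb
    exact hj (((hx i j₁).2 j₂).1 h).symm
  exact dpmin_four hN (x i₁ j₁) (x i₁ j₂) (x i₂ j₁) (x i₂ j₂)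
    (fun h => A1 _ _ h rfl) (fun h => A1 _ _ h rfl) (fun h => A2 _ _ h rfl)
    (fun h => A2 _ _ h rfl) (fun h => C1 _ _ h rfl) (fun h => C1 _ _ h rfl)
    (fun h => C2 _ _ h rfl) (fun h => C2 _ _ h rfl)

end Pool.Agent.H726T
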