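import Pool.Agent.H726T.AxN
import Pool.Agent.H726T.LimBasic
import Pool.Agent.H726T.SeqS
import Pool.Agent.H726T.AxS

set_option autoImplicit false

open FirstOrder FirstOrder.Language FirstOrder.Language.Structure Cardinal
open Pool.Agent.Y562.NWO

namespace Pool.Agent.H726T

theorem exBr_countable : Countable S := by
  have hG : Countable GG := inferInstanceAs (Countable (ℚ →₀ ℚ))
  have hK : Countable KK := inferInstanceAs (Countable (GG →₀ ℚ))
  let f : S → ℚ ⊕ (GG ⊕ KK) := fun x => match x with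
    | .e a => Sum.inl a
    | .g a => Sum.inr (Sum.inl a)
    | .k a => Sum.inr (Sum.inr a)
  have hf : Function.Injective f := by
    rintro (a | a | a) (b | b | b) h
    · exact congrArg S.e (Sum.inl.inj h)
    · exact absurd h Sum.inl_ne_inr
    · exact absurd h Sum.inl_ne_inr
    · exact absurd h Sum.inr_ne_inl
    · exact congrArg S.g (Sum.inl.inj (Sum.inr.inj h))
    · exact absurd (Sum.inr.inj h) Sum.inl_ne_inr
    · exact absurd h Sum.inr_ne_inl
    · exact absurd (Sum.inr.inj h) Sum.inr_ne_inl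
    · exact congrArg S.k (Sum.inr.inj (Sum.inr.inj h))
  exact hf.countable

theorem exBr_mem {U : Type} [LL.Structure U] (j : S ↪ₑ[LL] U) (𝓦 : Ultrafilter ℕ)
    (ψ : LL.Formula (Fin 1 ⊕ S))
    (h : ∀ᶠ n in (𝓦 : Filter ℕ), ψ.Realize (Sum.elim (fun _ : Fin 1 => j (ff n)) j)) :
    ψ.relabel (Sum.map id j) ∈ lim (L := LL) 𝓦 (fun n (_ : Fin 1) => j (ff n)) := by
  change ∀ᶠ n in (𝓦 : Filter ℕ), (ψ.relabel (Sum.map id j)).Realize _
  filter_upwards [h] with n hn
  rw [Formula.realize_relabel, Sum.elim_comp_map]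
  exact hn

/-- a branch exists -/
theorem exBr {U : Type} [LL.Structure U] {κ : Cardinal.{0}} (hU : IsMonster κ LL U)
    (j : S ↪ₑ[LL] U) : ∃ c₀ : U, Br j c₀ := by
  have := exBr_countable
  let 𝓦 : Ultrafilter ℕ := Ultrafilter.of Filter.atTop
  have hW : (𝓦 : Filter ℕ) ≤ Filter.atTop := Ultrafilter.of_le _
  have hp : IsGlobalType (lim (L := LL) 𝓦 (fun n (_ : Fin 1) => j (ff n))) := lim_global _ _
  obtain ⟨c, hc⟩ := exists_realizes hU hp (Set.range j)
    ((Set.countable_range j).le_aleph0.trans_lt hU.aleph0_lt)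
  have key : ∀ ψ : LL.Formula (Fin 1 ⊕ S),
      (∀ᶠ n in (𝓦 : Filter ℕ), ψ.Realize (Sum.elim (fun _ : Fin 1 => j (ff n)) j)) →
        ψ.Realize (Sum.elim c j) := fun ψ h =>
    (hc.apply hp (fun i : S => j i) (fun i => ⟨i, rfl⟩) ψ).1 (exBr_mem j 𝓦 ψ h)
  refine ⟨c 0, ?_, fun n => ?_⟩
  · have h1 := key (kF (Term.var (Sum.inl 0))) (by
      refine Filter.Eventually.of_forall fun n => ?_
      rw [realize_kF]
      exact (map_isK j (ff n)).2 ⟨_, rfl⟩)
    rw [realize_kF] at h1
    exact h1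
  · have h1 := key (Term.equal (dT (Term.var (Sum.inl 0)) (Term.var (Sum.inr (ff n))))
      (Term.var (Sum.inr (gam n)))) (by
      filter_upwards [hW (Filter.eventually_gt_atTop n)] with m hm
      rw [Formula.realize_equal, realize_dT]
      change d (j (ff m)) (j (ff n)) = j (gam n)
      rw [← map_d, axS.d_symm (ff m) (ff n) (Or.inr ⟨⟨_, rfl⟩, ⟨_, rfl⟩⟩), (seqS.1 n m hm).2.2.1])
    rw [Formula.realize_equal, realize_dT] at h1
    exact h1

end Pool.Agent.H726T
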