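import Pool.Agent.H726T.TDefs2

set_option autoImplicit false

open FirstOrder FirstOrder.Language FirstOrder.Language.Structure Cardinal
open Pool.Agent.Y562.NWO

namespace Pool.Agent.H726T

/-- the closure in stages -/
def exClosed_a {U : Type} [LL.Structure U] (D : Set U) : ℕ → Set U
  | 0 => D
  | n + 1 => exClosed_a D n ∪ Set.image2 d (exClosed_a D n) (exClosed_a D n)

theorem exClosed_countable {U : Type} [LL.Structure U] (D : Set U) (hD : D.Countable) (n : ℕ) :
    (exClosed_a D n).Countable := by
  induction n with
  | zero => exact hD
  | succ n ih => exact ih.union (ih.image2 ih d)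

theorem exClosed_mono {U : Type} [LL.Structure U] (D : Set U) : Monotone (exClosed_a D) :=
  monotone_nat_of_le_succ fun _ => Set.subset_union_left

/-- countable closed sets.  `C :=` the carrier of `Substructure.closure LL D` (countable: `Set.Countable.substructure_closure` or `Substructure.countable...`, as `LL` has countably many functions: `LL.Functions n = Fn n`), closed under `d x y = funMap dSym ![x, y]` (`Substructure.fun_mem`/`funMap_mem`).  Or define `C := ⋃ n, (step^[n] D)` with `step X = X ∪ image2 d X X`. -/
theorem exClosed {U : Type} [LL.Structure U] (D : Set U) (hD : D.Countable) :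
    ∃ C : Set U, D ⊆ C ∧ C.Countable ∧ ∀ x ∈ C, ∀ y ∈ C, d x y ∈ C := by
  refine ⟨⋃ n, exClosed_a D n, ?_, ?_, ?_⟩
  · exact Set.subset_iUnion (exClosed_a D) 0
  · exact Set.countable_iUnion (exClosed_countable D hD)
  · intro x hx y hy
    rw [Set.mem_iUnion] at hx hy ⊢
    obtain ⟨n, hn⟩ := hx
    obtain ⟨m, hm⟩ := hy
    exact ⟨max n m + 1, Or.inr ⟨x, exClosed_mono D (le_max_left n m) hn, y,
      exClosed_mono D (le_max_right n m) hm, rfl⟩⟩

theorem exClosed_GG : Countable GG := inferInstanceAs (Countable (ℚ →₀ ℚ))

theorem exClosed_KK : Countable KK := by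
  haveI : Countable GG := exClosed_GG
  exact inferInstanceAs (Countable (GG →₀ ℚ))

theorem exClosed_S : Countable S := by
  haveI : Countable GG := exClosed_GG
  haveI : Countable KK := exClosed_KK
  let f : ℚ ⊕ GG ⊕ KK → S := fun t => match t with
    | .inl a => S.e a
    | .inr (.inl a) => S.g a
    | .inr (.inr a) => S.k a
  have hf : Function.Surjective f := by
    rintro (a | a | a)
    · exact ⟨.inl a, rfl⟩
    · exact ⟨.inr (.inl a), rfl⟩
    · exact ⟨.inr (.inr a), rfl⟩
  exact hf.countable

theorem exClosed_Fn (n : ℕ) : Countable (Fn n) := by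
  haveI : Subsingleton (Fn n) := ⟨fun a b => by cases a; cases b; rfl⟩
  infer_instance

theorem exClosed_Rl (n : ℕ) : Countable (Rl n) := by
  let f : Rl n → ℕ := fun r => match r with
    | .lt => 0
    | .isG => 1
    | .isK => 2
  have hf : Function.Injective f := by
    intro a b h
    cases a <;> cases b <;> first | rfl | exact absurd h (by decide)
  exact hf.countable

/--  2: the standard model is countable and infinite, the language is countable -/
theorem countS : Countable S ∧ Infinite S ∧ Countable (Σ n, LL.Functions n) ∧ Countable (Σ n, LL.Relations n) ∧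
    LL.card ≤ Cardinal.aleph0 := by
  have h1 : Countable (Σ n, LL.Functions n) := by
    haveI : ∀ n, Countable (LL.Functions n) := fun n => exClosed_Fn n
    infer_instance
  have h2 : Countable (Σ n, LL.Relations n) := by
    haveI : ∀ n, Countable (LL.Relations n) := fun n => exClosed_Rl n
    infer_instance
  refine ⟨exClosed_S, Infinite.of_injective S.e (fun a b h => by cases h; rfl), h1, h2, ?_⟩
  haveI : Countable LL.Symbols := by
    unfold Language.Symbols
    infer_instance
  exact Cardinal.mk_le_aleph0

end Pool.Agent.H726T
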