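import Pool.Agent.H726T.TDefs

/-!
# The type `q` and its exceptional cuts
-/

set_option autoImplicit false

open FirstOrder FirstOrder.Language FirstOrder.Language.Structure Cardinal
open Pool.Agent.Y562.NWO (tp IsGlobalType Invariant Realizes IsTensor IsMonster)

namespace Pool.Agent.H726T

theorem mem_FE_iff {α : ℝ} {s : Set ℚ} : s ∈ FE α ↔ ∃ m : ℚ, α < m ∧ ∀ e : ℚ, α < e → e < m → e ∈ s := by
  rw [FE, Filter.mem_comap]
  constructor
  · rintro ⟨t, ht, hts⟩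
    obtain ⟨u, hu, hut⟩ := mem_nhdsGT_iff_exists_Ioo_subset.1 ht
    obtain ⟨m, hm1, hm2⟩ := exists_rat_btwn (Set.mem_Ioi.1 hu)
    refine ⟨m, hm1, fun e he hem => hts (hut ⟨he, ?_⟩)⟩
    exact lt_trans (Rat.cast_lt.2 hem) hm2
  · rintro ⟨m, hm, h⟩
    refine ⟨Set.Ioo α m, Ioo_mem_nhdsGT hm, fun e he => h e he.1 (Rat.cast_lt.1 he.2)⟩

instance FE_neBot (α : ℝ) : (FE α).NeBot := by
  refine Filter.neBot_iff.2 fun h => ?_
  have h1 : (∅ : Set ℚ) ∈ FE α := by rw [h]; exact Filter.mem_bot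
  obtain ⟨m, hm, h2⟩ := mem_FE_iff.1 h1
  obtain ⟨e, he1, he2⟩ := exists_rat_btwn hm
  exact h2 e he1 (Rat.cast_lt.1 he2)

instance FEp_neBot (α : ℝ) : (Filter.atTop ×ˢ FE α : Filter (ℕ × ℚ)).NeBot := inferInstance

/-- the limit of the pairs `(f_n, gg n e)` as `n → ∞`, `e → α⁺` -/
noncomputable def rT {U : Type} [LL.Structure U] (j : S ↪ₑ[LL] U) (𝓥 : Ultrafilter (ℕ × ℚ)) :
    Set (LL.Formula (Fin 2 ⊕ U)) :=
  lim 𝓥 (fun x : ℕ × ℚ => ![j (ff x.1), j (gg x.1 x.2)])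

/-- the limit of the rationals `e → α⁺` -/
noncomputable def pT {U : Type} [LL.Structure U] (j : S ↪ₑ[LL] U) (𝓤 : Ultrafilter ℚ) :
    Set (LL.Formula (Fin 1 ⊕ U)) :=
  lim 𝓤 (fun (e : ℚ) (_ : Fin 1) => j (S.e e))

/-- the type `q` over the standard model -/
noncomputable def qT : Set (LL.Formula (Fin 2 ⊕ S)) :=
  rT (ElementaryEmbedding.refl LL S) (Ultrafilter.of (Filter.atTop ×ˢ FE 0))

/-- the term `d (d y₁ c₀) y₂` -/
noncomputable def eT {U : Type} (c₀ : U) : LL.Term (Fin 2 ⊕ U) :=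
  dT (dT (Term.var (Sum.inl 0)) (Term.var (Sum.inr c₀))) (Term.var (Sum.inl 1))

/-- the cuts of the rationals in which `r` puts `d (d y₁ c₀) y₂` -/
def Exc {U : Type} [LL.Structure U] (j : S ↪ₑ[LL] U) (c₀ : U) (r : Set (LL.Formula (Fin 2 ⊕ U))) :
    Set ℝ :=
  {α | ∀ m : ℚ, ((m : ℝ) < α → ltF (Term.var (Sum.inr (j (S.e m)))) (eT c₀) ∈ r) ∧
    (α < m → ltF (eT c₀) (Term.var (Sum.inr (j (S.e m)))) ∈ r)}

/-- `c` is a branch of the sequence `ff` -/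
def Br {U : Type} [LL.Structure U] (j : S ↪ₑ[LL] U) (c : U) : Prop :=
  isK c ∧ ∀ n, d c (j (ff n)) = j (gam n)

end Pool.Agent.H726T
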