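import Pool.Agent.H726T.AxN
import Pool.Agent.H726T.TDefs2

set_option autoImplicit false

open FirstOrder FirstOrder.Language FirstOrder.Language.Structure Cardinal
open Pool.Agent.Y562.NWO

namespace Pool.Agent.H726T

/-- .  If `α < β` are both in it take a rational `m` between: `ltF (eT c₀) (var (inr (j (S.e m)))) ∈ r` and `ltF (var (inr (j (S.e m)))) (eT c₀) ∈ r`; `r = tp k b`, so in `N` both `x < y` and `y < x`; this contradicts the axioms (`axN (k.comp j) : Ax N`: GIVEN below). -/
theorem Exc_sub {U : Type} [LL.Structure U] (j : S ↪ₑ[LL] U) (c₀ : U)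
    {r : Set (LL.Formula (Fin 2 ⊕ U))} (hr : IsGlobalType r) : (Exc j c₀ r).Subsingleton := by
  obtain ⟨N, _, k, b, rfl⟩ := hr
  have hN : Ax N := axN (k.comp j)
  have key : ∀ α β : ℝ, α ∈ Exc j c₀ (tp k b) → β ∈ Exc j c₀ (tp k b) → ¬ α < β := by
    intro α β hα hβ hlt
    obtain ⟨m, hm1, hm2⟩ := exists_rat_btwn hlt
    have h1 := (hα m).2 hm1
    have h2 := (hβ m).1 hm2
    have h1' := (realize_ltF (Sum.elim b k) _ _).1 h1
    have h2' := (realize_ltF (Sum.elim b k) _ _).1 h2
    exact hN.irrefl _ (hN.trans _ _ _ h1' h2')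
  intro α hα β hβ
  rcases lt_trichotomy α β with h | h | h
  · exact absurd h (key α β hα hβ)
  · exact h
  · exact absurd h (key β α hβ hα)

end Pool.Agent.H726T
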