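import Pool.Agent.H726T.AxS
import Pool.Agent.H726T.Iso

/-! Job 9626 (MP_d4560b_lc), proved by helper149. -/
set_option autoImplicit false

open FirstOrder FirstOrder.Language FirstOrder.Language.Structure

namespace Pool.Agent.H726T

section genOne

variable {N : Type} [LL.Structure N]

theorem genOne_symm {x y : N} (h : same x y) : same y x := by
  rcases h with h | h
  · exact Or.inl ⟨h.2, h.1⟩
  · exact Or.inr ⟨h.2, h.1⟩

/-- a maximal value of a function on a finite set -/
theorem genOne_max (h : Ax N) (f : N → N) (T : Finset N) (hT : T.Nonempty) :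
    ∃ a ∈ T, ∀ b ∈ T, ¬ lt (f a) (f b) := by
  classical
  induction hT using Finset.Nonempty.cons_induction with
  | singleton c =>
    refine ⟨c, Finset.mem_singleton_self c, fun b hb => ?_⟩
    rw [Finset.mem_singleton] at hb
    rw [hb]
    exact h.irrefl _
  | cons c T hc hT ih =>
    obtain ⟨a, ha, hmax⟩ := ih
    by_cases hlt : lt (f a) (f c)
    · refine ⟨c, Finset.mem_cons_self c T, fun b hb => ?_⟩
      rw [Finset.mem_cons] at hb
      rcases hb with rfl | hb
      · exact h.irrefl _
      · intro h2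
        exact hmax b hb (h.trans _ _ _ hlt h2)
    · refine ⟨a, Finset.mem_cons_of_mem ha, fun b hb => ?_⟩
      rw [Finset.mem_cons] at hb
      rcases hb with rfl | hb
      · exact hlt
      · exact hmax b hb

open Classical in
/-- adding a point all of whose distances are already there -/
theorem genOne_step (h : Ax N) (B : Finset N) (hB : ∀ x ∈ B, ∀ y ∈ B, d x y ∈ B) (x : N)
    (hx : ∀ b ∈ B, same x b → d x b ∈ B) :
    ∀ u ∈ insert x B, ∀ v ∈ insert x B, d u v ∈ insert x B := by
  intro u hu v hv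
  rw [Finset.mem_insert] at hu hv
  rcases hu with rfl | hu
  · rcases hv with rfl | hv
    · rw [h.d_self]
      exact Finset.mem_insert_self _ _
    · by_cases hs : same u v
      · exact Finset.mem_insert_of_mem (hx v hv hs)
      · rw [h.d_junk _ _ hs]
        exact Finset.mem_insert_self _ _
  · rcases hv with rfl | hv
    · by_cases hs : same u v
      · rw [h.d_symm _ _ hs]
        exact Finset.mem_insert_of_mem (hx u hu (genOne_symm hs))
      · rw [h.d_junk _ _ hs]
        exact Finset.mem_insert_of_mem hu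
    · exact Finset.mem_insert_of_mem (hB u hu v hv)

/-- the distances to the other points, from the distance to the nearest point -/
theorem genOne_near (h : Ax N) (B : Finset N) (hB : ∀ x ∈ B, ∀ y ∈ B, d x y ∈ B) (x : N)
    (hx : x ∉ B) (a : N) (ha : a ∈ B) (hs : same x a) (hd : d x a ∈ B)
    (hmax : ∀ b ∈ B, same x b → ¬ lt (d x a) (d x b)) : ∀ b ∈ B, same x b → d x b ∈ B := by
  intro b hb hsb
  by_cases he : d x b = d x a
  · rw [he]; exact hd
  · have hlt : lt (d x b) (d x a) := by
      rcases h.total _ _ he with h1 | h1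
      · exact h1
      · exact absurd h1 (hmax b hb hsb)
    have hbx : b ≠ x := fun e => hx (e ▸ hb)
    have hxa : x ≠ a := fun e => hx (e ▸ ha)
    rw [h.d_symm _ _ hsb] at hlt
    have := (iso1 h (genOne_symm hsb) hs hbx hxa hlt).2
    rw [h.d_symm _ _ hsb, ← this]
    exact hB b hb a ha

/-- a point of the middle sort -/
theorem genOne_G (h : Ax N) (B : Finset N) (hB : ∀ x ∈ B, ∀ y ∈ B, d x y ∈ B) (x : N)
    (hG : isG x) :
    ∃ B' : Finset N, B ⊆ B' ∧ x ∈ B' ∧ (∀ x ∈ B', ∀ y ∈ B', d x y ∈ B') ∧ B'.card ≤ B.card + 2 ∧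
      (∀ P : N → Prop, (∀ a b, P a → P b → P (d a b)) → (∀ b ∈ B, P b) → P x → ∀ u ∈ B', P u) ∧
      ∀ u ∈ B', u ∈ B ∨ ¬ isK u := by
  classical
  have hK : ¬ isK x := fun hk => h.gk x ⟨hG, hk⟩
  by_cases hxB : x ∈ B
  · exact ⟨B, subset_rfl, hxB, hB, by omega, fun P _ h2 _ => h2, fun u hu => Or.inl hu⟩
  by_cases hne : ∃ b ∈ B, same x b
  · have hT : (B.filter fun b => same x b).Nonempty := by
      obtain ⟨b, hb, hs⟩ := hne
      exact ⟨b, Finset.mem_filter.2 ⟨hb, hs⟩⟩
    obtain ⟨a, ha, hmax⟩ := genOne_max h (fun b => d x b) _ hT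
    rw [Finset.mem_filter] at ha
    obtain ⟨haB, hs⟩ := ha
    have haG : isG a := by
      rcases hs with hs | hs
      · exact hs.2
      · exact absurd hs.1 hK
    have hxa : x ≠ a := fun e => hxB (e ▸ haB)
    have heE : isE (d x a) := h.d_G _ _ hG haG hxa
    -- the set with the new element of the bottom sort
    have hnos : ∀ b, ¬ same (d x a) b := by
      intro b hb
      rcases hb with hb | hb
      · exact heE.1 hb.1
      · exact heE.2 hb.1
    have hB1 : ∀ u ∈ insert (d x a) B, ∀ v ∈ insert (d x a) B, d u v ∈ insert (d x a) B :=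
      genOne_step h B hB (d x a) (fun b _ hb => absurd hb (hnos b))
    have hxB1 : x ∉ insert (d x a) B := by
      rw [Finset.mem_insert]
      rintro (e | e)
      · rw [← e] at heE
        exact heE.1 hG
      · exact hxB e
    have hmem : ∀ b ∈ insert (d x a) B, same x b → b ∈ B := by
      intro b hb hsb
      rw [Finset.mem_insert] at hb
      rcases hb with rfl | hb
      · exact absurd (genOne_symm hsb) (hnos x)
      · exact hb
    have hB2 := genOne_step h _ hB1 x (genOne_near h _ hB1 x hxB1 a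
      (Finset.mem_insert_of_mem haB) hs (Finset.mem_insert_self _ _)
      (fun b hb hsb => hmax b (Finset.mem_filter.2 ⟨hmem b hb hsb, hsb⟩)))
    refine ⟨insert x (insert (d x a) B), ?_, Finset.mem_insert_self _ _, hB2, ?_, ?_, ?_⟩
    · exact (Finset.subset_insert _ _).trans (Finset.subset_insert _ _)
    · have h1 := Finset.card_insert_le x (insert (d x a) B)
      have h2 := Finset.card_insert_le (d x a) B
      omega
    · intro P h1 h2 h3 u hu
      rw [Finset.mem_insert, Finset.mem_insert] at hu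
      rcases hu with rfl | rfl | hu
      · exact h3
      · exact h1 _ _ h3 (h2 a haB)
      · exact h2 u hu
    · intro u hu
      rw [Finset.mem_insert, Finset.mem_insert] at hu
      rcases hu with rfl | rfl | hu
      · exact Or.inr hK
      · exact Or.inr heE.2
      · exact Or.inl hu
  · have hno : ∀ b ∈ B, same x b → d x b ∈ B := fun b hb hs => absurd ⟨b, hb, hs⟩ hne
    refine ⟨insert x B, Finset.subset_insert _ _, Finset.mem_insert_self _ _,
      genOne_step h B hB x hno, ?_, ?_, ?_⟩
    · have h1 := Finset.card_insert_le x B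
      omega
    · intro P h1 h2 h3 u hu
      rw [Finset.mem_insert] at hu
      rcases hu with rfl | hu
      · exact h3
      · exact h2 u hu
    · intro u hu
      rw [Finset.mem_insert] at hu
      rcases hu with rfl | hu
      · exact Or.inr hK
      · exact Or.inl hu

/-- the general form -/
theorem genOne_all (h : Ax N) (B : Finset N) (hB : ∀ x ∈ B, ∀ y ∈ B, d x y ∈ B) (x : N) :
    ∃ B' : Finset N, B ⊆ B' ∧ x ∈ B' ∧ (∀ x ∈ B', ∀ y ∈ B', d x y ∈ B') ∧ B'.card ≤ B.card + 3 ∧
      ∀ P : N → Prop, (∀ a b, P a → P b → P (d a b)) → (∀ b ∈ B, P b) → P x → ∀ u ∈ B', P u := by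
  classical
  by_cases hG : isG x
  · obtain ⟨B', h1, h2, h3, h4, h5, _⟩ := genOne_G h B hB x hG
    exact ⟨B', h1, h2, h3, by omega, h5⟩
  by_cases hxB : x ∈ B
  · exact ⟨B, subset_rfl, hxB, hB, by omega, fun P _ h2 _ => h2⟩
  by_cases hne : ∃ b ∈ B, same x b
  · have hT : (B.filter fun b => same x b).Nonempty := by
      obtain ⟨b, hb, hs⟩ := hne
      exact ⟨b, Finset.mem_filter.2 ⟨hb, hs⟩⟩
    obtain ⟨a, ha, hmax⟩ := genOne_max h (fun b => d x b) _ hT
    rw [Finset.mem_filter] at ha
    obtain ⟨haB, hs⟩ := ha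
    have hKK : isK x ∧ isK a := by
      rcases hs with hs | hs
      · exact absurd hs.1 hG
      · exact hs
    have hxa : x ≠ a := fun e => hxB (e ▸ haB)
    have hgG : isG (d x a) := h.d_K _ _ hKK.1 hKK.2 hxa
    obtain ⟨B1, b1, b2, b3, b4, b5, b6⟩ := genOne_G h B hB (d x a) hgG
    have hxB1 : x ∉ B1 := by
      intro hx
      rcases b6 x hx with h1 | h1
      · exact hxB h1
      · exact h1 hKK.1
    have hmem : ∀ b ∈ B1, same x b → b ∈ B := by
      intro b hb hsb
      rcases b6 b hb with h1 | h1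
      · exact h1
      · rcases hsb with hsb | hsb
        · exact absurd hsb.1 hG
        · exact absurd hsb.2 h1
    have hB2 := genOne_step h _ b3 x (genOne_near h _ b3 x hxB1 a (b1 haB) hs b2
      (fun b hb hsb => hmax b (Finset.mem_filter.2 ⟨hmem b hb hsb, hsb⟩)))
    refine ⟨insert x B1, b1.trans (Finset.subset_insert _ _), Finset.mem_insert_self _ _, hB2,
      ?_, ?_⟩
    · have h1 := Finset.card_insert_le x B1
      omega
    · intro P h1 h2 h3 u hu
      rw [Finset.mem_insert] at hu
      rcases hu with rfl | hu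
      · exact h3
      · exact b5 P h1 h2 (h1 _ _ h3 (h2 a haB)) u hu
  · have hno : ∀ b ∈ B, same x b → d x b ∈ B := fun b hb hs => absurd ⟨b, hb, hs⟩ hne
    refine ⟨insert x B, Finset.subset_insert _ _, Finset.mem_insert_self _ _,
      genOne_step h B hB x hno, ?_, ?_⟩
    · have h1 := Finset.card_insert_le x B
      omega
    · intro P h1 h2 h3 u hu
      rw [Finset.mem_insert] at hu
      rcases hu with rfl | hu
      · exact h3
      · exact h2 u hu

end genOne

/-- adding one element to a closed set adds at most three elements. -/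
theorem genOne (B : Finset S) (hB : ∀ x ∈ B, ∀ y ∈ B, d x y ∈ B) (x : S) :
    ∃ B' : Finset S, B ⊆ B' ∧ x ∈ B' ∧ (∀ x ∈ B', ∀ y ∈ B', d x y ∈ B') ∧ B'.card ≤ B.card + 3 ∧
      ∀ R : S → S → Prop, PI R → (∀ b ∈ B, ∃ b', R b b') → (∃ x', R x x') →
        ∀ u ∈ B', ∃ u', R u u' := by
  obtain ⟨B', h1, h2, h3, h4, h5⟩ := genOne_all axS B hB x
  refine ⟨B', h1, h2, h3, h4, ?_⟩
  intro R hR hb hx
  refine h5 (fun u => ∃ u', R u u') ?_ hb hx
  rintro a b ⟨a', ha⟩ ⟨b', hb'⟩
  exact ⟨d a' b', hR.d _ _ _ _ ha hb'⟩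

end Pool.Agent.H726T
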