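import Pool.Agent.H726T.Defs

set_option autoImplicit false

open FirstOrder FirstOrder.Language FirstOrder.Language.Structure

namespace Pool.Agent.H726T

theorem growth (m k : ℕ) : ∃ n : ℕ, ((n * m) ^ 4 + 3 * k + 24) ^ (6 * k) < 2 ^ n := by
  have h := tendsto_pow_const_div_const_pow_of_one_lt (24 * k) (r := (2 : ℝ)) one_lt_two
  have hA : (0 : ℝ) < (((m ^ 4 + 3 * k + 24) ^ (6 * k) : ℕ) : ℝ) := by
    have : 0 < (m ^ 4 + 3 * k + 24) ^ (6 * k) := by positivity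
    exact_mod_cast this
  have h2 := (h.eventually (gt_mem_nhds (one_div_pos.2 hA))).and
    (Filter.eventually_ge_atTop 1)
  obtain ⟨n, hn, hn1⟩ := h2.exists
  refine ⟨n, ?_⟩
  rw [div_lt_div_iff₀ (by positivity) hA, one_mul] at hn
  have hn2 : n ^ (24 * k) * (m ^ 4 + 3 * k + 24) ^ (6 * k) < 2 ^ n := by exact_mod_cast hn
  refine lt_of_le_of_lt ?_ hn2
  have h4 : 1 ≤ n ^ 4 := Nat.one_le_pow _ _ hn1
  have h3 : (n * m) ^ 4 + 3 * k + 24 ≤ n ^ 4 * (m ^ 4 + 3 * k + 24) := by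
    rw [mul_pow]
    nlinarith
  calc ((n * m) ^ 4 + 3 * k + 24) ^ (6 * k) ≤ (n ^ 4 * (m ^ 4 + 3 * k + 24)) ^ (6 * k) :=
        Nat.pow_le_pow_left h3 _
    _ = n ^ (24 * k) * (m ^ 4 + 3 * k + 24) ^ (6 * k) := by
        rw [mul_pow, ← pow_mul]
        congr 2
        ring

end Pool.Agent.H726T
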