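import Pool.Agent.H726T.AxN
import Pool.Agent.H726T.Facts
import Pool.Agent.H726T.LimBasic
import Pool.Agent.H726T.SeqS

set_option autoImplicit false

open FirstOrder FirstOrder.Language FirstOrder.Language.Structure Cardinal
open Pool.Agent.Y562.NWO

namespace Pool.Agent.H726T

theorem nonComm_dist {U : Type} [LL.Structure U] (j : S ↪ₑ[LL] U) (c₀ : U) (hc₀ : Br j c₀)
    (n : ℕ) (x : ℚ) : d (d (j (ff n)) c₀) (j (gg n x)) = j (S.e x) := by
  have hK : isK (j (ff n)) := (map_isK j _).2 ⟨_, rfl⟩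
  rw [(axN j).d_symm _ _ (Or.inr ⟨hK, hc₀.1⟩), hc₀.2 n, ← map_d, (seqS.2.2.2.2 n x).2]

theorem nonComm_lt {U : Type} [LL.Structure U] (j : S ↪ₑ[LL] U) (x y : ℚ) :
    lt (j (S.e x)) (j (S.e y)) ↔ x < y := by
  rw [map_lt]
  exact Iff.rfl

theorem nonComm_ev {α : ℝ} : ∀ᶠ e : ℚ in FE α, α < (e : ℝ) := by
  obtain ⟨m, hm⟩ := exists_rat_gt α
  exact mem_FE_iff.2 ⟨m, hm, fun e he _ => he⟩

theorem nonComm_ev' {α : ℝ} {m : ℚ} (hm : α < m) : ∀ᶠ e : ℚ in FE α, e < m :=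
  mem_FE_iff.2 ⟨m, hm, fun _ _ he => he⟩

theorem nonComm {U : Type} [LL.Structure U] {κ : Cardinal.{0}} (hU : IsMonster κ LL U)
    (j : S ↪ₑ[LL] U) (c₀ : U) (hc₀ : Br j c₀) (α : ℝ) (hα : Irrational α)
    (𝓤 : Ultrafilter ℚ) (h𝓤 : (𝓤 : Filter ℚ) ≤ FE α) (𝓥 : Ultrafilter (ℕ × ℚ))
    (h𝓥 : (𝓥 : Filter (ℕ × ℚ)) ≤ Filter.atTop ×ˢ FE α) :
    ¬ Commute (Set.range j) (pT j 𝓤) (rT j 𝓥) := by
  rintro ⟨s, t, hs, ht, hst, hts, hsw⟩
  have hAx : Ax U := axN j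
  have hsnd : Filter.Tendsto Prod.snd (𝓥 : Filter (ℕ × ℚ)) (FE α) :=
    Filter.tendsto_snd.mono_left h𝓥
  obtain ⟨⟨b, hb⟩, hb2⟩ := hst {c₀} (Set.finite_singleton c₀)
  obtain ⟨⟨a, ha⟩, ha2⟩ := hts {c₀} (Set.finite_singleton c₀)
  let c : (Set.range j ∪ {c₀} : Set U) := ⟨c₀, Or.inr rfl⟩
  let q : ℚ → (Set.range j ∪ {c₀} : Set U) := fun m => ⟨j (S.e m), Or.inl ⟨_, rfl⟩⟩
  let θ : LL.Formula ((Fin 1 ⊕ Fin 2) ⊕ (Set.range j ∪ {c₀} : Set U)) :=
    ltF (Term.var (Sum.inl (Sum.inl 0)))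
      (dT (dT (Term.var (Sum.inl (Sum.inr 0))) (Term.var (Sum.inr c))) (Term.var (Sum.inl (Sum.inr 1))))
  -- (1)
  have hbm : ∀ m : ℚ, α < m → lt (d (d (b 0) c₀) (b 1)) (j (S.e m)) := by
    intro m hm
    have h1 := (hb (ltF (dT (dT (Term.var (Sum.inl 0)) (Term.var (Sum.inr c)))
      (Term.var (Sum.inl 1))) (Term.var (Sum.inr (q m))))).1 (by
        change ∀ᶠ x in (𝓥 : Filter (ℕ × ℚ)), Formula.Realize _ _
        filter_upwards [hsnd.eventually (nonComm_ev' hm)] with x hx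
        rw [Formula.realize_relabel, realize_ltF, realize_dT, realize_dT]
        change lt (d (d (j (ff x.1)) c₀) (j (gg x.1 x.2))) (j (S.e m))
        rw [nonComm_dist j c₀ hc₀, nonComm_lt]
        exact hx)
    rw [realize_ltF, realize_dT, realize_dT] at h1
    exact h1
  have h1 : θ.relabel (Sum.map id (fun u : (Set.range j ∪ {c₀} : Set U) => (u : U))) ∉ s := by
    intro h
    rw [hb2 b hb] at h
    have h2 : ∀ᶠ x in (𝓤 : Filter ℚ), lt (j (S.e x)) (d (d (b 0) c₀) (b 1)) := by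
      filter_upwards [h] with x hx
      rw [Formula.realize_relabel, realize_ltF, realize_dT, realize_dT] at hx
      exact hx
    obtain ⟨x, hx1, hx2⟩ := (h2.and (h𝓤 nonComm_ev)).exists
    exact hAx.irrefl _ (hAx.trans _ _ _ hx1 (hbm x hx2))
  -- (2)
  have ham : ∀ m : ℚ, α < m → lt (a 0) (j (S.e m)) := by
    intro m hm
    have h1 := (ha (ltF (Term.var (Sum.inl 0)) (Term.var (Sum.inr (q m))))).1 (by
        change ∀ᶠ x in (𝓤 : Filter ℚ), Formula.Realize _ _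
        filter_upwards [h𝓤 (nonComm_ev' hm)] with x hx
        rw [Formula.realize_relabel, realize_ltF]
        change lt (j (S.e x)) (j (S.e m))
        rw [nonComm_lt]
        exact hx)
    rw [realize_ltF] at h1
    exact h1
  apply h1
  rw [hsw]
  have h3 := (ha2 a ha (θ.relabel (Sum.map Sum.swap id))).2 (by
    change ∀ᶠ x in (𝓥 : Filter (ℕ × ℚ)), Formula.Realize _ _
    filter_upwards [hsnd.eventually nonComm_ev] with x hx
    rw [Formula.realize_relabel, Formula.realize_relabel, realize_ltF, realize_dT, realize_dT]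
    change lt (a 0) (d (d (j (ff x.1)) c₀) (j (gg x.1 x.2)))
    rw [nonComm_dist j c₀ hc₀]
    exact ham _ hx)
  obtain ⟨N, _, k, v, rfl⟩ := ht
  change Formula.Realize _ _ at h3
  change Formula.Realize _ _
  rw [Formula.realize_relabel, Formula.realize_relabel, realize_ltF, realize_dT, realize_dT] at h3 ⊢
  exact h3

end Pool.Agent.H726T
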