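import Pool.Agent.H726T.Iso
import Pool.Agent.H726T.ExtOne

set_option autoImplicit false

open FirstOrder FirstOrder.Language FirstOrder.Language.Structure

namespace Pool.Agent.H726T

theorem uniq_inj {M N : Type} [LL.Structure M] [LL.Structure N] (hM : Ax M) (hN : Ax N) (i : M → N)
    (i1 : ∀ x y, lt x y ↔ lt (i x) (i y)) {x y : M} (h : i x = i y) : x = y := by
  by_contra hne
  rcases hM.total x y hne with h' | h'
  · have := (i1 _ _).1 h'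
    rw [h] at this
    exact hN.irrefl _ this
  · have := (i1 _ _).1 h'
    rw [h] at this
    exact hN.irrefl _ this

theorem uniq_facts {M N : Type} [LL.Structure M] [LL.Structure N]
    (hM : Ax M) (hN : Ax N) (i : M → N)
    (i1 : ∀ x y, lt x y ↔ lt (i x) (i y)) (i2 : ∀ x, isG x ↔ isG (i x))
    (i3 : ∀ x, isK x ↔ isK (i x)) (i4 : ∀ x y, i (d x y) = d (i x) (i y))
    (f γ ε : ℕ → M) (hf : ∀ n, isK (f n)) (hγ : ∀ n, isG (γ n)) (hε : ∀ n, isE (ε n))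
    (hs : ∀ n m, n < m → lt (γ n) (γ m) ∧ lt (ε m) (ε n) ∧ d (f n) (f m) = γ n ∧
      d (γ n) (γ m) = ε m)
    (h2 : ∀ m, isG m → ∃ n, lt m (γ n))
    (h3 : ∀ m, isE m → ∃ n, lt (ε n) m) (b₁ b₂ : N)
    (hb : isK b₁ ∧ (∀ n, d b₁ (i (f n)) = i (γ n)) ∧ isG b₂ ∧ (∀ n, lt (i (γ n)) b₂)) :
    isE (d b₂ (i (γ 0))) ∧ (∀ m, isE m → lt (d b₂ (i (γ 0))) (i m)) ∧
    (∀ g, isG g → lt (i g) b₂ ∧ d b₂ (i g) = d b₂ (i (γ 0))) ∧
    (∀ k, isK k → ∀ n, lt (d k (f n)) (γ n) → d b₁ (i k) = i (d k (f n)) ∧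
      (lt (i k) b₁ ↔ lt k (f n)) ∧ (lt b₁ (i k) ↔ lt (f n) k)) := by
  obtain ⟨hb1, hbf, hb2, hbγ⟩ := hb
  have asymm : ∀ x y : N, lt x y → ¬ lt y x := fun x y h h' => hN.irrefl _ (hN.trans _ _ _ h h')
  have asymmM : ∀ x y : M, lt x y → ¬ lt y x := fun x y h h' => hM.irrefl _ (hM.trans _ _ _ h h')
  have hne : ∀ n, b₂ ≠ i (γ n) := by
    intro n h
    have := hbγ n
    rw [← h] at this
    exact hN.irrefl _ this
  have hGi : ∀ n, isG (i (γ n)) := fun n => (i2 _).1 (hγ n)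
  have hEi : ∀ m, isE m → isE (i m) := fun m hm => ⟨fun h => hm.1 ((i2 _).2 h), fun h => hm.2 ((i3 _).2 h)⟩
  have hsymm : ∀ x, isG x → d x b₂ = d b₂ x := fun x hx => hN.d_symm _ _ (Or.inl ⟨hx, hb2⟩)
  -- step: D n ≤ i ε m for n < m
  have hD1 : ∀ n m, n < m → ¬ lt (i (ε m)) (d b₂ (i (γ n))) ∧
      (d b₂ (i (γ n)) = i (ε m) ∨ d b₂ (i (γ n)) = d b₂ (i (γ m))) := by
    intro n m hnm
    obtain ⟨s1, s2, s3, s4⟩ := hs n m hnm
    have hu := hN.um (i (γ n)) (i (γ m)) b₂ (Or.inl ⟨hGi n, hGi m⟩) (Or.inl ⟨hGi m, hb2⟩)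
      ((i1 _ _).1 s1) (hbγ m)
    rw [← i4, s4, hsymm _ (hGi n), hsymm _ (hGi m)] at hu
    rcases hu with ⟨u1, u2⟩ | ⟨u1, u2⟩
    · refine ⟨?_, Or.inl u1⟩
      rw [u1]
      exact hN.irrefl _
    · refine ⟨?_, Or.inr u1⟩
      rw [u1]
      exact u2
  have hD2 : ∀ n m, n < m → lt (d b₂ (i (γ n))) (i (ε m)) := by
    intro n m hnm
    have h4 := (hD1 n (m + 1) (by omega)).1
    have h5 : lt (i (ε (m + 1))) (i (ε m)) := (i1 _ _).1 (hs m (m + 1) (by omega)).2.1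
    by_cases h6 : d b₂ (i (γ n)) = i (ε (m + 1))
    · rw [h6]; exact h5
    · rcases hN.total _ _ h6 with h7 | h7
      · exact hN.trans _ _ _ h7 h5
      · exact absurd h7 h4
  have hD3 : ∀ n m, n < m → d b₂ (i (γ n)) = d b₂ (i (γ m)) := by
    intro n m hnm
    rcases (hD1 n m hnm).2 with h4 | h4
    · exfalso
      have h5 := hD2 n m hnm
      rw [h4] at h5
      exact hN.irrefl _ h5
    · exact h4
  have hD4 : ∀ n, d b₂ (i (γ n)) = d b₂ (i (γ 0)) := by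
    intro n
    rcases Nat.eq_zero_or_pos n with h4 | h4
    · rw [h4]
    · exact (hD3 0 n h4).symm
  have hD5 : ∀ m, isE m → lt (d b₂ (i (γ 0))) (i m) := by
    intro m hm
    obtain ⟨n, hn⟩ := h3 m hm
    have h4 := hD2 n (n + 1) (by omega)
    rw [hD4 n] at h4
    have h5 : lt (i (ε (n + 1))) (i (ε n)) := (i1 _ _).1 (hs n (n + 1) (by omega)).2.1
    exact hN.trans _ _ _ (hN.trans _ _ _ h4 h5) ((i1 _ _).1 hn)
  refine ⟨hN.d_G _ _ hb2 (hGi 0) (hne 0), hD5, ?_, ?_⟩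
  · intro g hg
    obtain ⟨n, hn⟩ := h2 g hg
    have hlt : lt (i g) b₂ := hN.trans _ _ _ ((i1 _ _).1 hn) (hbγ n)
    refine ⟨hlt, ?_⟩
    have hg' : isG (i g) := (i2 _).1 hg
    have hu := hN.um (i g) (i (γ n)) b₂ (Or.inl ⟨hg', hGi n⟩) (Or.inl ⟨hGi n, hb2⟩)
      ((i1 _ _).1 hn) (hbγ n)
    rw [← i4, hsymm _ hg', hsymm _ (hGi n), hD4 n] at hu
    rcases hu with ⟨u1, u2⟩ | ⟨u1, u2⟩
    · exfalso
      have hgn : g ≠ γ n := by
        rintro rfl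
        exact hM.irrefl _ hn
      exact u2 (hD5 _ (hM.d_G _ _ hg (hγ n) hgn))
    · exact u1
  · intro k hk n hkn
    have hk' : isK (i k) := (i3 _).1 hk
    have hfn : isK (i (f n)) := (i3 _).1 (hf n)
    have hkf : k ≠ f n := by
      rintro rfl
      rw [hM.d_self] at hkn
      exact asymmM _ _ hkn (hM.ltgk _ _ (hγ n) (hf n))
    have hkf' : i k ≠ i (f n) := fun h => hkf (uniq_inj hM hN i i1 h)
    have hbne : i (f n) ≠ b₁ := by
      intro h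
      have h4 := hbf n
      rw [h, hN.d_self] at h4
      have h5 := hN.ltgk _ _ (hGi n) hb1
      rw [← h4] at h5
      exact hN.irrefl _ h5
    have hsf : d (i (f n)) b₁ = i (γ n) := by
      rw [hN.d_symm _ _ (Or.inr ⟨hfn, hb1⟩), hbf n]
    have hlt : lt (d (i k) (i (f n))) (d (i (f n)) b₁) := by
      rw [hsf, ← i4]
      exact (i1 _ _).1 hkn
    obtain ⟨hne1, hd1⟩ := iso1 hN (x := i k) (y := i (f n)) (z := b₁) (Or.inr ⟨hk', hfn⟩)
      (Or.inr ⟨hfn, hb1⟩) hkf' hbne hlt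
    rw [← i4] at hd1
    have hd2 : d b₁ (i k) = i (d k (f n)) := by
      rw [hN.d_symm _ _ (Or.inr ⟨hb1, hk'⟩), hd1]
    have hneγ : i (γ n) ≠ i (d k (f n)) := by
      intro h
      rw [← uniq_inj hM hN i i1 h] at hkn
      exact hM.irrefl _ hkn
    have hA : lt k (f n) → ¬ lt b₁ (i k) := by
      intro h4 h5
      have hu := hN.um b₁ (i k) (i (f n)) (Or.inr ⟨hb1, hk'⟩) (Or.inr ⟨hk', hfn⟩) h5
        ((i1 _ _).1 h4)
      rw [hbf n, hd2, ← i4] at hu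
      rcases hu with ⟨u1, -⟩ | ⟨u1, -⟩
      · exact hneγ u1
      · exact hneγ u1
    have hB : lt (f n) k → ¬ lt (i k) b₁ := by
      intro h4 h5
      have hu := hN.um (i (f n)) (i k) b₁ (Or.inr ⟨hfn, hk'⟩) (Or.inr ⟨hk', hb1⟩)
        ((i1 _ _).1 h4) h5
      rw [hsf, hd1, ← i4, hM.d_symm (f n) k (Or.inr ⟨hf n, hk⟩)] at hu
      rcases hu with ⟨u1, -⟩ | ⟨u1, -⟩
      · exact hneγ u1
      · exact hneγ u1
    refine ⟨hd2, ⟨fun h4 => ?_, fun h4 => ?_⟩, ⟨fun h4 => ?_, fun h4 => ?_⟩⟩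
    · rcases hM.total _ _ hkf with h5 | h5
      · exact h5
      · exact absurd h4 (hB h5)
    · rcases hN.total _ _ hne1 with h5 | h5
      · exact h5
      · exact absurd h5 (hA h4)
    · rcases hM.total _ _ hkf with h5 | h5
      · exact absurd h4 (hA h5)
      · exact h5
    · rcases hN.total _ _ hne1 with h5 | h5
      · exact absurd h5 (hB h4)
      · exact h5

/-- the type over the base of a pair of limit elements is unique.  Let `e := d b₂ (i (γ 0))`, `e' := d b₂' (i' (γ 0))`.  The relation is `{(i m, i' m)} ∪ {(e,e')} ∪ {(b₂,b₂')} ∪ {(b₁,b₁')}`, built with `extOne` three times from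
`R₀ := fun x y => ∃ m, x = i m ∧ y = i' m` (a `PI`).  Facts (same for the primed side): (1) `b₂` is above `i m` for all `m ∈ G(M)` (by `h2`), `e ∈ E`, and `e < i m` for all `m ∈ E(M)`: for `n < m`: `i γ_n < i γ_m < b₂` so by `um` `d (i γ_n) b₂ = min (i ε_m, d (i γ_m) b₂)`; so `d (i γ_n) b₂ ≤ i ε_m`
for all `m > n`, thus it is `< i ε_m` for all `m`, and `= d (i γ_m) b₂`; use `h3`.  (2) for `g ∈ G(M)`: `g < γ_n` for some `n`, so `d (i g) b₂ = min (d (i g) (i γ_n), d (i γ_n) b₂) = e`, as `e` is below all of `E(M)`.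
(3) for `k ∈ K(M)`: take `n` with `d k (f n) < γ n` (`h1`; then `k ≠ f n`, and `d k (f n) ∈ G`): `d b₁ (i (f n)) = i (γ n)`, so `d b₁ (i k) = d (i k) (i (f n)) = i (d k (f n))` (`iso1`) and `i k < b₁ ↔ k < f n`, `b₁ < i k ↔ f n < k` (if `i k` were between `b₁` and `i (f n)` or so, `um` would give
`d b₁ (i (f n)) ≤ d (i k) (i (f n))`).  So the order and the distances match on both sides. -/
theorem uniq {M N N' : Type} [LL.Structure M] [LL.Structure N] [LL.Structure N']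
    (hM : Ax M) (hN : Ax N) (hN' : Ax N') (i : M → N) (i' : M → N')
    (i1 : ∀ x y, lt x y ↔ lt (i x) (i y)) (i2 : ∀ x, isG x ↔ isG (i x))
    (i3 : ∀ x, isK x ↔ isK (i x)) (i4 : ∀ x y, i (d x y) = d (i x) (i y))
    (i1' : ∀ x y, lt x y ↔ lt (i' x) (i' y)) (i2' : ∀ x, isG x ↔ isG (i' x))
    (i3' : ∀ x, isK x ↔ isK (i' x)) (i4' : ∀ x y, i' (d x y) = d (i' x) (i' y))
    (f γ ε : ℕ → M) (hf : ∀ n, isK (f n)) (hγ : ∀ n, isG (γ n)) (hε : ∀ n, isE (ε n))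
    (hs : ∀ n m, n < m → lt (γ n) (γ m) ∧ lt (ε m) (ε n) ∧ d (f n) (f m) = γ n ∧
      d (γ n) (γ m) = ε m)
    (h1 : ∀ m, isK m → ∃ n, lt (d m (f n)) (γ n)) (h2 : ∀ m, isG m → ∃ n, lt m (γ n))
    (h3 : ∀ m, isE m → ∃ n, lt (ε n) m) (b₁ b₂ : N) (b₁' b₂' : N')
    (hb : isK b₁ ∧ (∀ n, d b₁ (i (f n)) = i (γ n)) ∧ isG b₂ ∧ (∀ n, lt (i (γ n)) b₂))
    (hb' : isK b₁' ∧ (∀ n, d b₁' (i' (f n)) = i' (γ n)) ∧ isG b₂' ∧ (∀ n, lt (i' (γ n)) b₂')) :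
    ∃ R : N → N' → Prop, PI R ∧ (∀ m, R (i m) (i' m)) ∧ R b₁ b₁' ∧ R b₂ b₂' := by
  obtain ⟨eE, eM, eG, eK⟩ := uniq_facts hM hN i i1 i2 i3 i4 f γ ε hf hγ hε hs h2 h3 b₁ b₂ hb
  obtain ⟨eE', eM', eG', eK'⟩ :=
    uniq_facts hM hN' i' i1' i2' i3' i4' f γ ε hf hγ hε hs h2 h3 b₁' b₂' hb'
  obtain ⟨e, he⟩ : ∃ e, e = d b₂ (i (γ 0)) := ⟨_, rfl⟩
  obtain ⟨e', he'⟩ : ∃ e', e' = d b₂' (i' (γ 0)) := ⟨_, rfl⟩
  rw [← he] at eE eM eG
  rw [← he'] at eE' eM' eG'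
  obtain ⟨hb1, hbf, hb2, hbγ⟩ := hb
  obtain ⟨hb1', hbf', hb2', hbγ'⟩ := hb'
  have asymm : ∀ x y : N, lt x y → ¬ lt y x := fun x y h h' => hN.irrefl _ (hN.trans _ _ _ h h')
  have asymm' : ∀ x y : N', lt x y → ¬ lt y x :=
    fun x y h h' => hN'.irrefl _ (hN'.trans _ _ _ h h')
  have sorts : ∀ m : M, isE m ∨ isG m ∨ isK m := by
    intro m
    by_cases h4 : isG m
    · exact Or.inr (Or.inl h4)
    · by_cases h5 : isK m
      · exact Or.inr (Or.inr h5)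
      · exact Or.inl ⟨h4, h5⟩
  have hEi : ∀ m, isE m → isE (i m) :=
    fun m hm => ⟨fun h => hm.1 ((i2 _).2 h), fun h => hm.2 ((i3 _).2 h)⟩
  have hEi' : ∀ m, isE m → isE (i' m) :=
    fun m hm => ⟨fun h => hm.1 ((i2' _).2 h), fun h => hm.2 ((i3' _).2 h)⟩
  have b2K : ¬ isK b₂ := fun h => hN.gk _ ⟨hb2, h⟩
  have b2K' : ¬ isK b₂' := fun h => hN'.gk _ ⟨hb2', h⟩
  have b1G : ¬ isG b₁ := fun h => hN.gk _ ⟨h, hb1⟩
  have b1G' : ¬ isG b₁' := fun h => hN'.gk _ ⟨h, hb1'⟩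
  -- the base
  have P0 : PI (fun (x : N) (y : N') => ∃ m, x = i m ∧ y = i' m) := by
    refine ⟨?_, ?_, ?_, ?_⟩
    · rintro x x' y y' ⟨m, rfl, rfl⟩ ⟨m', rfl, rfl⟩
      exact (i1 _ _).symm.trans (i1' _ _)
    · rintro x x' ⟨m, rfl, rfl⟩
      exact (i2 _).symm.trans (i2' _)
    · rintro x x' ⟨m, rfl, rfl⟩
      exact (i3 _).symm.trans (i3' _)
    · rintro x x' y y' ⟨m, rfl, rfl⟩ ⟨m', rfl, rfl⟩
      exact ⟨d m m', (i4 _ _).symm, (i4' _ _).symm⟩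
  -- add `e`
  have P1 := extOne hN hN' P0 e e' (iff_of_false eE.1 eE'.1) (iff_of_false eE.2 eE'.2)
    (by
      rintro a a' ⟨m, rfl, rfl⟩
      rcases sorts m with h4 | h4 | h4
      · exact iff_of_false (asymm _ _ (eM m h4)) (asymm' _ _ (eM' m h4))
      · exact iff_of_false (asymm _ _ (hN.eg _ _ eE ((i2 _).1 h4)))
          (asymm' _ _ (hN'.eg _ _ eE' ((i2' _).1 h4)))
      · exact iff_of_false (asymm _ _ (hN.ek _ _ eE ((i3 _).1 h4)))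
          (asymm' _ _ (hN'.ek _ _ eE' ((i3' _).1 h4))))
    (by
      rintro a a' ⟨m, rfl, rfl⟩
      rcases sorts m with h4 | h4 | h4
      · exact iff_of_true (eM m h4) (eM' m h4)
      · exact iff_of_true (hN.eg _ _ eE ((i2 _).1 h4)) (hN'.eg _ _ eE' ((i2' _).1 h4))
      · exact iff_of_true (hN.ek _ _ eE ((i3 _).1 h4)) (hN'.ek _ _ eE' ((i3' _).1 h4)))
    (by
      rintro a a' - hsame
      rcases hsame with ⟨h4, -⟩ | ⟨h4, -⟩
      · exact absurd h4 eE.1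
      · exact absurd h4 eE.2)
  -- add `b₂`
  have P2 := extOne hN hN' P1 b₂ b₂' (iff_of_true hb2 hb2') (iff_of_false b2K b2K')
    (by
      rintro a a' (⟨m, rfl, rfl⟩ | ⟨rfl, rfl⟩)
      · rcases sorts m with h4 | h4 | h4
        · exact iff_of_true (hN.eg _ _ (hEi m h4) hb2) (hN'.eg _ _ (hEi' m h4) hb2')
        · exact iff_of_true (eG m h4).1 (eG' m h4).1
        · exact iff_of_false (asymm _ _ (hN.ltgk _ _ hb2 ((i3 _).1 h4)))
            (asymm' _ _ (hN'.ltgk _ _ hb2' ((i3' _).1 h4)))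
      · exact iff_of_true (hN.eg _ _ eE hb2) (hN'.eg _ _ eE' hb2'))
    (by
      rintro a a' (⟨m, rfl, rfl⟩ | ⟨rfl, rfl⟩)
      · rcases sorts m with h4 | h4 | h4
        · exact iff_of_false (asymm _ _ (hN.eg _ _ (hEi m h4) hb2))
            (asymm' _ _ (hN'.eg _ _ (hEi' m h4) hb2'))
        · exact iff_of_false (asymm _ _ (eG m h4).1) (asymm' _ _ (eG' m h4).1)
        · exact iff_of_true (hN.ltgk _ _ hb2 ((i3 _).1 h4)) (hN'.ltgk _ _ hb2' ((i3' _).1 h4))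
      · exact iff_of_false (asymm _ _ (hN.eg _ _ eE hb2)) (asymm' _ _ (hN'.eg _ _ eE' hb2')))
    (by
      rintro a a' (⟨m, rfl, rfl⟩ | ⟨rfl, rfl⟩) hsame hne
      · rcases hsame with ⟨-, h4⟩ | ⟨h4, -⟩
        · have hm : isG m := (i2 _).2 h4
          rw [(eG m hm).2, (eG' m hm).2]
          exact Or.inr ⟨rfl, rfl⟩
        · exact absurd h4 b2K
      · rcases hsame with ⟨-, h4⟩ | ⟨-, h4⟩
        · exact absurd h4 eE.1
        · exact absurd h4 eE.2)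
  -- add `b₁`
  have P3 := extOne hN hN' P2 b₁ b₁' (iff_of_false b1G b1G') (iff_of_true hb1 hb1')
    (by
      rintro a a' ((⟨m, rfl, rfl⟩ | ⟨rfl, rfl⟩) | ⟨rfl, rfl⟩)
      · rcases sorts m with h4 | h4 | h4
        · exact iff_of_true (hN.ek _ _ (hEi m h4) hb1) (hN'.ek _ _ (hEi' m h4) hb1')
        · exact iff_of_true (hN.ltgk _ _ ((i2 _).1 h4) hb1) (hN'.ltgk _ _ ((i2' _).1 h4) hb1')
        · obtain ⟨n, hn⟩ := h1 m h4
          exact (eK m h4 n hn).2.1.trans (eK' m h4 n hn).2.1.symm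
      · exact iff_of_true (hN.ek _ _ eE hb1) (hN'.ek _ _ eE' hb1')
      · exact iff_of_true (hN.ltgk _ _ hb2 hb1) (hN'.ltgk _ _ hb2' hb1'))
    (by
      rintro a a' ((⟨m, rfl, rfl⟩ | ⟨rfl, rfl⟩) | ⟨rfl, rfl⟩)
      · rcases sorts m with h4 | h4 | h4
        · exact iff_of_false (asymm _ _ (hN.ek _ _ (hEi m h4) hb1))
            (asymm' _ _ (hN'.ek _ _ (hEi' m h4) hb1'))
        · exact iff_of_false (asymm _ _ (hN.ltgk _ _ ((i2 _).1 h4) hb1))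
            (asymm' _ _ (hN'.ltgk _ _ ((i2' _).1 h4) hb1'))
        · obtain ⟨n, hn⟩ := h1 m h4
          exact (eK m h4 n hn).2.2.trans (eK' m h4 n hn).2.2.symm
      · exact iff_of_false (asymm _ _ (hN.ek _ _ eE hb1)) (asymm' _ _ (hN'.ek _ _ eE' hb1'))
      · exact iff_of_false (asymm _ _ (hN.ltgk _ _ hb2 hb1))
          (asymm' _ _ (hN'.ltgk _ _ hb2' hb1')))
    (by
      rintro a a' ((⟨m, rfl, rfl⟩ | ⟨rfl, rfl⟩) | ⟨rfl, rfl⟩) hsame hne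
      · rcases hsame with ⟨h4, -⟩ | ⟨-, h4⟩
        · exact absurd h4 b1G
        · have hm : isK m := (i3 _).2 h4
          obtain ⟨n, hn⟩ := h1 m hm
          rw [(eK m hm n hn).1, (eK' m hm n hn).1]
          exact Or.inl (Or.inl ⟨_, rfl, rfl⟩)
      · rcases hsame with ⟨-, h4⟩ | ⟨-, h4⟩
        · exact absurd h4 eE.1
        · exact absurd h4 eE.2
      · rcases hsame with ⟨h4, -⟩ | ⟨-, h4⟩
        · exact absurd h4 b1G
        · exact absurd h4 b2K)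
  exact ⟨_, P3, fun m => Or.inl (Or.inl (Or.inl ⟨m, rfl, rfl⟩)), Or.inr ⟨rfl, rfl⟩,
    Or.inl (Or.inr ⟨rfl, rfl⟩)⟩

end Pool.Agent.H726T
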