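import Pool.Agent.H726T.AxN
import Pool.Agent.H726T.Qe
import Pool.Agent.H726T.Uniq
import Pool.Agent.H726T.Facts
import Pool.Agent.H726T.LimBasic
import Pool.Agent.H726T.SeqS

set_option autoImplicit false

open FirstOrder FirstOrder.Language FirstOrder.Language.Structure Cardinal
open Pool.Agent.Y562.NWO

namespace Pool.Agent.H726T

/-- .  Global type: `lim_global`.  Finitely satisfiable: `φ ∈ rT j 𝓥` holds eventually so for some `x`; take `m = ![ff x.1, gg x.1 x.2]`.  Restriction: `qT = rT (refl) 𝓥₀` with `𝓥₀ ≤ atTop ×ˢ FE 0` is `tp k₀ b₀` for some `k₀ : S ↪ₑ N₀` (`lim_global`), `rT j 𝓥 = tp k b`, `k : U ↪ₑ N`.  By `limFacts` for both, `seqS`, and `uniq` (with `M = S`, `i = k₀`, `i' = k ∘ j`; `map_lt` etc.)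
there is a `PI` `R` between `N₀` and `N` with `R (k₀ m) (k (j m))`, `R (b₀ i) (b i)` and `qe` gives `φ.Realize (Sum.elim b₀ k₀) ↔ φ.Realize (Sum.elim b (k ∘ j))`, i.e. `φ ∈ qT ↔ φ.relabel (Sum.map id j) ∈ rT j 𝓥`. (Useful lemmas in Pool/Agent/Y562/NWO/{Basic,Types,Tensor}.lean, namespace `Pool.Agent.Y562.NWO`: `mem_tp`, `not_mem_iff`, `relabel_mem_iff`, `exists_of_mem`, `finite_params`, `exists_conj`, `el_ex`, `el_all`, `compact`, `Realizes.apply`, `Realizes.mono`, `exists_realizes`, `exists_tensor`, `small_union`, `small_finite`, `inv_mem`, `Realizes.hom`.) -/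
theorem rCoheir {U : Type} [LL.Structure U] (j : S ↪ₑ[LL] U) (α : ℝ) (𝓥 : Ultrafilter (ℕ × ℚ))
    (h𝓥 : (𝓥 : Filter (ℕ × ℚ)) ≤ Filter.atTop ×ˢ FE α) : IsCoheir j qT (rT j 𝓥) := by
  have hg : IsGlobalType (rT j 𝓥) := lim_global 𝓥 _
  have hq : IsGlobalType qT := lim_global _ _
  refine ⟨hg, ?_, ?_⟩
  · intro φ
    obtain ⟨N₀, i0, k₀, b₀, e₀⟩ := hq
    obtain ⟨N, i1, k, b, e1⟩ := hg
    have f0 := limFacts (ElementaryEmbedding.refl LL S) 0
      (Ultrafilter.of (Filter.atTop ×ˢ FE 0)) (Ultrafilter.of_le _) k₀ b₀ e₀.symm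
    have f1 := limFacts j α 𝓥 h𝓥 k b e1.symm
    obtain ⟨s1, s2, s3, s4, -⟩ := seqS
    obtain ⟨R, hR, hRm, hR0, hR1⟩ := uniq (M := S) (N := N₀) (N' := N) axS (axN k₀)
      (axN (k.comp j)) k₀ (k.comp j)
      (fun x y => (map_lt k₀ x y).symm) (fun x => (map_isG k₀ x).symm)
      (fun x => (map_isK k₀ x).symm) (fun x y => map_d k₀ x y)
      (fun x y => (map_lt (k.comp j) x y).symm) (fun x => (map_isG (k.comp j) x).symm)
      (fun x => (map_isK (k.comp j) x).symm) (fun x y => map_d (k.comp j) x y)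
      ff gam eps (fun n => ⟨_, rfl⟩) (fun n => ⟨_, rfl⟩)
      (fun n => by
        constructor
        · rintro ⟨x, hx⟩
          exact S.noConfusion hx
        · rintro ⟨x, hx⟩
          exact S.noConfusion hx)
      s1 s2 s3 s4 (b₀ 0) (b₀ 1) (b 0) (b 1) f0 f1
    have h1 := qe k₀ (k.comp j) hR φ (Sum.elim b₀ k₀) (Sum.elim b (k.comp j)) (by
      rintro (i | m)
      · fin_cases i
        · exact hR0
        · exact hR1
      · exact hRm m)
    have h2 : φ ∈ qT ↔ φ.Realize (Sum.elim b₀ k₀) := by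
      rw [e₀]
      exact Iff.rfl
    have h3 : φ.relabel (Sum.map id j) ∈ rT j 𝓥 ↔ φ.Realize (Sum.elim b (k.comp j)) := by
      rw [e1, mem_tp]
      exact Iff.rfl
    rw [h2, h3]
    exact h1.symm
  · intro φ hφ
    have hφ' : ∀ᶠ x in (𝓥 : Filter (ℕ × ℚ)),
        φ.Realize (Sum.elim ![j (ff x.1), j (gg x.1 x.2)] id) := hφ
    obtain ⟨x, hx⟩ := hφ'.exists
    refine ⟨![ff x.1, gg x.1 x.2], ?_⟩
    have e : (fun i => j ((![ff x.1, gg x.1 x.2] : Fin 2 → S) i)) =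
        ![j (ff x.1), j (gg x.1 x.2)] := by
      funext i
      fin_cases i <;> rfl
    rw [e]
    exact hx

end Pool.Agent.H726T
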