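import Pool.Agent.H726T.CommStep
import Pool.Agent.H726T.CommOf
import Pool.Agent.H726T.ExClosed
import Pool.Agent.H726T.ExBr
import Pool.Agent.H726T.NonComm
import Pool.Agent.H726T.RCoheir
import Pool.Agent.H726T.ExcSub
import Pool.Agent.H726T.LimBasic

/-!
# Main construction
-/

set_option autoImplicit false

open FirstOrder FirstOrder.Language FirstOrder.Language.Structure Cardinal
open Pool.Agent.Y562.NWO

namespace Pool.Agent.H726T

theorem comm {U : Type} [LL.Structure U] {κ : Cardinal.{0}} (hU : IsMonster κ LL U)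
    (j : S ↪ₑ[LL] U) (c₀ : U) (hc₀ : Br j c₀) {r : Set (LL.Formula (Fin 2 ⊕ U))}
    (hr : IsCoheir j qT r) (α : ℝ) (hα : Irrational α) (hex : α ∉ Exc j c₀ r)
    (𝓤 : Ultrafilter ℚ) (h𝓤 : (𝓤 : Filter ℚ) ≤ FE α) :
    Commute (Set.range j) (pT j 𝓤) r := by
  haveI : Nonempty U := ⟨c₀⟩
  haveI : Countable S := countS.1
  have hcount : (Set.range j).Countable := Set.countable_range j
  refine comm_of hU (lim_global 𝓤 _) hr.1 (Set.range j)
    (hcount.le_aleph0.trans_lt hU.aleph0_lt) (lim_inv _ 𝓤 _ fun i _ => ⟨_, rfl⟩)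
    (coheir_inv j hr) fun F hF => ?_
  obtain ⟨C, hDC, hCc, hC⟩ := exClosed (Set.range j ∪ F ∪ {c₀})
    ((hcount.union hF.countable).union (Set.countable_singleton c₀))
  refine ⟨C, Set.subset_union_left.trans hDC, hCc.le_aleph0.trans_lt hU.aleph0_lt,
    fun a b' ha hb' ψ => ?_⟩
  exact commStep j c₀ hc₀ hr α hα hex 𝓤 h𝓤 C hC
    ((Set.subset_union_left.trans Set.subset_union_left).trans hDC)
    (hDC (Or.inr rfl)) a b' ha hb' ψ

theorem main {U : Type} [LL.Structure U] {κ : Cardinal.{0}} (hU : IsMonster κ LL U)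
    (j : S ↪ₑ[LL] U) (Q : Set (Set (LL.Formula (Fin 2 ⊕ U)))) (hQ : Q.Countable)
    (hQc : ∀ r ∈ Q, IsCoheir j qT r) :
    ∃ p : Set (LL.Formula (Fin 1 ⊕ U)), IsGlobalType p ∧ Invariant (Set.range j) p ∧
      (∀ r ∈ Q, Commute (Set.range j) p r) ∧
        ∃ r, IsCoheir j qT r ∧ ¬ Commute (Set.range j) p r := by
  obtain ⟨c₀, hc₀⟩ := exBr hU j
  have hE : (⋃ r ∈ Q, Exc j c₀ r).Countable :=
    hQ.biUnion fun r hr => (Exc_sub j c₀ (hQc r hr).1).countable
  have hI : (⋃ r ∈ Q, Exc j c₀ r) ∪ Set.range ((↑) : ℚ → ℝ) ≠ Set.univ := by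
    intro h
    have h1 := hE.union (Set.countable_range ((↑) : ℚ → ℝ))
    rw [h] at h1
    exact Cardinal.not_countable_real h1
  obtain ⟨α, hα⟩ := (Set.ne_univ_iff_exists_notMem _).1 hI
  have hα1 : Irrational α := fun h => hα (Or.inr h)
  have hα2 : ∀ r ∈ Q, α ∉ Exc j c₀ r := fun r hr h => hα (Or.inl (Set.mem_biUnion hr h))
  refine ⟨pT j (Ultrafilter.of (FE α)), lim_global _ _, lim_inv _ _ _ fun i _ => ⟨_, rfl⟩,
    fun r hr => comm hU j c₀ hc₀ (hQc r hr) α hα1 (hα2 r hr) _ (Ultrafilter.of_le _),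
    rT j (Ultrafilter.of (Filter.atTop ×ˢ FE α)), rCoheir j α _ (Ultrafilter.of_le _),
    nonComm hU j c₀ hc₀ α hα1 _ (Ultrafilter.of_le _) _ (Ultrafilter.of_le _)⟩

end Pool.Agent.H726T
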