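import Pool.Agent.H726T.AxS
import Pool.Agent.H726T.ExtOne
import Pool.Agent.H726T.ExtS
import Pool.Agent.H726T.GenOne
import Pool.Agent.H726T.CodeOne

set_option autoImplicit false

open FirstOrder FirstOrder.Language FirstOrder.Language.Structure

namespace Pool.Agent.H726T

theorem typesBound_ext (m : ℕ) : ∀ (z : Fin m → S) (R : S → S → Prop), PI R →
    {p : S × S | R p.1 p.2}.Finite → ∃ (R' : S → S → Prop) (y : Fin m → S), PI R' ∧
      {p : S × S | R' p.1 p.2}.Finite ∧ (∀ a b, R a b → R' a b) ∧ ∀ l, R' (y l) (z l) := by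
  induction m with
  | zero =>
    intro z R hR hf
    exact ⟨R, z, hR, hf, fun a b h => h, fun l => l.elim0⟩
  | succ m ih =>
    intro z R hR hf
    obtain ⟨R', y, hR', hf', hle, hy⟩ := ih (fun l => z l.succ) R hR hf
    have hfs : {p : S × S | (fun a b => R' b a) p.1 p.2}.Finite := by
      refine (hf'.image Prod.swap).subset ?_
      rintro ⟨a, b⟩ h
      exact ⟨(b, a), h, rfl⟩
    obtain ⟨x', R'', hR'', hf'', hle'', hx'⟩ := extS (fun a b => R' b a) hR'.symm hfs (z 0)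
    have hfs' : {p : S × S | (fun a b => R'' b a) p.1 p.2}.Finite := by
      refine (hf''.image Prod.swap).subset ?_
      rintro ⟨a, b⟩ h
      exact ⟨(b, a), h, rfl⟩
    refine ⟨fun a b => R'' b a, Fin.cons x' y, hR''.symm, hfs', fun a b h => hle'' b a (hle a b h), ?_⟩
    intro l
    refine Fin.cases ?_ (fun l => ?_) l
    · exact hx'
    · exact hle'' _ _ (hy l)

theorem typesBound_id (B : Finset S) (hB : ∀ x ∈ B, ∀ y ∈ B, d x y ∈ B) :
    PI (fun u u' : S => u = u' ∧ u ∈ B) ∧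
      {p : S × S | (fun u u' : S => u = u' ∧ u ∈ B) p.1 p.2}.Finite := by
  constructor
  · constructor
    · rintro x x' y y' ⟨rfl, _⟩ ⟨rfl, _⟩
      exact Iff.rfl
    · rintro x x' ⟨rfl, _⟩
      exact Iff.rfl
    · rintro x x' ⟨rfl, _⟩
      exact Iff.rfl
    · rintro x x' y y' ⟨rfl, hx⟩ ⟨rfl, hy⟩
      exact ⟨rfl, hB x hx y hy⟩
  · refine ((B.finite_toSet).image (fun b => (b, b))).subset ?_
    rintro ⟨a, b⟩ ⟨h, hb⟩
    have h' : a = b := h
    subst h'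
    exact ⟨a, hb, rfl⟩

theorem typesBound_comp {R₁ R R₂ : S → S → Prop} (h₁ : PI R₁) (h : PI R) (h₂ : PI R₂)
    (f₁ : {p : S × S | R₁ p.1 p.2}.Finite) (f₂ : {p : S × S | R₂ p.1 p.2}.Finite) :
    PI (fun u v : S => ∃ u' v', R₁ u' u ∧ R u' v' ∧ R₂ v' v) ∧
      {p : S × S | (fun u v : S => ∃ u' v', R₁ u' u ∧ R u' v' ∧ R₂ v' v) p.1 p.2}.Finite := by
  constructor
  · constructor
    · rintro x x' y y' ⟨u, v, a1, a2, a3⟩ ⟨u', v', b1, b2, b3⟩
      rw [← h₁.lt _ _ _ _ a1 b1, h.lt _ _ _ _ a2 b2, h₂.lt _ _ _ _ a3 b3]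
    · rintro x x' ⟨u, v, a1, a2, a3⟩
      rw [← h₁.isG _ _ a1, h.isG _ _ a2, h₂.isG _ _ a3]
    · rintro x x' ⟨u, v, a1, a2, a3⟩
      rw [← h₁.isK _ _ a1, h.isK _ _ a2, h₂.isK _ _ a3]
    · rintro x x' y y' ⟨u, v, a1, a2, a3⟩ ⟨u', v', b1, b2, b3⟩
      exact ⟨d u u', d v v', h₁.d _ _ _ _ a1 b1, h.d _ _ _ _ a2 b2, h₂.d _ _ _ _ a3 b3⟩
  · refine ((f₁.image Prod.snd).prod (f₂.image Prod.snd)).subset ?_
    rintro ⟨a, b⟩ ⟨u, v, a1, a2, a3⟩
    exact ⟨⟨(u, a), a1, rfl⟩, ⟨(v, b), a3, rfl⟩⟩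

/-- counting types of `k`-tuples over a closed set.  Induction on `k`.  `k = 0`: `1 < ι.card` gives `i ≠ i'`, `R = id_B` (`fun u u' => u = u' ∧ u ∈ B`).  Step `k+1`: pigeonhole (`Finset.exists_lt_card_fiber_of_mul_lt_card_of_maps_to`) for `i ↦ c (x i 0)` with `c` from `codeOne` (`(B.card+24)^6 ≤ (N+3(k+1)+24)^6`) gives `ι' ⊆ ι` with
`(N+3+3k+24)^(6k) < ι'.card` on which `c (x i 0)` is constant.  Fix `i₀ ∈ ι'`; for `i ∈ ι'` there is a finite `PI` `R_i ⊇ id_B` with `R_i (x i₀ 0) (x i 0)`; extending `R_i` by `extS` for the inverse relation (`PI.symm`), `k` times, we may assume there is `y i : Fin k → S` with `R_i (y i l) (x i l.succ)`.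
`genOne` for `B` and `x i₀ 0` gives `B'` closed with at most `N+3` elements; by induction for `N+3`, `B'`, `ι'`, `y` there are `i ≠ i'` in `ι'` and a finite `PI` `R ⊇ id_{B'}` with `R (y i l) (y i' l)`.  The composition `R_i⁻¹ ; R ; R_{i'}` (`fun u v => ∃ u' v', R_i u' u ∧ R u' v' ∧ R_{i'} v' v`) is a finite `PI`
(finite: contained in the image of a finite set/product of the finite ranges), contains `id_B` and relates `x i l` to `x i' l` for all `l` (for `l = 0` via `x i₀ 0 ∈ B'`). -/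
theorem typesBound (k : ℕ) : ∀ (N : ℕ) (B : Finset S), (∀ x ∈ B, ∀ y ∈ B, d x y ∈ B) →
    B.card ≤ N → ∀ (τ : Type) (ι : Finset τ) (x : τ → Fin k → S),
      (N + 3 * k + 24) ^ (6 * k) < ι.card → ∃ i ∈ ι, ∃ i' ∈ ι, i ≠ i' ∧ ∃ R : S → S → Prop, PI R ∧
        {p : S × S | R p.1 p.2}.Finite ∧ (∀ b ∈ B, R b b) ∧ ∀ l, R (x i l) (x i' l) := by
  classical
  induction k with
  | zero =>
    intro N B hB hN τ ι x h
    rw [mul_zero, pow_zero] at h
    obtain ⟨i, hi, i', hi', hne⟩ := Finset.one_lt_card.mp h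
    obtain ⟨h1, h2⟩ := typesBound_id B hB
    exact ⟨i, hi, i', hi', hne, _, h1, h2, fun b hb => ⟨rfl, hb⟩, fun l => l.elim0⟩
  | succ k ih =>
    intro N B hB hN τ ι x h
    obtain ⟨c, hc⟩ := codeOne B hB
    have hmul : (Finset.univ : Finset (Fin ((B.card + 24) ^ 6))).card *
        (N + 3 + 3 * k + 24) ^ (6 * k) < ι.card := by
      rw [Finset.card_univ, Fintype.card_fin]
      refine lt_of_le_of_lt ?_ h
      have e : N + 3 * (k + 1) + 24 = N + 3 + 3 * k + 24 := by ring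
      rw [e]
      have e2 : 6 * (k + 1) = 6 + 6 * k := by ring
      rw [e2, pow_add]
      refine Nat.mul_le_mul_right _ (Nat.pow_le_pow_left (by omega) 6)
    obtain ⟨y0, _, hy0⟩ := Finset.exists_lt_card_fiber_of_mul_lt_card_of_maps_to
      (f := fun i : τ => c (x i 0)) (fun a _ => Finset.mem_univ _) hmul
    set ι' : Finset τ := ι.filter (fun i => c (x i 0) = y0) with hι'
    have hne : ι'.Nonempty := by
      rw [← Finset.card_pos]
      exact lt_of_le_of_lt (Nat.zero_le _) hy0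
    obtain ⟨i₀, hi₀⟩ := hne
    have hext : ∀ i : τ, ∃ (R : S → S → Prop) (y : Fin k → S), i ∈ ι' → PI R ∧
        {p : S × S | R p.1 p.2}.Finite ∧ (∀ b ∈ B, R b b) ∧ R (x i₀ 0) (x i 0) ∧
        ∀ l, R (y l) (x i l.succ) := by
      intro i
      by_cases hi : i ∈ ι'
      · have hci : c (x i₀ 0) = c (x i 0) := by
          rw [(Finset.mem_filter.mp hi₀).2, (Finset.mem_filter.mp hi).2]
        obtain ⟨R, hR, hf, hb, hx⟩ := hc _ _ hci
        obtain ⟨R', y, hR', hf', hle, hy⟩ := typesBound_ext k (fun l => x i l.succ) R hR hf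
        exact ⟨R', y, fun _ => ⟨hR', hf', fun b hb' => hle b b (hb b hb'), hle _ _ hx, hy⟩⟩
      · exact ⟨fun _ _ => False, fun _ => x i₀ 0, fun h => absurd h hi⟩
    choose Rf y hRf using hext
    obtain ⟨B', hBB', hxB', hB', hcard', _⟩ := genOne B hB (x i₀ 0)
    obtain ⟨i, hi, i', hi', hii', R, hR, hf, hid, hl⟩ :=
      ih (N + 3) B' hB' (by omega) τ ι' y hy0
    obtain ⟨p1, p2, p3, p4, p5⟩ := hRf i hi
    obtain ⟨q1, q2, q3, q4, q5⟩ := hRf i' hi'
    obtain ⟨c1, c2⟩ := typesBound_comp p1 hR q1 p2 q2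
    refine ⟨i, (Finset.mem_filter.mp hi).1, i', (Finset.mem_filter.mp hi').1, hii', _, c1, c2, ?_, ?_⟩
    · intro b hb
      exact ⟨b, b, p3 b hb, hid b (hBB' hb), q3 b hb⟩
    · intro l
      refine Fin.cases ?_ (fun l => ?_) l
      · exact ⟨x i₀ 0, x i₀ 0, p4, hid _ hxB', q4⟩
      · exact ⟨y i l, y i' l, p5 l, hl l, q5 l⟩

end Pool.Agent.H726T
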