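import Pool.Agent.H726T.AxS
import Pool.Agent.H726T.ClosT
import Pool.Agent.H726T.Pres
import Pool.Agent.H726T.TypesBound
import Pool.Agent.H726T.Growth
import Pool.Agent.H726T.TDefs2

set_option autoImplicit false

open FirstOrder FirstOrder.Language FirstOrder.Language.Structure Cardinal
open Pool.Agent.Y562.NWO

namespace Pool.Agent.H726T

/-- the standard model is NIP.  `IsNIP` is in Pool/Agent/Y562/NWO/Basic.lean.  Given `m k φ` take `n` from `growth m k`.  Suppose `a : Fin n → Fin m → S`, `b : Set (Fin n) → Fin k → S` are as in the definition.  Let `v : Fin (n*m) → S` be the concatenation of the `a i` (`finProdFinEquiv`), `B :=` the image of `val v` (`T (n*m)` has `(n m)^4` elements): closed under `d` and containing all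
`a i l` by `closT` for `SameDiag v v`.  `typesBound k ((n*m)^4) B` with `τ = Set (Fin n)`, `ι = univ` (`card = 2^n`), `x = b` gives `s ≠ s'` and `R` with `R (a i l) (a i l)`, `R (b s l) (b s' l)`; by `pres` (for the formula as a `BoundedFormula _ 0`) `φ(a i, b s) ↔ φ(a i, b s')` for all `i`, so `s = s'`, a contradiction. -/
theorem nipS : IsNIP LL S := by
  classical
  intro m k φ
  obtain ⟨n, hn⟩ := growth m k
  refine ⟨n, ?_⟩
  rintro ⟨a, b, hab⟩
  let v : Fin (n * m) → S := fun i => a (finProdFinEquiv.symm i).1 (finProdFinEquiv.symm i).2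
  have hsd : SameDiag v v := ⟨fun _ _ => Iff.rfl, fun _ => Iff.rfl, fun _ => Iff.rfl⟩
  obtain ⟨hPI, hmem⟩ := closT axS axS v v hsd
  let B : Finset S := Finset.univ.image (val v)
  have hBmem : ∀ p, val v p ∈ B := fun p => Finset.mem_image_of_mem _ (Finset.mem_univ _)
  have hBcl : ∀ x ∈ B, ∀ y ∈ B, d x y ∈ B := by
    intro x hx y hy
    obtain ⟨p, -, rfl⟩ := Finset.mem_image.1 hx
    obtain ⟨q, -, rfl⟩ := Finset.mem_image.1 hy
    obtain ⟨r, hr, -⟩ := hPI.d _ _ _ _ ⟨p, rfl, rfl⟩ ⟨q, rfl, rfl⟩
    rw [hr]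
    exact hBmem r
  have hBcard : B.card ≤ (n * m) ^ 4 := by
    refine Finset.card_image_le.trans (le_of_eq ?_)
    rw [Finset.card_univ, Fintype.card_prod, Fintype.card_prod, Fintype.card_fin]
    ring
  have haB : ∀ i l, a i l ∈ B := by
    intro i l
    obtain ⟨p, hp, -⟩ := hmem (finProdFinEquiv (i, l))
    have h1 : v (finProdFinEquiv (i, l)) = a i l := by
      simp only [v, Equiv.symm_apply_apply]
    rw [← h1, hp]
    exact hBmem p
  have hcard : ((n * m) ^ 4 + 3 * k + 24) ^ (6 * k) < (Finset.univ : Finset (Set (Fin n))).card := by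
    rw [Finset.card_univ, Fintype.card_set, Fintype.card_fin]
    exact hn
  obtain ⟨s, -, s', -, hne, R, hR, hfin, hRB, hx⟩ :=
    typesBound k ((n * m) ^ 4) B hBcl hBcard (Set (Fin n)) Finset.univ b hcard
  refine hne (Set.ext fun i => ?_)
  rw [← hab i s, ← hab i s']
  refine pres φ R hR hfin _ _ default default ?_ (fun i => i.elim0)
  rintro (l | l)
  · exact hRB _ (haB i l)
  · exact hx l

end Pool.Agent.H726T
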